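import Pool.Agent.P.MP_2668aa_co.Num

/-! Distances inside a vertex subset, and transmission bounds. -/

set_option linter.unusedSectionVars false

namespace Pool.Agent.P.MP_2668aa_co

open Finset

variable {V : Type*} [DecidableEq V] (G : SimpleGraph V) [DecidableRel G.Adj]

/-- The graph keeping only the edges inside `S`. -/
def res (S : Finset V) : SimpleGraph V where
  Adj x y := G.Adj x y ∧ x ∈ S ∧ y ∈ S
  symm := ⟨fun _ _ h => ⟨h.1.symm, h.2.2, h.2.1⟩⟩
  loopless := ⟨fun _ h => h.1.ne rfl⟩

/-- `S` induces a connected subgraph. -/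
def Conn (S : Finset V) : Prop := ∀ x ∈ S, ∀ y ∈ S, (res G S).Reachable x y

/-- `S` has at least two vertices and stays connected after deleting at most one vertex. -/
def BSet (S : Finset V) : Prop := 2 ≤ S.card ∧ Conn G S ∧ ∀ x, Conn G (S.erase x)

/-- Distance inside `S`. -/
noncomputable def dS (S : Finset V) (x y : V) : ℕ := (res G S).dist x y

/-- Transmission inside `S`. -/
noncomputable def wS (S : Finset V) (x : V) : ℤ := ∑ y ∈ S, (dS G S x y : ℤ)

/-- Twice the Wiener index of the graph induced on `S`. -/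
noncomputable def WS (S : Finset V) : ℤ := ∑ x ∈ S, wS G S x

/-- Neighbours inside `S`. -/
def nb (S : Finset V) (v : V) : Finset V := S.filter (fun y => G.Adj v y)

/-- Number of vertices at distance more than `l`. -/
noncomputable def far (S : Finset V) (x : V) (l : ℕ) : ℕ :=
  (S.filter (fun y => l < dS G S x y)).card

/-- Tail of the transmission. -/
noncomputable def tail (S : Finset V) (x : V) (l : ℕ) : ℤ :=
  ∑ y ∈ S, ((dS G S x y - l : ℕ) : ℤ)

variable {G}

lemma res_mono {S T : Finset V} (h : S ⊆ T) : res G S ≤ res G T :=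
  fun _ _ hxy => ⟨hxy.1, h hxy.2.1, h hxy.2.2⟩

lemma reach_mono {S T : Finset V} (h : S ⊆ T) {x y : V} (hr : (res G S).Reachable x y) :
    (res G T).Reachable x y := hr.mono (res_mono h)

lemma reach_adj {S : Finset V} {x y : V} (h : G.Adj x y) (hx : x ∈ S) (hy : y ∈ S) :
    (res G S).Reachable x y := SimpleGraph.Adj.reachable (G := res G S) ⟨h, hx, hy⟩

lemma dS_self (S : Finset V) (x : V) : dS G S x x = 0 := SimpleGraph.dist_self

lemma dS_comm (S : Finset V) (x y : V) : dS G S x y = dS G S y x := SimpleGraph.dist_comm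

lemma dS_adj {S : Finset V} {x y : V} (h : G.Adj x y) (hx : x ∈ S) (hy : y ∈ S) :
    dS G S x y = 1 := SimpleGraph.dist_eq_one_iff_adj.2 ⟨h, hx, hy⟩

lemma adj_of_dS_one {S : Finset V} {x y : V} (h : dS G S x y = 1) : G.Adj x y :=
  (SimpleGraph.dist_eq_one_iff_adj.1 h).1

lemma dS_tri {S : Finset V} (hS : Conn G S) {x y : V} (hx : x ∈ S) (hy : y ∈ S) (z : V) :
    dS G S x z ≤ dS G S x y + dS G S y z := (hS x hx y hy).dist_triangle_left z

lemma dS_step {S : Finset V} (x : V) {y z : V} (h : G.Adj y z) (hy : y ∈ S) (hz : z ∈ S) :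
    dS G S x z ≤ dS G S x y + 1 := by
  have := (reach_adj h hy hz).dist_triangle_right x
  have h1 := dS_adj h hy hz
  unfold dS at *
  omega

lemma dS_pos {S : Finset V} (hS : Conn G S) {x y : V} (hx : x ∈ S) (hy : y ∈ S) (h : x ≠ y) :
    1 ≤ dS G S x y := (hS x hx y hy).pos_dist_of_ne h

lemma dS_anti {S T : Finset V} (h : S ⊆ T) (hS : Conn G S) {x y : V} (hx : x ∈ S) (hy : y ∈ S) :
    dS G T x y ≤ dS G S x y := (hS x hx y hy).dist_anti (res_mono h)

lemma ivt_walk {S T : Finset V} (hTS : T ⊆ S) (x : V) (l : ℕ) {a y : V}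
    (p : (res G T).Walk a y) (ha : a ∈ T) (h1 : dS G S x a ≤ l) (h2 : l ≤ dS G S x y) :
    ∃ w ∈ T, dS G S x w = l := by
  induction p with
  | nil => exact ⟨_, ha, le_antisymm h1 h2⟩
  | @cons a b c hab p ih =>
    by_cases h : dS G S x a = l
    · exact ⟨a, ha, h⟩
    · have := dS_step x hab.1 (hTS hab.2.1) (hTS hab.2.2)
      exact ih hab.2.2 (by omega) h2

lemma ivt {S T : Finset V} (hTS : T ⊆ S) (hT : Conn G T) {x y : V} (hx : x ∈ T) (hy : y ∈ T)
    {l : ℕ} (h2 : l ≤ dS G S x y) : ∃ w ∈ T, dS G S x w = l := by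
  obtain ⟨p⟩ := hT x hx y hy
  exact ivt_walk hTS x l p hx (by rw [dS_self]; omega) h2

lemma far_add_le {S A : Finset V} {x : V} {i j : ℕ} (hij : i ≤ j) (hA : A ⊆ S)
    (h : ∀ y ∈ A, i < dS G S x y ∧ dS G S x y ≤ j) : far G S x j + A.card ≤ far G S x i := by
  unfold far
  rw [← card_union_of_disjoint]
  · apply card_le_card
    intro y hy
    rcases mem_union.1 hy with hy | hy
    · rw [mem_filter] at hy ⊢
      exact ⟨hy.1, by omega⟩
    · exact mem_filter.2 ⟨hA hy, (h y hy).1⟩
  · rw [disjoint_left]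
    intro y hy hyA
    have := (h y hyA).2
    have := (mem_filter.1 hy).2
    omega

lemma far_add_le_card {S A : Finset V} {x : V} {j : ℕ} (hA : A ⊆ S)
    (h : ∀ y ∈ A, dS G S x y ≤ j) : far G S x j + A.card ≤ S.card := by
  unfold far
  rw [← card_union_of_disjoint]
  · apply card_le_card
    intro y hy
    rcases mem_union.1 hy with hy | hy
    · exact (mem_filter.1 hy).1
    · exact hA hy
  · rw [disjoint_left]
    intro y hy hyA
    have := h y hyA
    have := (mem_filter.1 hy).2
    omega

lemma far_growth {S : Finset V} (hS : BSet G S) {x : V} (hx : x ∈ S) (l : ℕ) :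
    far G S x (l + 1) = 0 ∨ far G S x (l + 1) + 2 ≤ far G S x l := by
  by_cases h0 : far G S x (l + 1) = 0
  · exact Or.inl h0
  right
  obtain ⟨y, hy⟩ := card_pos.1 (Nat.pos_of_ne_zero h0)
  obtain ⟨hyS, hy⟩ := mem_filter.1 hy
  obtain ⟨z, hz, hz1⟩ := ivt (subset_refl S) hS.2.1 hx hyS hy.le
  have hxz : x ∈ S.erase z := mem_erase.2 ⟨by rintro rfl; rw [dS_self] at hz1; omega, hx⟩
  have hyz : y ∈ S.erase z := mem_erase.2 ⟨by rintro rfl; omega, hyS⟩
  obtain ⟨z', hz', hz1'⟩ := ivt (erase_subset z S) (hS.2.2 z) hxz hyz hy.le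
  obtain ⟨hne, hz'⟩ := mem_erase.1 hz'
  have := far_add_le (G := G) (x := x) (A := {z', z}) (S := S) (Nat.le_succ l)
    (by intro w hw; rcases mem_insert.1 hw with rfl | hw
        · exact hz'
        · rw [mem_singleton.1 hw]; exact hz)
    (by intro w hw; rcases mem_insert.1 hw with rfl | hw
        · omega
        · rw [mem_singleton.1 hw]; omega)
  rw [card_pair hne] at this
  exact this

lemma far_chain {S : Finset V} (hS : BSet G S) {x : V} (hx : x ∈ S) (i j : ℕ)
    (h : far G S x (i + j) ≠ 0) : far G S x (i + j) + 2 * j ≤ far G S x i := by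
  induction j with
  | zero => simp
  | succ j ih =>
    have h1 := far_growth hS hx (i + j)
    rw [← add_assoc] at h ⊢
    have h2 := ih (by omega)
    omega

lemma tail_succ (S : Finset V) (x : V) (l : ℕ) :
    tail G S x l = far G S x l + tail G S x (l + 1) := by
  unfold tail far
  rw [card_filter]
  push_cast
  rw [← sum_add_distrib]
  apply sum_congr rfl
  intro y _
  split_ifs <;> omega

lemma tail_zero (S : Finset V) (x : V) : tail G S x 0 = wS G S x := by
  simp [tail, wS]

lemma tail_of_far_zero {S : Finset V} {x : V} {l : ℕ} (h : far G S x l = 0) :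
    tail G S x l = 0 := by
  unfold tail
  apply sum_eq_zero
  intro y hy
  have : ¬ l < dS G S x y := fun hl => by
    have : y ∈ S.filter (fun y => l < dS G S x y) := mem_filter.2 ⟨hy, hl⟩
    rw [far, card_eq_zero] at h
    rw [h] at this
    simp at this
  omega

lemma le_D_succ (b : ℕ) : (b : ℤ) ≤ D (b + 1) := by
  cases b with
  | zero => simp [D]
  | succ b =>
    have := D_nonneg b
    rw [D_add_two]; push_cast; linarith

lemma tail_le {S : Finset V} (hS : BSet G S) {x : V} (hx : x ∈ S) (b : ℕ) :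
    ∀ l, far G S x l ≤ b → tail G S x l ≤ D (b + 1) := by
  induction b using Nat.strong_induction_on with
  | _ b ih =>
    intro l hl
    rw [tail_succ]
    rcases far_growth hS hx l with h | h
    · rw [tail_of_far_zero h]
      have := le_D_succ b
      have : (far G S x l : ℤ) ≤ b := by exact_mod_cast hl
      linarith
    · obtain ⟨c, rfl⟩ : ∃ c, b = c + 2 := ⟨b - 2, by omega⟩
      have h1 := ih c (by omega) (l + 1) (by omega)
      have : (far G S x l : ℤ) ≤ (c + 2 : ℕ) := by exact_mod_cast hl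
      rw [show c + 2 + 1 = (c + 1) + 2 by ring, D_add_two]
      push_cast at this ⊢
      linarith

lemma far_zero_le {S : Finset V} {x : V} (hx : x ∈ S) : far G S x 0 + 1 ≤ S.card := by
  have := far_add_le_card (G := G) (x := x) (j := 0) (singleton_subset_iff.2 hx)
    (by intro y hy; rw [mem_singleton.1 hy, dS_self])
  simpa using this

/-- The general transmission bound. -/
lemma P0 {S : Finset V} (hS : BSet G S) {x : V} (hx : x ∈ S) : wS G S x ≤ D S.card := by
  have h1 := far_zero_le (G := G) hx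
  have := tail_le hS hx (S.card - 1) 0 (by omega)
  rwa [tail_zero, show S.card - 1 + 1 = S.card by omega] at this

lemma closed_nb_subset {S : Finset V} {v : V} (hv : v ∈ S) : insert v (nb G S v) ⊆ S :=
  insert_subset hv (filter_subset _ _)

lemma closed_nb_card (S : Finset V) (v : V) :
    (insert v (nb G S v)).card = (nb G S v).card + 1 :=
  card_insert_of_notMem (fun h => (mem_filter.1 h).2.ne rfl)

lemma closed_nb_dist {S : Finset V} {v : V} (hv : v ∈ S) (x : V) {y : V}
    (hy : y ∈ insert v (nb G S v)) :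
    dS G S x y ≤ dS G S x v + 1 ∧ dS G S x v ≤ dS G S x y + 1 := by
  rcases mem_insert.1 hy with rfl | hy
  · omega
  · obtain ⟨h1, h2⟩ := mem_filter.1 hy
    exact ⟨dS_step x h2 hv h1, dS_step x h2.symm h1 hv⟩

lemma far_nb {S : Finset V} {v : V} (hv : v ∈ S) (x : V) :
    far G S x (dS G S x v + 1) + (nb G S v).card + 1 ≤ S.card := by
  have := far_add_le_card (G := G) (x := x) (closed_nb_subset hv)
    (fun y hy => (closed_nb_dist hv x hy).1)
  rw [closed_nb_card] at this
  omega

section bounds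

variable {S : Finset V} {v : V} {k m : ℕ}

lemma three_le_m (hv : v ∈ S) (hk : (nb G S v).card = k + 2) (hm : S.card = m + k) : 3 ≤ m := by
  have := far_nb (G := G) hv v
  omega

lemma Pv (hS : BSet G S) (hv : v ∈ S) (hk : (nb G S v).card = k + 2) (hm : S.card = m + k) :
    wS G S v ≤ D m + k := by
  have h0 := far_zero_le (G := G) hv
  have h1 := far_nb (G := G) hv v
  rw [dS_self, zero_add] at h1
  obtain ⟨c, rfl⟩ : ∃ c, m = c + 3 := ⟨m - 3, by omega⟩
  have h2 := tail_le hS hv c 1 (by omega)
  rw [← tail_zero, tail_succ, show c + 3 = (c + 1) + 2 by ring, D_add_two]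
  have : (far G S v 0 : ℤ) + 1 ≤ c + 3 + k := by exact_mod_cast hm ▸ h0
  push_cast
  linarith

lemma P2_aux (hS : BSet G S) {x : V} (hx : x ∈ S) (h3 : 3 ≤ S.card) {b : ℕ}
    (hb : far G S x 2 ≤ b) : wS G S x ≤ 2 * S.card - 4 + D (b + 1) := by
  have h0 := far_zero_le (G := G) hx
  have h1 := far_growth hS hx 0
  have h2 := tail_le hS hx b 2 hb
  rw [← tail_zero, tail_succ, tail_succ]
  have : (far G S x 0 : ℤ) + far G S x (0 + 1) + 4 ≤ 2 * S.card := by
    have : far G S x 0 + far G S x (0 + 1) + 4 ≤ 2 * S.card := by omega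
    exact_mod_cast this
  linarith

lemma P2 (hS : BSet G S) (hv : v ∈ S) (hk : (nb G S v).card = k + 2) (hm : S.card = m + k)
    {x : V} (hx : x ∈ S) (hxv : dS G S x v = 1) : wS G S x ≤ D m + m + 2 * k - 3 := by
  have h1 := far_nb (G := G) hv x
  rw [hxv] at h1
  obtain ⟨c, rfl⟩ : ∃ c, m = c + 3 := ⟨m - 3, by omega⟩
  have := P2_aux hS hx (by omega) (b := c) (by simp only [Nat.reduceAdd] at h1; omega)
  rw [hm] at this
  rw [show c + 3 = (c + 1) + 2 by ring, D_add_two]
  push_cast at this ⊢
  linarith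

lemma far_dist (hS : BSet G S) (hv : v ∈ S) (hk : (nb G S v).card = k + 2) (hm : S.card = m + k)
    {x : V} (hx : x ∈ S) : far G S x (dS G S x v + 1) + 2 * dS G S x v ≤ m := by
  have h1 := far_nb (G := G) hv x
  by_cases hd : dS G S x v ≤ 1
  · omega
  obtain ⟨c, hc⟩ : ∃ c, dS G S x v = c + 2 := ⟨dS G S x v - 2, by omega⟩
  have h2 := far_add_le (G := G) (x := x) (i := c) (j := dS G S x v + 1) (by omega)
    (closed_nb_subset (G := G) hv) (fun y hy => by have := closed_nb_dist hv x hy; omega)
  rw [closed_nb_card] at h2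
  have h3 := far_chain hS hx 0 c (by rw [zero_add]; omega)
  have h4 := far_zero_le (G := G) hx
  rw [zero_add] at h3
  omega

lemma D_add_mul (b j : ℕ) : D (b + 2 * j) = D b + j * b + j * j := by
  induction j with
  | zero => simp
  | succ j ih =>
    rw [show b + 2 * (j + 1) = (b + 2 * j) + 2 by ring, D_add_two, ih]
    push_cast; ring

lemma tail_head {x : V} (c : ℤ) (j : ℕ) (h : ∀ l < j, (far G S x l : ℤ) + 2 * l ≤ c) :
    wS G S x ≤ j * c - j * (j - 1) + tail G S x j := by
  induction j with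
  | zero => simp [tail_zero]
  | succ j ih =>
    have h1 := ih (fun l hl => h l (by omega))
    have h2 := h j (by omega)
    rw [tail_succ] at h1
    push_cast
    linarith

lemma P1 (hS : BSet G S) (hv : v ∈ S) (hk : (nb G S v).card = k + 2) (hm : S.card = m + k)
    (hk1 : 1 ≤ k) {x : V} (hx : x ∈ S) :
    wS G S x ≤ D (m + 3) + ((k : ℤ) - 3) * (dS G S x v + 1) := by
  have h1 := far_dist hS hv hk hm hx
  set d := dS G S x v with hd
  obtain ⟨b, hb⟩ : ∃ b, m = b + 2 * d := ⟨m - 2 * d, by omega⟩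
  have h2 := tail_le hS hx b (d + 1) (by omega)
  have h0 := far_zero_le (G := G) hx
  have h3 := tail_head (G := G) (S := S) (x := x) ((m : ℤ) + k - 1) (d + 1) (by
    intro l hl
    by_cases h : far G S x l = 0
    · rw [h]; omega
    · have := far_chain hS hx 0 l (by rwa [zero_add])
      rw [zero_add] at this
      omega)
  have h4 := D_add_mul (b + 1) (d + 1)
  rw [show b + 1 + 2 * (d + 1) = m + 3 by omega] at h4
  have h5 : (m : ℤ) = b + 2 * d := by exact_mod_cast hb
  push_cast at h3 h4
  rw [h4]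
  rw [h5] at h3
  linarith

lemma two_dist_le (hS : BSet G S) (hv : v ∈ S) (hk : (nb G S v).card = k + 2)
    (hm : S.card = m + k) {x : V} (hx : x ∈ S) : 2 * dS G S x v ≤ m := by
  have := far_dist hS hv hk hm hx
  omega

lemma dist_pair_le (hS : BSet G S) (hv : v ∈ S) (hk : (nb G S v).card = k + 2)
    (hm : S.card = m + k) {p q : V} (hp : p ∈ S) (hq : q ∈ S) (hpq : p ≠ q) :
    dS G S p v + dS G S q v + 1 ≤ m := by
  have h1 := two_dist_le hS hv hk hm hp
  have h2 := two_dist_le hS hv hk hm hq
  have h3 := three_le_m hv hk hm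
  by_cases h : dS G S p v = dS G S q v
  · by_cases hd : dS G S p v ≤ 1
    · omega
    obtain ⟨c, hc⟩ : ∃ c, dS G S p v = c + 2 := ⟨dS G S p v - 2, by omega⟩
    have h4 := far_nb (G := G) hv v
    rw [dS_self, zero_add] at h4
    have h5 := far_add_le (G := G) (x := v) (A := {p, q}) (S := S) (i := 1 + c) (j := c + 2)
      (by omega)
      (by intro w hw; rcases mem_insert.1 hw with rfl | hw
          · exact hp
          · rw [mem_singleton.1 hw]; exact hq)
      (by intro w hw; rcases mem_insert.1 hw with rfl | hw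
          · rw [dS_comm]; omega
          · rw [mem_singleton.1 hw, dS_comm]; omega)
    rw [card_pair hpq] at h5
    have h6 := far_chain hS hv 1 c (by omega)
    omega
  · omega

end bounds

end Pool.Agent.P.MP_2668aa_co
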