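import Pool.Agent.P.MP_2668aa_co.Basic

/-! Existence of a removable ear. -/

set_option linter.unusedSectionVars false

namespace Pool.Agent.P.MP_2668aa_co

open Finset

variable {V : Type*} [DecidableEq V] (G : SimpleGraph V) [DecidableRel G.Adj]

/-- An ear of `S'` inside `S`. -/
structure IsEar (S S' : Finset V) (t : ℕ) (z : ℕ → V) : Prop where
  one_le : 1 ≤ t
  h0 : z 0 ∈ S'
  h1 : z (t + 1) ∈ S'
  ne : z 0 ≠ z (t + 1)
  mem : ∀ i, 1 ≤ i → i ≤ t → z i ∈ S ∧ z i ∉ S'
  adj : ∀ i, i ≤ t → G.Adj (z i) (z (i + 1))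

/-- An ear covering the complement of `S'`, with no further attachments when it is long. -/
structure GoodEar (S S' : Finset V) (t : ℕ) (z : ℕ → V) : Prop extends IsEar G S S' t z where
  sub : S' ⊆ S
  inj : ∀ i j, 1 ≤ i → i ≤ t → 1 ≤ j → j ≤ t → z i = z j → i = j
  cover : ∀ x ∈ S, x ∈ S' ∨ ∃ i, 1 ≤ i ∧ i ≤ t ∧ z i = x
  only : 2 ≤ t → ∀ i, 1 ≤ i → i ≤ t → ∀ r ∈ S', G.Adj (z i) r →
    (i = 1 ∧ r = z 0) ∨ (i = t ∧ r = z (t + 1))

variable {G}

lemma GoodEar.rev {S S' : Finset V} {t : ℕ} {z : ℕ → V} (h : GoodEar G S S' t z) :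
    GoodEar G S S' t (fun i => z (t + 1 - i)) where
  one_le := h.one_le
  h0 := by simpa using h.h1
  h1 := by simpa using h.h0
  ne := by simpa using h.ne.symm
  mem := fun i h1 h2 => h.mem _ (by omega) (by omega)
  adj := fun i hi => by
    have := (h.adj (t - i) (by omega)).symm
    rwa [show t - i + 1 = t + 1 - i by omega, show t - i = t + 1 - (i + 1) by omega] at this
  sub := h.sub
  inj := fun i j h1 h2 h3 h4 h5 => by
    have := h.inj _ _ (by omega) (by omega) (by omega) (by omega) h5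
    omega
  cover := fun x hx => by
    rcases h.cover x hx with h1 | ⟨i, h1, h2, h3⟩
    · exact Or.inl h1
    · exact Or.inr ⟨t + 1 - i, by omega, by omega,
        by simpa [show t + 1 - (t + 1 - i) = i by omega] using h3⟩
  only := fun ht i h1 h2 r hr hadj => by
    rcases h.only ht (t + 1 - i) (by omega) (by omega) r hr hadj with ⟨h3, h4⟩ | ⟨h3, h4⟩
    · exact Or.inr ⟨by omega, by simpa using h4⟩
    · exact Or.inl ⟨by omega, by simpa using h4⟩

lemma exists_cross {S S' : Finset V} {a b : V} (p : (res G S).Walk a b) (ha : a ∈ S')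
    (hb : b ∉ S') : ∃ x ∈ S', ∃ y ∈ S, y ∉ S' ∧ G.Adj x y := by
  induction p with
  | nil => exact absurd ha hb
  | @cons a c b hac p ih =>
    by_cases hc : c ∈ S'
    · exact ih hc hb
    · exact ⟨a, ha, c, hac.2.2, hc, hac.1⟩

lemma exists_ear {S S' : Finset V} (hS : BSet G S) (hsub : S' ⊆ S) (hne : S' ≠ S)
    (h2 : 2 ≤ S'.card) : ∃ t z, IsEar G S S' t z := by
  obtain ⟨y0, hy0, hy0'⟩ := exists_of_ssubset (Finset.ssubset_iff_subset_ne.2 ⟨hsub, hne⟩)
  obtain ⟨a, ha⟩ : S'.Nonempty := card_pos.1 (by omega)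
  obtain ⟨w0⟩ := hS.2.1 a (hsub ha) y0 hy0
  obtain ⟨p, hp, y, hy, hy', hpy⟩ := exists_cross w0 ha hy0'
  obtain ⟨q0, hq0, hq0p⟩ := exists_mem_ne (by omega : 1 < S'.card) p
  obtain ⟨w⟩ := hS.2.2 p y (mem_erase.2 ⟨hpy.ne.symm, hy⟩) q0 (mem_erase.2 ⟨hq0p, hsub hq0⟩)
  have hex : ∃ j, w.getVert j ∈ S' := ⟨w.length, by simpa using hq0⟩
  have hj := Nat.find_spec hex
  have hjl : Nat.find hex ≤ w.length := Nat.find_min' hex (by simpa using hq0)
  have hj0 : Nat.find hex ≠ 0 := by
    intro h
    rw [h] at hj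
    exact hy' (by simpa using hj)
  set j := Nat.find hex with hjdef
  have hadj : ∀ i, i < j → (res G (S.erase p)).Adj (w.getVert i) (w.getVert (i + 1)) :=
    fun i hi => w.adj_getVert_succ (by omega)
  refine ⟨j, fun l => if l = 0 then p else w.getVert (l - 1), by omega, by simpa using hp,
    by simpa using hj, ?_, ?_, ?_⟩
  · have := (hadj (j - 1) (by omega)).2.2
    rw [show j - 1 + 1 = j by omega] at this
    simpa using (mem_erase.1 this).1.symm
  · intro i h1 h2
    simp only [if_neg (by omega : i ≠ 0)]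
    exact ⟨(mem_erase.1 (hadj (i - 1) (by omega)).2.1).2, Nat.find_min hex (by omega)⟩
  · intro i hi
    by_cases h0 : i = 0
    · subst h0
      simpa using hpy
    · simp only [if_neg h0, if_neg (by omega : i + 1 ≠ 0)]
      have := (hadj (i - 1) (by omega)).1
      rwa [show i - 1 + 1 = i + 1 - 1 by omega] at this

lemma conn_of_reach {A A0 : Finset V} (h : A0 ⊆ A) (h0 : Conn G A0)
    (hr : ∀ y ∈ A, ∃ a ∈ A0, (res G A).Reachable y a) : Conn G A := by
  intro x hx y hy
  obtain ⟨a, ha, h1⟩ := hr x hx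
  obtain ⟨b, hb, h2⟩ := hr y hy
  exact h1.trans ((reach_mono h (h0 a ha b hb)).trans h2.symm)

lemma reach_path {A : Finset V} {z : ℕ → V} {i j : ℕ} (hij : i ≤ j)
    (hadj : ∀ l, i ≤ l → l < j → G.Adj (z l) (z (l + 1)))
    (hmem : ∀ l, i ≤ l → l ≤ j → z l ∈ A) : (res G A).Reachable (z i) (z j) := by
  induction j, hij using Nat.le_induction with
  | base => exact SimpleGraph.Reachable.refl _
  | succ j hij ih =>
    exact (ih (fun l h1 h2 => hadj l h1 (by omega)) (fun l h1 h2 => hmem l h1 (by omega))).trans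
      (reach_adj (hadj j hij (by omega)) (hmem j hij (by omega)) (hmem (j + 1) (by omega) le_rfl))

lemma bset_union {S S' : Finset V} {t : ℕ} {z : ℕ → V} (hS' : BSet G S') (h : IsEar G S S' t z)
    (inj : ∀ i j, 1 ≤ i → i ≤ t → 1 ≤ j → j ≤ t → z i = z j → i = j) :
    BSet G (S' ∪ (Icc 1 t).image z) := by
  have hmem : ∀ l, l ≤ t + 1 → z l ∈ S' ∪ (Icc 1 t).image z := by
    intro l hl
    by_cases h0 : l = 0
    · subst h0; exact mem_union_left _ h.h0
    by_cases h1 : l = t + 1
    · subst h1; exact mem_union_left _ h.h1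
    exact mem_union_right _ (mem_image_of_mem _ (mem_Icc.2 ⟨by omega, by omega⟩))
  refine ⟨le_trans hS'.1 (card_le_card subset_union_left), ?_, ?_⟩
  · apply conn_of_reach subset_union_left hS'.2.1
    intro y hy
    rcases mem_union.1 hy with hy | hy
    · exact ⟨y, hy, SimpleGraph.Reachable.refl _⟩
    · obtain ⟨i, hi, rfl⟩ := mem_image.1 hy
      rw [mem_Icc] at hi
      exact ⟨z 0, h.h0, (reach_path (Nat.zero_le i) (fun l _ _ => h.adj l (by omega))
        (fun l _ _ => hmem l (by omega))).symm⟩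
  · intro x
    apply conn_of_reach (erase_subset_erase x subset_union_left) (hS'.2.2 x)
    intro y hy
    obtain ⟨hyx, hy⟩ := mem_erase.1 hy
    rcases mem_union.1 hy with hy | hy
    · exact ⟨y, mem_erase.2 ⟨hyx, hy⟩, SimpleGraph.Reachable.refl _⟩
    · obtain ⟨i, hi, rfl⟩ := mem_image.1 hy
      rw [mem_Icc] at hi
      by_cases hx : ∃ l, l ≤ i ∧ z l = x
      · obtain ⟨l, hl, hlx⟩ := hx
        have key : ∀ l', i ≤ l' → l' ≤ t + 1 → z l' ≠ x := by
          intro l' h1 h2 h3
          rw [← hlx] at h3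
          by_cases h0 : l = 0
          · subst h0
            by_cases h4 : l' = t + 1
            · subst h4; exact h.ne h3.symm
            · exact (h.mem l' (by omega) (by omega)).2 (h3 ▸ h.h0)
          · by_cases h4 : l' = t + 1
            · subst h4; exact (h.mem l (by omega) (by omega)).2 (h3 ▸ h.h1)
            · have := inj l' l (by omega) (by omega) (by omega) (by omega) h3
              obtain rfl : l = i := by omega
              exact hyx hlx
        exact ⟨z (t + 1), mem_erase.2 ⟨key _ (by omega) le_rfl, h.h1⟩,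
          reach_path (by omega) (fun l _ _ => h.adj l (by omega))
            (fun l h1 h2 => mem_erase.2 ⟨key l h1 h2, hmem l h2⟩)⟩
      · have key : ∀ l, l ≤ i → z l ≠ x := fun l hl h3 => hx ⟨l, hl, h3⟩
        exact ⟨z 0, mem_erase.2 ⟨key 0 (by omega), h.h0⟩,
          (reach_path (Nat.zero_le i) (fun l _ _ => h.adj l (by omega))
            (fun l _ h2 => mem_erase.2 ⟨key l h2, hmem l (by omega)⟩)).symm⟩

lemma IsEar.skip {S S' : Finset V} {t : ℕ} {z : ℕ → V} (h : IsEar G S S' t z) {i j : ℕ}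
    (h1 : 1 ≤ i) (hij : i < j) (hj : j ≤ t) (hz : z i = z j) :
    IsEar G S S' (t - (j - i)) (fun l => if l ≤ i then z l else z (l + (j - i))) where
  one_le := by omega
  h0 := by simpa using h.h0
  h1 := by
    simp only [if_neg (by omega : ¬ t - (j - i) + 1 ≤ i)]
    rw [show t - (j - i) + 1 + (j - i) = t + 1 by omega]; exact h.h1
  ne := by
    simp only [if_neg (by omega : ¬ t - (j - i) + 1 ≤ i), if_pos (Nat.zero_le i)]
    rw [show t - (j - i) + 1 + (j - i) = t + 1 by omega]; exact h.ne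
  mem := fun l h2 h3 => by
    split_ifs
    · exact h.mem _ (by omega) (by omega)
    · exact h.mem _ (by omega) (by omega)
  adj := fun l hl => by
    split_ifs with h2 h3 h3
    · exact h.adj l (by omega)
    · obtain rfl : l = i := by omega
      rw [hz, show l + 1 + (j - l) = j + 1 by omega]; exact h.adj j hj
    · omega
    · rw [show l + 1 + (j - i) = l + (j - i) + 1 by omega]; exact h.adj _ (by omega)

lemma IsEar.cut_right {S S' : Finset V} {t : ℕ} {z : ℕ → V} (h : IsEar G S S' t z) {i : ℕ}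
    (h1 : 1 ≤ i) (hi : i ≤ t) {r : V} (hr : r ∈ S') (hadj : G.Adj (z i) r) (hne : r ≠ z 0) :
    IsEar G S S' i (fun l => if l ≤ i then z l else r) where
  one_le := h1
  h0 := by simpa using h.h0
  h1 := by simpa using hr
  ne := by simpa using hne.symm
  mem := fun l h2 h3 => by
    rw [if_pos h3]; exact h.mem _ (by omega) (by omega)
  adj := fun l hl => by
    rw [if_pos hl]
    split_ifs with h3
    · exact h.adj l (by omega)
    · obtain rfl : l = i := by omega
      exact hadj

lemma IsEar.cut_left {S S' : Finset V} {t : ℕ} {z : ℕ → V} (h : IsEar G S S' t z) {i : ℕ}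
    (h1 : 1 ≤ i) (hi : i ≤ t) {r : V} (hr : r ∈ S') (hadj : G.Adj (z i) r)
    (hne : r ≠ z (t + 1)) :
    IsEar G S S' (t + 1 - i) (fun l => if l = 0 then r else z (l + i - 1)) where
  one_le := by omega
  h0 := by simpa using hr
  h1 := by
    simp only [if_neg (by omega : ¬ t + 1 - i + 1 = 0)]
    rw [show t + 1 - i + 1 + i - 1 = t + 1 by omega]; exact h.h1
  ne := by
    simp only [if_neg (by omega : ¬ t + 1 - i + 1 = 0), if_pos]
    rw [show t + 1 - i + 1 + i - 1 = t + 1 by omega]; exact hne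
  mem := fun l h2 h3 => by
    rw [if_neg (by omega)]; exact h.mem _ (by omega) (by omega)
  adj := fun l hl => by
    rw [if_neg (by omega : ¬ l + 1 = 0)]
    split_ifs with h3
    · subst h3
      rw [show 0 + 1 + i - 1 = i by omega]; exact hadj.symm
    · rw [show l + 1 + i - 1 = l + i - 1 + 1 by omega]; exact h.adj _ (by omega)

theorem exists_goodEar {S S0 : Finset V} (hS : BSet G S) (h0 : BSet G S0) (hsub : S0 ⊆ S)
    (hne : S0 ≠ S) : ∃ S' t z, S0 ⊆ S' ∧ BSet G S' ∧ GoodEar G S S' t z := by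
  classical
  obtain ⟨S', hS', hmax⟩ := exists_max_image
    (S.powerset.filter (fun T => S0 ⊆ T ∧ T ≠ S ∧ BSet G T)) card
    ⟨S0, mem_filter.2 ⟨mem_powerset.2 hsub, subset_refl _, hne, h0⟩⟩
  obtain ⟨hS'S, h1, h2, h3⟩ := mem_filter.1 hS'
  rw [mem_powerset] at hS'S
  have hex := exists_ear hS hS'S h2 h3.1
  obtain ⟨z, hz⟩ := Nat.find_spec hex
  have hmin : ∀ t' z', IsEar G S S' t' z' → Nat.find hex ≤ t' :=
    fun t' z' h => Nat.find_min' hex ⟨z', h⟩
  set t := Nat.find hex with ht
  have inj : ∀ i j, 1 ≤ i → i ≤ t → 1 ≤ j → j ≤ t → z i = z j → i = j := by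
    intro i j a1 a2 a3 a4 a5
    rcases lt_trichotomy i j with h | h | h
    · have := hmin _ _ (hz.skip a1 h a4 a5); omega
    · exact h
    · have := hmin _ _ (hz.skip a3 h a2 a5.symm); omega
  have hB := bset_union h3 hz inj
  have hU : S' ∪ (Icc 1 t).image z ⊆ S := by
    apply union_subset hS'S
    intro x hx
    obtain ⟨i, hi, rfl⟩ := mem_image.1 hx
    rw [mem_Icc] at hi
    exact (hz.mem i hi.1 hi.2).1
  have hEq : S' ∪ (Icc 1 t).image z = S := by
    by_contra hcon
    have h4 := hmax _ (mem_filter.2 ⟨mem_powerset.2 hU, h1.trans subset_union_left, hcon, hB⟩)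
    have h5 : S' ∪ (Icc 1 t).image z = S' :=
      (eq_of_subset_of_card_le subset_union_left h4).symm
    have h6 : z 1 ∈ S' ∪ (Icc 1 t).image z :=
      mem_union_right _ (mem_image_of_mem _ (mem_Icc.2 ⟨le_rfl, hz.one_le⟩))
    rw [h5] at h6
    exact (hz.mem 1 le_rfl hz.one_le).2 h6
  refine ⟨S', t, z, h1, h3, hz, hS'S, inj, ?_, ?_⟩
  · intro x hx
    rw [← hEq] at hx
    rcases mem_union.1 hx with hx | hx
    · exact Or.inl hx
    · obtain ⟨i, hi, rfl⟩ := mem_image.1 hx
      rw [mem_Icc] at hi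
      exact Or.inr ⟨i, hi.1, hi.2, rfl⟩
  · intro h2t i a1 a2 r hr hadj
    have b1 : r ≠ z 0 → t ≤ i := fun hne => hmin _ _ (hz.cut_right a1 a2 hr hadj hne)
    have b2 : r ≠ z (t + 1) → t ≤ t + 1 - i :=
      fun hne => hmin _ _ (hz.cut_left a1 a2 hr hadj hne)
    by_cases c1 : r = z 0
    · have := b2 (by rw [c1]; exact hz.ne)
      exact Or.inl ⟨by omega, c1⟩
    · have c2 := b1 c1
      by_cases c3 : r = z (t + 1)
      · exact Or.inr ⟨by omega, c3⟩
      · have := b2 c3
        omega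

lemma GoodEar.sum_eq {S S' : Finset V} {t : ℕ} {z : ℕ → V} (h : GoodEar G S S' t z)
    (f : V → ℤ) : ∑ x ∈ S, f x = ∑ x ∈ S', f x + ∑ i ∈ range t, f (z (i + 1)) := by
  have hEq : S = S' ∪ (range t).image (fun i => z (i + 1)) := by
    ext x
    constructor
    · intro hx
      rcases h.cover x hx with h1 | ⟨i, h1, h2, h3⟩
      · exact mem_union_left _ h1
      · exact mem_union_right _ (mem_image.2 ⟨i - 1, mem_range.2 (by omega),
          by rw [show i - 1 + 1 = i by omega]; exact h3⟩)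
    · intro hx
      rcases mem_union.1 hx with h1 | h1
      · exact h.sub h1
      · obtain ⟨i, hi, rfl⟩ := mem_image.1 h1
        rw [mem_range] at hi
        exact (h.mem _ (by omega) (by omega)).1
  have hdisj : Disjoint S' ((range t).image (fun i => z (i + 1))) := by
    rw [disjoint_right]
    intro x hx
    obtain ⟨i, hi, rfl⟩ := mem_image.1 hx
    rw [mem_range] at hi
    exact (h.mem _ (by omega) (by omega)).2
  conv_lhs => rw [hEq]
  rw [sum_union hdisj, sum_image]
  intro i hi j hj hij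
  have hi' : i < t := by simpa using hi
  have hj' : j < t := by simpa using hj
  have := h.inj (i + 1) (j + 1) (by omega) (by omega) (by omega) (by omega) hij
  omega

lemma GoodEar.card_eq {S S' : Finset V} {t : ℕ} {z : ℕ → V} (h : GoodEar G S S' t z) :
    S.card = S'.card + t := by
  have := h.sum_eq (fun _ => 1)
  simp only [sum_const, card_range, nsmul_eq_mul, mul_one] at this
  exact_mod_cast this

lemma GoodEar.nb_card {S S' : Finset V} {t : ℕ} {z : ℕ → V} (h : GoodEar G S S' t z) (v : V) :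
    ((nb G S v).card : ℤ) =
      (nb G S' v).card + ∑ i ∈ range t, (if G.Adj v (z (i + 1)) then 1 else 0) := by
  have := h.sum_eq (fun y => if G.Adj v y then 1 else 0)
  unfold nb
  rw [card_filter, card_filter]
  push_cast
  exact this

end Pool.Agent.P.MP_2668aa_co
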