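import Pool.Agent.P.MP_2668aa_co.Num

/-! Sums of cyclic distances. -/

namespace Pool.Agent.P.MP_2668aa_co

open Finset

/-- Cyclic distance of two positions on a cycle of length `L`. -/
def cyd (L i j : ℕ) : ℤ := min |(i : ℤ) - j| (L - |(i : ℤ) - j|)

lemma D_trunc (u L : ℕ) :
    D (2 * (u + 1) + 1 - L) = D (2 * u + 1 - L) + ((2 * u + 2 - L : ℕ) : ℤ) := by
  by_cases h : L ≤ 2 * u + 1
  · rw [show 2 * (u + 1) + 1 - L = (2 * u + 1 - L) + 2 by omega, D_add_two]
    omega
  · by_cases h2 : L = 2 * u + 2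
    · rw [show 2 * (u + 1) + 1 - L = 1 by omega, show 2 * u + 1 - L = 0 by omega,
        show 2 * u + 2 - L = 0 by omega]
      simp [D]
    · rw [show 2 * (u + 1) + 1 - L = 0 by omega, show 2 * u + 1 - L = 0 by omega,
        show 2 * u + 2 - L = 0 by omega]
      simp [D]

lemma cc_trunc (u L : ℕ) : cc (2 * (u + 1) - L) = cc (2 * u - L) + D (2 * u + 1 - L) := by
  by_cases h : L ≤ 2 * u
  · rw [show 2 * (u + 1) - L = (2 * u - L) + 2 by omega, cc_add_two,
      show 2 * u - L + 1 = 2 * u + 1 - L by omega]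
  · by_cases h2 : L = 2 * u + 1
    · rw [show 2 * (u + 1) - L = 1 by omega, show 2 * u + 1 - L = 0 by omega,
        show 2 * u - L = 0 by omega]
      simp [D, cc]
    · rw [show 2 * (u + 1) - L = 0 by omega, show 2 * u + 1 - L = 0 by omega,
        show 2 * u - L = 0 by omega]
      simp [D, cc]

lemma R_eq (L u : ℕ) :
    2 * ∑ j ∈ range u, min ((j : ℤ) + 1) (L - (j + 1)) + 2 * D (2 * u + 1 - L) = u * (u + 1) := by
  induction u with
  | zero =>
    have : D (2 * 0 + 1 - L) = 0 := by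
      rcases (by omega : 2 * 0 + 1 - L = 0 ∨ 2 * 0 + 1 - L = 1) with h | h <;> rw [h] <;> rfl
    simp only [range_zero, sum_empty, this]
    simp
  | succ u ih =>
    rw [sum_range_succ, D_trunc]
    have : min ((u : ℤ) + 1) (L - (u + 1)) + ((2 * u + 2 - L : ℕ) : ℤ) = u + 1 := by omega
    push_cast at ih ⊢
    linarith

lemma col_eq (L u : ℕ) :
    ∑ i ∈ range u, cyd L i u = ∑ j ∈ range u, min ((j : ℤ) + 1) (L - (j + 1)) := by
  rw [← sum_range_reflect]
  apply sum_congr rfl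
  intro j hj
  rw [mem_range] at hj
  unfold cyd
  have : |((u - 1 - j : ℕ) : ℤ) - u| = j + 1 := by
    rw [abs_of_nonpos (by omega)]; omega
  rw [this]

lemma cyd_comm (L i j : ℕ) : cyd L i j = cyd L j i := by
  unfold cyd; rw [abs_sub_comm]

lemma sum_sq_succ (f : ℕ → ℕ → ℤ) (hf : ∀ i j, f i j = f j i) (u : ℕ) :
    ∑ i ∈ range (u + 1), ∑ j ∈ range (u + 1), f i j =
      ∑ i ∈ range u, ∑ j ∈ range u, f i j + 2 * ∑ i ∈ range u, f i u + f u u := by
  rw [sum_range_succ, sum_range_succ]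
  simp only [sum_range_succ]
  rw [sum_add_distrib, sum_congr rfl (fun j _ => hf u j)]
  ring

lemma WZ_eq (L u : ℕ) :
    3 * ∑ i ∈ range u, ∑ j ∈ range u, cyd L i j + 6 * cc (2 * u - L) = (u : ℤ) ^ 3 - u := by
  induction u with
  | zero => simp [cc]
  | succ u ih =>
    rw [sum_sq_succ _ (cyd_comm L), col_eq, cc_trunc]
    have h1 := R_eq L u
    have h2 : cyd L u u = 0 := by simp [cyd]
    rw [h2]
    push_cast
    linarith

lemma sum_lin (c α : ℤ) (a : ℕ) :
    2 * ∑ i ∈ range a, (((i : ℤ) + 1) * c + α) = c * (a * (a + 1)) + 2 * a * α := by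
  induction a with
  | zero => simp
  | succ a ih => rw [sum_range_succ]; push_cast; linarith

lemma sum_split (g : ℕ → ℤ) (a b : ℕ) (c α β : ℤ)
    (h1 : ∀ i, i < a → g i ≤ ((i : ℤ) + 1) * c + α)
    (h2 : ∀ i, a ≤ i → i < a + b → g i ≤ ((a : ℤ) + b - i) * c + β) :
    2 * ∑ i ∈ range (a + b), g i ≤
      c * (a * (a + 1) + b * (b + 1)) + 2 * a * α + 2 * b * β := by
  rw [sum_range_add]
  have e1 : ∑ i ∈ range a, g i ≤ ∑ i ∈ range a, (((i : ℤ) + 1) * c + α) :=
    sum_le_sum (fun i hi => h1 i (mem_range.1 hi))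
  have e2 : ∑ i ∈ range b, g (a + i) ≤ ∑ i ∈ range b, (((i : ℤ) + 1) * c + β) := by
    rw [← sum_range_reflect]
    apply sum_le_sum
    intro i hi
    rw [mem_range] at hi
    have := h2 (a + (b - 1 - i)) (by omega) (by omega)
    rwa [show (a : ℤ) + b - ((a + (b - 1 - i) : ℕ) : ℤ) = i + 1 by omega] at this
  have e3 := sum_lin c α a
  have e4 := sum_lin c β b
  linarith

end Pool.Agent.P.MP_2668aa_co
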