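import Pool.Agent.P.MP_2668aa_co.Ear
import Pool.Agent.P.MP_2668aa_co.Sums

/-! The extremal graphs: a path together with an apex joined to some of its vertices. -/

set_option linter.unusedSectionVars false

namespace Pool.Agent.P.MP_2668aa_co

open Finset

/-- Path on positions `0, …, N - 1`, with an apex `N` joined to the positions in `A`. -/
def fan (N : ℕ) (A : ℕ → Prop) : SimpleGraph (Fin (N + 1)) where
  Adj x y := (x.val < N ∧ y.val < N ∧ (x.val + 1 = y.val ∨ y.val + 1 = x.val)) ∨
    (x.val = N ∧ y.val < N ∧ A y.val) ∨ (y.val = N ∧ x.val < N ∧ A x.val)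
  symm := ⟨fun _ _ h => by tauto⟩
  loopless := ⟨fun _ h => by omega⟩

instance fanDec (N : ℕ) (A : ℕ → Prop) [DecidablePred A] : DecidableRel (fan N A).Adj :=
  fun _ _ => by unfold fan; infer_instance

/-- The vertex at position `i`. -/
def pos (N i : ℕ) : Fin (N + 1) := ⟨min i N, by omega⟩

lemma pos_val (N i : ℕ) : (pos N i).val = min i N := rfl

lemma pos_self {N : ℕ} (x : Fin (N + 1)) : pos N x.val = x := by
  ext; rw [pos_val]; omega

section fan

variable {N : ℕ} {A : ℕ → Prop} [DecidablePred A]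

lemma fan_adj (x y : Fin (N + 1)) : (fan N A).Adj x y ↔
    (x.val < N ∧ y.val < N ∧ (x.val + 1 = y.val ∨ y.val + 1 = x.val)) ∨
    (x.val = N ∧ y.val < N ∧ A y.val) ∨ (y.val = N ∧ x.val < N ∧ A x.val) := Iff.rfl

lemma fan_adj_succ {l : ℕ} (hl : l + 1 < N) : (fan N A).Adj (pos N l) (pos N (l + 1)) := by
  rw [fan_adj]; left; simp only [pos_val]; omega

lemma fan_adj_apex {l : ℕ} (hl : l < N) (hA : A l) : (fan N A).Adj (pos N l) (pos N N) := by
  rw [fan_adj]; right; right
  simp only [pos_val]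
  rw [show min l N = l by omega]
  exact ⟨by omega, hl, hA⟩

lemma conn_single {V : Type*} [DecidableEq V] {G : SimpleGraph V} [DecidableRel G.Adj] (a : V) :
    Conn G {a} := by
  intro x hx y hy
  rw [mem_singleton.1 hx, mem_singleton.1 hy]

lemma fan_conn (hN : 2 ≤ N) (h0 : A 0) (h1 : A (N - 1)) (T : Finset (Fin (N + 1)))
    (hT : pos N N ∈ T) (h : ∀ i, i < N → pos N i ∈ T →
      (∀ l, l ≤ i → pos N l ∈ T) ∨ (∀ l, i ≤ l → l < N → pos N l ∈ T)) :
    Conn (fan N A) T := by
  apply conn_of_reach (singleton_subset_iff.2 hT) (conn_single _)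
  intro y hy
  refine ⟨_, mem_singleton_self _, ?_⟩
  rw [← pos_self y] at hy ⊢
  by_cases hyN : y.val = N
  · rw [hyN]
  have hy' : y.val < N := by omega
  rcases h _ hy' hy with h2 | h2
  · exact (reach_path (z := pos N) (Nat.zero_le y.val) (fun l _ _ => fan_adj_succ (by omega))
      (fun l _ hl => h2 l hl)).symm.trans
      (reach_adj (fan_adj_apex (by omega) h0) (h2 0 (by omega)) hT)
  · exact (reach_path (z := pos N) (by omega : y.val ≤ N - 1)
      (fun l _ _ => fan_adj_succ (by omega)) (fun l hl _ => h2 l hl (by omega))).trans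
      (reach_adj (fan_adj_apex (by omega) h1) (h2 _ (by omega) (by omega)) hT)

lemma fan_bset (hN : 2 ≤ N) (h0 : A 0) (h1 : A (N - 1)) : BSet (fan N A) univ := by
  refine ⟨by simp; omega, fan_conn hN h0 h1 _ (mem_univ _) (fun _ _ _ => Or.inl
    (fun _ _ => mem_univ _)), fun x => ?_⟩
  have hne : ∀ l, l ≤ N → l ≠ x.val → pos N l ∈ univ.erase x := by
    intro l hl hlx
    refine mem_erase.2 ⟨fun he => hlx ?_, mem_univ _⟩
    rw [← he, pos_val]; omega
  by_cases hx : x.val = N
  · apply conn_of_reach (singleton_subset_iff.2 (hne 0 (by omega) (by omega))) (conn_single _)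
    intro y hy
    refine ⟨_, mem_singleton_self _, ?_⟩
    have hy' : y.val ≠ x.val := fun he => (mem_erase.1 hy).1 (Fin.ext he)
    rw [← pos_self y]
    exact (reach_path (z := pos N) (Nat.zero_le y.val) (fun l _ _ => fan_adj_succ (by omega))
      (fun l _ hl => hne l (by omega) (by omega))).symm
  · apply fan_conn hN h0 h1 _ (hne N le_rfl (by omega))
    intro i hi hiT
    have hix : i ≠ x.val := by
      intro he
      rw [he, pos_self] at hiT
      exact (mem_erase.1 hiT).1 rfl
    rcases lt_or_gt_of_ne hix with h | h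
    · exact Or.inl (fun l hl => hne l (by omega) (by omega))
    · exact Or.inr (fun l hl hl' => hne l (by omega) (by omega))

lemma fan_degree_apex : (fan N A).degree (pos N N) = ((range N).filter A).card := by
  rw [← SimpleGraph.card_neighborFinset_eq_degree]
  symm
  apply card_bij (fun i _ => pos N i)
  · intro i hi
    obtain ⟨h1, h2⟩ := mem_filter.1 hi
    rw [SimpleGraph.mem_neighborFinset]
    exact (fan_adj_apex (mem_range.1 h1) h2).symm
  · intro i hi j hj hij
    have h1 := mem_range.1 (mem_filter.1 hi).1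
    have h2 := mem_range.1 (mem_filter.1 hj).1
    have := congrArg Fin.val hij
    simp only [pos_val] at this
    omega
  · intro y hy
    rw [SimpleGraph.mem_neighborFinset, fan_adj] at hy
    simp only [pos_val] at hy
    refine ⟨y.val, mem_filter.2 ⟨mem_range.2 (by omega), ?_⟩, pos_self y⟩
    rcases hy with h | h | h
    · omega
    · exact h.2.2
    · omega

lemma fan_degree_le_three (x : Fin (N + 1)) (hx : x.val ≠ N) : (fan N A).degree x ≤ 3 := by
  rw [← SimpleGraph.card_neighborFinset_eq_degree]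
  refine le_trans (card_le_card ?_)
    (card_le_three (a := pos N (x.val - 1)) (b := pos N (x.val + 1)) (c := pos N N))
  intro y hy
  rw [SimpleGraph.mem_neighborFinset, fan_adj] at hy
  simp only [mem_insert, mem_singleton, Fin.ext_iff, pos_val]
  omega

lemma fan_degree_le_two (hA : ∀ i, i < N → A i → i = 0 ∨ i + 1 = N) (x : Fin (N + 1))
    (hx : x.val ≠ N) : (fan N A).degree x ≤ 2 := by
  rw [← SimpleGraph.card_neighborFinset_eq_degree]
  refine le_trans (card_le_card ?_)
    (card_le_two (a := if x.val = 0 then pos N N else pos N (x.val - 1))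
      (b := pos N (x.val + 1)))
  intro y hy
  rw [SimpleGraph.mem_neighborFinset, fan_adj] at hy
  have := hA x.val (by omega)
  simp only [mem_insert, mem_singleton, Fin.ext_iff, pos_val]
  split_ifs with h
  · simp only [pos_val]; omega
  · simp only [pos_val]
    rcases hy with h | h | h
    · omega
    · omega
    · have := this h.2.2
      omega

lemma fan_maxDegree {Δ : ℕ} (h : ((range N).filter A).card = Δ)
    (h2 : 3 ≤ Δ ∨ (Δ = 2 ∧ ∀ i, i < N → A i → i = 0 ∨ i + 1 = N)) :
    (fan N A).maxDegree = Δ := by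
  apply le_antisymm
  · apply SimpleGraph.maxDegree_le_of_forall_degree_le
    intro x
    by_cases hx : x.val = N
    · rw [← pos_self x, hx, fan_degree_apex, h]
    · rcases h2 with h2 | ⟨h2, h3⟩
      · exact (fan_degree_le_three x hx).trans h2
      · exact (fan_degree_le_two h3 x hx).trans h2.ge
  · rw [← h, ← fan_degree_apex]
    exact SimpleGraph.degree_le_maxDegree _ _

end fan

/-- Candidate distance between two path positions. -/
def ed (h : ℕ → ℤ) (i j : ℕ) : ℤ := min |(i : ℤ) - j| (h i + h j)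

/-- Candidate distance in the fan. -/
def fd (N : ℕ) (h : ℕ → ℤ) (i j : ℕ) : ℤ :=
  if i = N then (if j = N then 0 else h j) else if j = N then h i else ed h i j

/-- Candidate value for twice the Wiener index. -/
def FF (h : ℕ → ℤ) (N : ℕ) : ℤ :=
  ∑ i ∈ range N, ∑ j ∈ range N, ed h i j + 2 * ∑ i ∈ range N, h i

lemma ed_comm (h : ℕ → ℤ) (i j : ℕ) : ed h i j = ed h j i := by
  unfold ed; rw [abs_sub_comm, add_comm]

lemma FF_succ (h : ℕ → ℤ) (N : ℕ) (h0 : 0 ≤ h N) :
    FF h (N + 1) = FF h N + 2 * ∑ i ∈ range N, ed h i N + 2 * h N := by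
  unfold FF
  rw [sum_sq_succ _ (ed_comm h), sum_range_succ h]
  have : ed h N N = 0 := by unfold ed; simp [h0]
  rw [this]; ring

lemma lip_far {h : ℕ → ℤ} (hl : ∀ i, h (i + 1) ≤ h i + 1 ∧ h i ≤ h (i + 1) + 1) (i j : ℕ) :
    h i ≤ h j + |(i : ℤ) - j| := by
  have key : ∀ a d : ℕ, h (a + d) ≤ h a + d ∧ h a ≤ h (a + d) + d := by
    intro a d
    induction d with
    | zero => simp
    | succ d ih =>
      have := hl (a + d)
      rw [← add_assoc]
      push_cast
      constructor <;> linarith [ih.1, ih.2, this.1, this.2]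
  rcases le_total i j with hij | hij
  · obtain ⟨d, rfl⟩ := Nat.exists_eq_add_of_le hij
    rw [abs_of_nonpos (by omega)]
    have := (key i d).2
    push_cast; linarith
  · obtain ⟨d, rfl⟩ := Nat.exists_eq_add_of_le hij
    rw [abs_of_nonneg (by omega)]
    have := (key j d).1
    push_cast; linarith

section low

variable {N : ℕ} {A : ℕ → Prop} [DecidablePred A] {h : ℕ → ℤ}

lemma fd_step (hl : ∀ i, h (i + 1) ≤ h i + 1 ∧ h i ≤ h (i + 1) + 1) (h0 : ∀ i, 0 ≤ h i)
    (hA : ∀ i, A i → h i ≤ 1) (a : ℕ) {x y : Fin (N + 1)} (hxy : (fan N A).Adj x y) :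
    fd N h a y ≤ fd N h a x + 1 := by
  have l1 := lip_far hl a x
  have l2 := h0 x
  have l3 := hl x
  have l4 := hl y
  rw [fan_adj] at hxy
  unfold fd ed
  rcases hxy with ⟨h1, h2, h3⟩ | ⟨h1, h2, h3⟩ | ⟨h1, h2, h3⟩
  · rw [if_neg (by omega : ¬ x.val = N), if_neg (by omega : ¬ y.val = N),
      if_neg (by omega : ¬ x.val = N), if_neg (by omega : ¬ y.val = N)]
    have l5 : h y ≤ h x + 1 := by
      rcases h3 with h3 | h3
      · rw [← h3]; exact l3.1
      · rw [← h3]; exact l4.2
    have l6 : |(a : ℤ) - y| ≤ |(a : ℤ) - x| + 1 := by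
      rcases abs_cases ((a : ℤ) - y) with h | h <;> rcases abs_cases ((a : ℤ) - x) with h' | h' <;>
        omega
    split_ifs
    · exact l5
    · omega
  · have := hA _ h3
    rw [if_pos h1, if_neg (by omega : ¬ y.val = N), if_pos h1, if_neg (by omega : ¬ y.val = N)]
    split_ifs <;> omega
  · have := hA _ h3
    rw [if_pos h1, if_neg (by omega : ¬ x.val = N), if_pos h1, if_neg (by omega : ¬ x.val = N)]
    split_ifs <;> omega

lemma fd_le_dist (hl : ∀ i, h (i + 1) ≤ h i + 1 ∧ h i ≤ h (i + 1) + 1) (h0 : ∀ i, 0 ≤ h i)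
    (hA : ∀ i, A i → h i ≤ 1) (hc : Conn (fan N A) univ) (x y : Fin (N + 1)) :
    fd N h x y ≤ dS (fan N A) univ x y := by
  obtain ⟨p, hp⟩ := (hc x (mem_univ _) y (mem_univ _)).exists_walk_length_eq_dist
  have key : ∀ (a : ℕ) (u w : Fin (N + 1)) (q : (res (fan N A) univ).Walk u w),
      fd N h a w ≤ fd N h a u + q.length := by
    intro a u w q
    induction q with
    | nil => simp
    | cons huv q ih =>
      have := fd_step hl h0 hA a huv.1
      rw [SimpleGraph.Walk.length_cons]
      push_cast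
      linarith
  have h1 := key x x y p
  have h2 : fd N h x x ≤ 0 := by
    unfold fd ed
    split_ifs <;> simp
  unfold dS
  rw [← hp]
  linarith

lemma FF_le_WS (hl : ∀ i, h (i + 1) ≤ h i + 1 ∧ h i ≤ h (i + 1) + 1) (h0 : ∀ i, 0 ≤ h i)
    (hA : ∀ i, A i → h i ≤ 1) (hc : Conn (fan N A) univ) : FF h N ≤ WS (fan N A) univ := by
  have e1 : FF h N = ∑ i ∈ range (N + 1), ∑ j ∈ range (N + 1), fd N h i j := by
    rw [sum_sq_succ _ (fun i j => by
      unfold fd; rw [ed_comm]; split_ifs <;> rfl)]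
    unfold FF
    have a1 : fd N h N N = 0 := by simp [fd]
    have a2 : ∑ i ∈ range N, fd N h i N = ∑ i ∈ range N, h i :=
      sum_congr rfl (fun i hi => by
        rw [mem_range] at hi
        unfold fd; rw [if_neg (by omega), if_pos rfl])
    have a3 : ∑ i ∈ range N, ∑ j ∈ range N, fd N h i j =
        ∑ i ∈ range N, ∑ j ∈ range N, ed h i j :=
      sum_congr rfl (fun i hi => sum_congr rfl (fun j hj => by
        rw [mem_range] at hi hj
        unfold fd; rw [if_neg (by omega), if_neg (by omega)]))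
    rw [a1, a2, a3]; ring
  rw [e1, ← Fin.sum_univ_eq_sum_range (fun i => ∑ j ∈ range (N + 1), fd N h i j)]
  unfold WS wS
  apply sum_le_sum
  intro x _
  rw [← Fin.sum_univ_eq_sum_range (fun j => fd N h x j)]
  exact sum_le_sum (fun y _ => fd_le_dist hl h0 hA hc x y)

end low

/-- Distance to the apex in the generic family. -/
def h1 (m i : ℕ) : ℤ := min ((i : ℤ) + 1) (max 1 (m - 1 - i))

/-- Distance to the apex in the exceptional family. -/
def h2 (k i : ℕ) : ℤ := if i = 1 ∨ i = k + 2 then 2 else 1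

lemma D_pair (a : ℕ) : 2 * D (a + 1) + 2 * D a = a * (a + 1) := by
  induction a with
  | zero => simp [D]
  | succ a ih => rw [D_add_two]; push_cast; linarith

lemma cc_D (m : ℕ) : 3 * (m * D m) + 6 * cc m = (m : ℤ) ^ 3 - m := by
  obtain ⟨e, rfl | rfl⟩ := Nat.even_or_odd' m
  · rw [(D_two_mul e).1, (cc_two_mul e).1]; push_cast; ring
  · rw [(D_two_mul e).2, (cc_two_mul e).2]; push_cast; ring

lemma sum_h1 (c : ℕ) : ∑ i ∈ range c, h1 (c + 1) i = D (c + 1) := by
  have e1 := R_eq (c + 1) c
  rw [show 2 * c + 1 - (c + 1) = c by omega] at e1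
  have e2 := D_pair c
  have e3 : ∑ i ∈ range c, h1 (c + 1) i =
      ∑ j ∈ range c, min ((j : ℤ) + 1) ((c + 1 : ℕ) - (j + 1)) :=
    sum_congr rfl (fun i hi => by rw [mem_range] at hi; unfold h1; omega)
  linarith

lemma FF_cycle (c : ℕ) : ((c + 1 : ℕ) : ℤ) * D (c + 1) ≤ FF (h1 (c + 1)) c := by
  have e1 := WZ_eq (c + 1) (c + 1)
  rw [show 2 * (c + 1) - (c + 1) = c + 1 by omega, sum_sq_succ _ (cyd_comm _)] at e1
  have e2 := cc_D (c + 1)
  have e3 : cyd (c + 1) c c = 0 := by simp [cyd]; omega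
  have e4 : ∑ i ∈ range c, cyd (c + 1) i c ≤ ∑ i ∈ range c, h1 (c + 1) i :=
    sum_le_sum (fun i hi => by
      rw [mem_range] at hi; unfold h1 cyd; rw [abs_of_nonpos (by omega)]; omega)
  have e5 : ∑ i ∈ range c, ∑ j ∈ range c, cyd (c + 1) i j ≤
      ∑ i ∈ range c, ∑ j ∈ range c, ed (h1 (c + 1)) i j :=
    sum_le_sum (fun i hi => sum_le_sum (fun j hj => by
      rw [mem_range] at hi hj; unfold ed h1 cyd
      rcases abs_cases ((i : ℤ) - j) with h | h <;> omega))
  unfold FF
  linarith

lemma FF_gen (c j : ℕ) (hc : 2 ≤ c) :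
    ((c + 1 : ℕ) : ℤ) * D (c + 1) + 2 * D (c + 2) + 2 * j * (D (c + 1) + (c + 1) + j) ≤
      FF (h1 (c + 1)) (c + 1 + j) := by
  induction j with
  | zero =>
    rw [add_zero, FF_succ _ _ (by unfold h1; omega)]
    have e1 := FF_cycle c
    have e2 : ∑ i ∈ range c, cyd (c + 2) i c ≤ ∑ i ∈ range c, ed (h1 (c + 1)) i c :=
      sum_le_sum (fun i hi => by
        rw [mem_range] at hi; unfold ed h1 cyd; rw [abs_of_nonpos (by omega)]; omega)
    have e3 := R_eq (c + 2) c
    rw [← col_eq] at e3
    obtain ⟨b, rfl⟩ : ∃ b, c = b + 1 := ⟨c - 1, by omega⟩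
    rw [show 2 * (b + 1) + 1 - (b + 1 + 2) = b by omega] at e3
    have e4 : h1 (b + 1 + 1) (b + 1) = 1 := by unfold h1; omega
    have e5 := D_pair b
    have e6 := D_add_two (b + 1)
    push_cast at e1 e3 e6 ⊢
    linarith
  | succ j ih =>
    rw [← add_assoc (c + 1) j 1, FF_succ _ _ (by unfold h1; omega)]
    have e1 : h1 (c + 1) (c + 1 + j) = 1 := by unfold h1; omega
    have e2 : ∑ i ∈ range c, (h1 (c + 1) i + 1) ≤
        ∑ i ∈ range c, ed (h1 (c + 1)) i (c + 1 + j) :=
      sum_le_sum (fun i hi => by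
        rw [mem_range] at hi; unfold ed; rw [e1]; unfold h1; rw [abs_of_nonpos (by omega)]; omega)
    have e3 : ∑ _i ∈ range j, (2 : ℤ) ≤
        ∑ i ∈ range j, ed (h1 (c + 1)) (c + i) (c + 1 + j) :=
      sum_le_sum (fun i hi => by
        rw [mem_range] at hi; unfold ed h1; rw [abs_of_nonpos (by omega)]; omega)
    have e4 : 1 ≤ ed (h1 (c + 1)) (c + j) (c + 1 + j) := by
      unfold ed h1; rw [abs_of_nonpos (by omega)]; omega
    have e5 : ∑ i ∈ range (c + 1 + j), ed (h1 (c + 1)) i (c + 1 + j) =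
        ∑ i ∈ range c, ed (h1 (c + 1)) i (c + 1 + j)
          + ∑ i ∈ range j, ed (h1 (c + 1)) (c + i) (c + 1 + j)
          + ed (h1 (c + 1)) (c + j) (c + 1 + j) := by
      rw [show range (c + 1 + j) = range (c + j + 1) by rw [add_right_comm], sum_range_succ,
        sum_range_add]
    rw [sum_add_distrib, sum_h1] at e2
    simp only [sum_const, card_range, nsmul_eq_mul] at e2 e3
    push_cast at ih ⊢
    linarith

lemma col_h2 (k u : ℕ) (hu : 4 ≤ u) : 2 * (u : ℤ) ≤ ∑ i ∈ range u, ed (h2 k) i u := by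
  have e1 : ∑ i ∈ range u, ((2 : ℤ) + (if i = 1 then 1 else 0) - (if i = u - 1 then 1 else 0))
      ≤ ∑ i ∈ range u, ed (h2 k) i u :=
    sum_le_sum (fun i hi => by
      rw [mem_range] at hi; unfold ed h2; rw [abs_of_nonpos (by omega)]
      split_ifs <;> omega)
  rw [sum_sub_distrib, sum_add_distrib, sum_ite_eq', sum_ite_eq',
    if_pos (mem_range.2 (by omega)), if_pos (mem_range.2 (by omega))] at e1
  simp only [sum_const, card_range, nsmul_eq_mul] at e1
  linarith

lemma col_h2' (k : ℕ) (hk : 3 ≤ k) :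
    3 * ((k : ℤ) + 2) - 2 ≤ ∑ i ∈ range (k + 2), ed (h2 k) i (k + 2) := by
  have e1 : ∑ i ∈ range (k + 2), ((3 : ℤ) + (if i = 1 then 1 else 0)
      - (if i = k + 1 then 2 else 0) - (if i = k then 1 else 0))
      ≤ ∑ i ∈ range (k + 2), ed (h2 k) i (k + 2) :=
    sum_le_sum (fun i hi => by
      rw [mem_range] at hi; unfold ed h2; rw [abs_of_nonpos (by omega)]
      split_ifs <;> omega)
  rw [sum_sub_distrib, sum_sub_distrib, sum_add_distrib, sum_ite_eq', sum_ite_eq', sum_ite_eq',
    if_pos (mem_range.2 (by omega)), if_pos (mem_range.2 (by omega)),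
    if_pos (mem_range.2 (by omega))] at e1
  simp only [sum_const, card_range, nsmul_eq_mul] at e1
  push_cast at e1
  linarith

lemma h2_ge (k i : ℕ) : 1 ≤ h2 k i := by unfold h2; split_ifs <;> omega

lemma FF_h2_pre (k : ℕ) (hk : 3 ≤ k) (u : ℕ) (hu : 4 ≤ u) :
    2 * (u : ℤ) ^ 2 - 4 ≤ FF (h2 k) u := by
  induction u, hu using Nat.le_induction with
  | base =>
    have a0 : h2 k 0 = 1 := by unfold h2; rw [if_neg (by omega)]
    have a1 : h2 k 1 = 2 := by unfold h2; rw [if_pos (by omega)]
    have a2 : h2 k 2 = 1 := by unfold h2; rw [if_neg (by omega)]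
    have a3 : h2 k 3 = 1 := by unfold h2; rw [if_neg (by omega)]
    simp only [FF, ed, sum_range_succ, range_zero, sum_empty, a0, a1, a2, a3]
    norm_num
  | succ u hu ih =>
    have a1 := h2_ge k u
    have a2 := col_h2 k u hu
    rw [FF_succ _ _ (by omega)]
    push_cast
    linarith

lemma FF_h2 (k : ℕ) (hk : k = 1 ∨ 3 ≤ k) : T2 k 5 ≤ FF (h2 k) (k + 4) := by
  rw [T2_pos _ (by omega)]
  have b1 : D 5 = 6 := by simp [D]
  have b2 : hf 5 = 2 := by simp [hf]
  have b3 := eps_le k 5
  rcases hk with rfl | hk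
  · have : FF (h2 1) (1 + 4) = 50 := by
      simp only [FF, ed, h2, sum_range_succ, range_zero, sum_empty]
      norm_num
    rw [this, b1, b2]
    push_cast
    linarith
  · have a1 := FF_h2_pre k hk (k + 2) (by omega)
    have a2 := col_h2' k hk
    have a3 := col_h2 k (k + 3) (by omega)
    have a4 := h2_ge k (k + 3)
    have a5 : h2 k (k + 2) = 2 := by unfold h2; rw [if_pos (by omega)]
    rw [FF_succ _ (k + 3) (by omega), FF_succ _ (k + 2) (by omega), b1, b2]
    push_cast at a1 a3 ⊢
    linarith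

theorem lower (N k m : ℕ) (hm : 3 ≤ m) (hN : N + 1 = m + k) :
    ∃ (G : SimpleGraph (Fin (N + 1))) (_ : DecidableRel G.Adj),
      BSet G univ ∧ G.maxDegree = k + 2 ∧ T2 k m ≤ WS G univ := by
  by_cases hs : m = 5 ∧ (k = 1 ∨ 3 ≤ k)
  · obtain ⟨rfl, hk⟩ := hs
    obtain rfl : N = k + 4 := by omega
    have hB : BSet (fan (k + 4) (fun i => ¬ (i = 1 ∨ i = k + 2))) univ :=
      fan_bset (by omega) (by omega) (by omega)
    refine ⟨fan (k + 4) (fun i => ¬ (i = 1 ∨ i = k + 2)), inferInstance, hB, ?_, ?_⟩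
    · apply fan_maxDegree _ (Or.inl (by omega))
      have e1 := card_filter_add_card_filter_not (s := range (k + 4))
        (fun i => i = 1 ∨ i = k + 2)
      have e2 : (range (k + 4)).filter (fun i => i = 1 ∨ i = k + 2) = {1, k + 2} := by
        ext i; simp only [mem_filter, mem_range, mem_insert, mem_singleton]; omega
      rw [e2, card_pair (by omega), card_range] at e1
      omega
    · refine (FF_h2 k hk).trans (FF_le_WS ?_ ?_ ?_ hB.2.1)
      · intro i; unfold h2; split_ifs <;> omega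
      · intro i; have := h2_ge k i; omega
      · intro i hi; unfold h2; rw [if_neg hi]
  · obtain ⟨c, rfl⟩ : ∃ c, m = c + 1 := ⟨m - 1, by omega⟩
    have hB : BSet (fan N (fun i => i = 0 ∨ c ≤ i + 1)) univ :=
      fan_bset (by omega) (by omega) (by omega)
    refine ⟨fan N (fun i => i = 0 ∨ c ≤ i + 1), inferInstance, hB, ?_, ?_⟩
    · apply fan_maxDegree _ (by
        by_cases hk : k = 0
        · exact Or.inr ⟨by omega, fun i h1 h2 => by omega⟩
        · exact Or.inl (by omega))
      have e2 : (range N).filter (fun i => i = 0 ∨ c ≤ i + 1) = insert 0 (Ico (c - 1) N) := by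
        ext i; simp only [mem_filter, mem_range, mem_insert, mem_Ico]; omega
      rw [e2, card_insert_of_notMem (by simp only [mem_Ico]; omega), Nat.card_Ico]
      omega
    · refine le_trans ?_ (FF_le_WS (h := h1 (c + 1)) ?_ ?_ ?_ hB.2.1)
      · by_cases hk : k = 0
        · obtain rfl : N = c := by omega
          rw [T2_zero _ hk]
          exact FF_cycle N
        · obtain ⟨j, rfl⟩ : ∃ j, k = j + 1 := ⟨k - 1, by omega⟩
          obtain rfl : N = c + 1 + j := by omega
          have a1 := FF_gen c j (by omega)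
          have a2 : eps (j + 1) (c + 1) ≤ 0 := eps_zero (by omega)
          have a3 := D_succ (c + 1)
          have a4 : hf (c + 1 + 1) + hf (c + 1) = c + 1 := by unfold hf; omega
          rw [T2_pos _ hk]
          push_cast at a1 ⊢
          linarith
      · intro i; unfold h1; omega
      · intro i; unfold h1; omega
      · intro i hi; unfold h1; omega

end Pool.Agent.P.MP_2668aa_co
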