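import Mathlib

/-! Numerical functions for the Wiener index bound. -/

namespace Pool.Agent.P.MP_2668aa_co

/-- `D a = ⌊a² / 4⌋`. -/
def D : ℕ → ℤ
  | 0 => 0
  | 1 => 0
  | (a + 2) => D a + a + 1

/-- Iterated sums of `D`. -/
def cc : ℕ → ℤ
  | 0 => 0
  | 1 => 0
  | (a + 2) => cc a + D (a + 1)

/-- `⌊m / 2⌋` as an integer. -/
def hf (m : ℕ) : ℤ := ((m / 2 : ℕ) : ℤ)

/-- The exceptional correction. -/
def eps (k m : ℕ) : ℤ := if m = 5 ∧ k ≠ 2 then 1 else 0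

/-- Twice the extremal value. -/
def T2 (k m : ℕ) : ℤ :=
  if k = 0 then m * D m
  else m * D m + 2 * k * (D m + m) - 2 * hf m + 2 * ((k : ℤ) - 1) ^ 2 + 2 * eps k m

lemma D_add_two (a : ℕ) : D (a + 2) = D a + a + 1 := rfl

lemma cc_add_two (a : ℕ) : cc (a + 2) = cc a + D (a + 1) := rfl

lemma D_two_mul (e : ℕ) : D (2 * e) = (e : ℤ) * e ∧ D (2 * e + 1) = (e : ℤ) * (e + 1) := by
  induction e with
  | zero => simp [D]
  | succ e ih =>
    obtain ⟨h1, h2⟩ := ih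
    constructor
    · rw [show 2 * (e + 1) = 2 * e + 2 by ring, D_add_two, h1]; push_cast; ring
    · rw [show 2 * (e + 1) + 1 = (2 * e + 1) + 2 by ring, D_add_two, h2]; push_cast; ring

lemma D_ev (a : ℕ) (e : ℤ) (h : (a : ℤ) = 2 * e) : D a = e * e := by
  obtain ⟨b, rfl⟩ : ∃ b : ℕ, e = b := ⟨e.toNat, by omega⟩
  obtain rfl : a = 2 * b := by omega
  exact (D_two_mul b).1

lemma D_od (a : ℕ) (e : ℤ) (h : (a : ℤ) = 2 * e + 1) : D a = e * (e + 1) := by
  obtain ⟨b, rfl⟩ : ∃ b : ℕ, e = b := ⟨e.toNat, by omega⟩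
  obtain rfl : a = 2 * b + 1 := by omega
  exact (D_two_mul b).2

lemma cc_two_mul (e : ℕ) : 6 * cc (2 * e) = 2 * (e : ℤ) ^ 3 - 2 * e ∧
    6 * cc (2 * e + 1) = 2 * (e : ℤ) ^ 3 + 3 * (e : ℤ) ^ 2 + e := by
  induction e with
  | zero => simp [cc]
  | succ e ih =>
    obtain ⟨h1, h2⟩ := ih
    constructor
    · rw [show 2 * (e + 1) = 2 * e + 2 by ring, cc_add_two, mul_add, h1, (D_two_mul e).2]
      push_cast; ring
    · rw [show 2 * (e + 1) + 1 = (2 * e + 1) + 2 by ring, cc_add_two, mul_add, h2,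
        show 2 * e + 1 + 1 = 2 * (e + 1) by ring, (D_two_mul (e + 1)).1]
      push_cast; ring

lemma cc_ev (a : ℕ) (e : ℤ) (h : (a : ℤ) = 2 * e) : 6 * cc a = 2 * e ^ 3 - 2 * e := by
  obtain ⟨b, rfl⟩ : ∃ b : ℕ, e = b := ⟨e.toNat, by omega⟩
  obtain rfl : a = 2 * b := by omega
  exact (cc_two_mul b).1

lemma cc_od (a : ℕ) (e : ℤ) (h : (a : ℤ) = 2 * e + 1) :
    6 * cc a = 2 * e ^ 3 + 3 * e ^ 2 + e := by
  obtain ⟨b, rfl⟩ : ∃ b : ℕ, e = b := ⟨e.toNat, by omega⟩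
  obtain rfl : a = 2 * b + 1 := by omega
  exact (cc_two_mul b).2

lemma D_nonneg (a : ℕ) : 0 ≤ D a := by
  obtain ⟨e, rfl | rfl⟩ := Nat.even_or_odd' a
  · rw [(D_two_mul e).1]; positivity
  · rw [(D_two_mul e).2]; positivity

lemma D_succ (a : ℕ) : D (a + 1) = D a + hf (a + 1) := by
  obtain ⟨e, rfl | rfl⟩ := Nat.even_or_odd' a
  · have : hf (2 * e + 1) = e := by unfold hf; omega
    rw [(D_two_mul e).1, (D_two_mul e).2, this]; ring
  · have : hf (2 * e + 1 + 1) = e + 1 := by unfold hf; omega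
    rw [this, show 2 * e + 1 + 1 = 2 * (e + 1) by ring, (D_two_mul (e + 1)).1, (D_two_mul e).2]
    push_cast; ring

lemma D_mono {a b : ℕ} (h : a ≤ b) : D a ≤ D b := by
  induction h with
  | refl => exact le_rfl
  | @step b _ ih =>
    have h1 := D_succ b
    have h2 : 0 ≤ hf (b + 1) := by unfold hf; omega
    show D a ≤ D (b + 1)
    linarith

lemma D_eq_nat (a : ℕ) : D a = ((a ^ 2 / 4 : ℕ) : ℤ) := by
  obtain ⟨e, rfl | rfl⟩ := Nat.even_or_odd' a
  · rw [(D_two_mul e).1, show (2 * e) ^ 2 = 4 * (e * e) by ring,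
      Nat.mul_div_cancel_left _ (by norm_num)]
    push_cast; ring
  · rw [(D_two_mul e).2, show (2 * e + 1) ^ 2 = 1 + 4 * (e * (e + 1)) by ring,
      Nat.add_mul_div_left _ _ (by norm_num)]
    push_cast; ring

lemma cc_le_succ (a : ℕ) : 0 ≤ cc a ∧ cc a ≤ cc (a + 1) := by
  induction a using Nat.twoStepInduction with
  | zero => simp [cc]
  | one => simp [cc, D]
  | more a ih _ =>
    obtain ⟨h1, h2⟩ := ih
    have h3 := D_nonneg (a + 1)
    have h4 : D (a + 1) ≤ D (a + 1 + 1) := D_mono (by omega)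
    constructor
    · rw [cc_add_two]; linarith
    · rw [cc_add_two, show a + 2 + 1 = (a + 1) + 2 by ring, cc_add_two]; linarith

lemma cc_nonneg (a : ℕ) : 0 ≤ cc a := (cc_le_succ a).1

lemma cc_mono {a b : ℕ} (h : a ≤ b) : cc a ≤ cc b := by
  induction h with
  | refl => exact le_rfl
  | @step b _ ih => exact ih.trans (cc_le_succ b).2

lemma hf_ev (a : ℕ) (e : ℤ) (h : (a : ℤ) = 2 * e) : hf a = e := by unfold hf; omega

lemma hf_od (a : ℕ) (e : ℤ) (h : (a : ℤ) = 2 * e + 1) : hf a = e := by unfold hf; omega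

lemma eps_le (k m : ℕ) : eps k m ≤ 1 := by unfold eps; split_ifs <;> norm_num

lemma eps_ge (k m : ℕ) : 0 ≤ eps k m := by unfold eps; split_ifs <;> norm_num

lemma eps_zero {k m : ℕ} (h : m ≠ 5 ∨ k = 2) : eps k m ≤ 0 := by
  unfold eps; rw [if_neg (by omega)]

lemma eps_one {k m : ℕ} (h : m = 5 ∧ k ≠ 2) : 1 ≤ eps k m := by
  unfold eps; rw [if_pos h]

lemma T2_zero {k : ℕ} (m : ℕ) (h : k = 0) : T2 k m = m * D m := by
  unfold T2; rw [if_pos h]

lemma T2_pos {k : ℕ} (m : ℕ) (h : k ≠ 0) : T2 k m =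
    m * D m + 2 * k * (D m + m) - 2 * hf m + 2 * ((k : ℤ) - 1) ^ 2 + 2 * eps k m := by
  unfold T2; rw [if_neg h]

/-- The numerical inequality for a long ear avoiding the special vertex. -/
def B2ok (k mp t m g a b : ℕ) (bp bq : ℤ) : Prop :=
  3 * ((mp : ℤ) + k) * (a * (a + 1) + b * (b + 1)) + 6 * a * bp + 6 * b * bq
    + (t : ℤ) ^ 3 - t - 6 * cc g ≤ 3 * T2 k m - 3 * T2 k mp

/-- The numerical inequality for a long ear starting at the special vertex. -/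
def B1ok (kp mp t s k m g1 g2 a b : ℕ) (bq : ℤ) : Prop :=
  3 * ((mp : ℤ) + kp - 1) * (a * (a + 1) + b * (b + 1)) + 6 * a * (D mp + kp - s) + 6 * b * bq
    + 3 * t * (t + 1) - 6 * D g1 + (t : ℤ) ^ 3 - t - 6 * cc g2 ≤ 3 * T2 k m - 3 * T2 kp mp

lemma A1_one (m : ℕ) : 2 * D (m + 1) ≤ T2 1 m - T2 0 m := by
  rw [T2_pos m (by norm_num), T2_zero m rfl, D_succ]
  have h1 := eps_ge 1 m
  have h2 : hf (m + 1) + hf m = m := by unfold hf; omega
  push_cast
  linarith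

lemma A1_big (k m : ℕ) (hk : 1 ≤ k) (h : ¬ (k = 1 ∧ m = 5)) :
    2 * (D m + m + 2 * (k + 1 : ℕ) - 3) ≤ T2 (k + 1) m - T2 k m := by
  rw [T2_pos m (by omega), T2_pos m (by omega)]
  have h1 : eps k m ≤ eps (k + 1) m := by
    unfold eps
    split_ifs <;> omega
  push_cast
  linarith

lemma A1_special : 22 ≤ T2 2 5 - T2 1 5 := by
  simp [T2, D, hf, eps]

lemma A2_small (k mp : ℕ) (hk : 1 ≤ k) (hk3 : k ≤ 3) (h : 3 ≤ mp) :
    2 * D (mp + 1 + k) ≤ T2 k (mp + 1) - T2 k mp := by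
  rw [T2_pos _ (by omega), T2_pos _ (by omega)]
  by_cases h6 : mp < 6
  · interval_cases k <;> interval_cases mp <;> simp [D, hf, eps]
  have e1 : eps k mp ≤ 0 := eps_zero (by omega)
  have e2 := eps_ge k (mp + 1)
  obtain ⟨x, hx | hx⟩ : ∃ x : ℕ, mp = 2 * x + 6 ∨ mp = 2 * x + 7 := ⟨(mp - 6) / 2, by omega⟩
  · have d1 := D_ev mp (x + 3) (by omega)
    have d2 := D_od (mp + 1) (x + 3) (by omega)
    have d3 := hf_ev mp (x + 3) (by omega)
    have d4 := hf_od (mp + 1) (x + 3) (by omega)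
    have c1 : (mp : ℤ) = 2 * x + 6 := by omega
    have p1 : (0 : ℤ) ≤ x := by positivity
    have p2 : (0 : ℤ) ≤ x ^ 2 := by positivity
    interval_cases k
    · have d5 := D_ev (mp + 1 + 1) (x + 4) (by omega)
      push_cast; rw [d1, d2, d3, d4, d5, c1]; linarith
    · have d5 := D_od (mp + 1 + 2) (x + 4) (by omega)
      push_cast; rw [d1, d2, d3, d4, d5, c1]; linarith
    · have d5 := D_ev (mp + 1 + 3) (x + 5) (by omega)
      push_cast; rw [d1, d2, d3, d4, d5, c1]; linarith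
  · have d1 := D_od mp (x + 3) (by omega)
    have d2 := D_ev (mp + 1) (x + 4) (by omega)
    have d3 := hf_od mp (x + 3) (by omega)
    have d4 := hf_ev (mp + 1) (x + 4) (by omega)
    have c1 : (mp : ℤ) = 2 * x + 7 := by omega
    have p1 : (0 : ℤ) ≤ x := by positivity
    have p2 : (0 : ℤ) ≤ x ^ 2 := by positivity
    interval_cases k
    · have d5 := D_od (mp + 1 + 1) (x + 4) (by omega)
      push_cast; rw [d1, d2, d3, d4, d5, c1]; linarith
    · have d5 := D_ev (mp + 1 + 2) (x + 5) (by omega)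
      push_cast; rw [d1, d2, d3, d4, d5, c1]; linarith
    · have d5 := D_od (mp + 1 + 3) (x + 5) (by omega)
      push_cast; rw [d1, d2, d3, d4, d5, c1]; linarith

lemma A2_big (u mp : ℕ) (h : 3 ≤ mp) :
    2 * (D (mp + 1 + 3) + u * (hf (mp + 1) + 1)) ≤ T2 (u + 3) (mp + 1) - T2 (u + 3) mp := by
  have h1 := A2_small 3 mp (by norm_num) le_rfl h
  rw [T2_pos _ (by omega), T2_pos _ (by omega)] at h1 ⊢
  have e1 : ∀ m, eps (u + 3) m = eps 3 m := fun m => by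
    unfold eps
    split_ifs <;> omega
  rw [e1, e1]
  have d1 := D_succ mp
  rw [d1] at h1 ⊢
  push_cast at h1 ⊢
  linarith

end Pool.Agent.P.MP_2668aa_co
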