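import Pool.Agent.P.MP_2668aa_co.Num

/-! Generated polynomial inequalities. -/

set_option linter.unusedVariables false
set_option linter.unusedSimpArgs false
set_option linter.style.longLine false

namespace Pool.Agent.P.MP_2668aa_co

lemma b1leaf79 (kp mp t s k m g1 g2 a b x y z u : ℕ) (hkp : kp = 2) (hmp : mp = 4) (ht : t = 2) (hs : s = 1) (hk : k = 3) (hm : m = 5) (ha : a = 1) (hb : b = 1) (hg1 : g1 = 1) (hg2 : g2 = 0) :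
    B1ok kp mp t s k m g1 g2 a b (D (mp + kp)) := by
  have d1 := D_ev (mp) (2 : ℤ) (by omega)
  have d2 := D_od (m) (2 : ℤ) (by omega)
  have d3 := hf_ev (mp) (2 : ℤ) (by omega)
  have d4 := hf_od (m) (2 : ℤ) (by omega)
  have d5 := D_ev (mp + kp) (3 : ℤ) (by omega)
  have c1 := cc_ev (g2) (0 : ℤ) (by omega)
  have c2 := D_od (g1) (0 : ℤ) (by omega)
  have e1 := eps_zero (k := kp) (m := mp) (by omega)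
  have e2 := eps_one (k := k) (m := m) (by omega)
  have kkp : (kp : ℤ) = (2 : ℤ) := by omega
  have kmp : (mp : ℤ) = (4 : ℤ) := by omega
  have kt : (t : ℤ) = (2 : ℤ) := by omega
  have ks : (s : ℤ) = (1 : ℤ) := by omega
  have kk : (k : ℤ) = (3 : ℤ) := by omega
  have km : (m : ℤ) = (5 : ℤ) := by omega
  have ka : (a : ℤ) = (1 : ℤ) := by omega
  have kb : (b : ℤ) = (1 : ℤ) := by omega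
  have p : (0 : ℤ) ≤ (0 : ℤ) := by positivity
  unfold B1ok
  rw [T2_pos m (by omega), T2_pos mp (by omega)]
  simp only [d1, d2, d3, d4, d5, kkp, kmp, kt, ks, kk, km, ka, kb]
  linarith

lemma b1leaf80 (kp mp t s k m g1 g2 a b x y z u : ℕ) (hkp : kp = 2) (hmp : mp = 2*z + 6) (ht : t = 2) (hs : s = 1) (hk : k = 3) (hm : m = 2*z + 7) (ha : a = 1) (hb : b = 1) (hg1 : g1 = 1) (hg2 : g2 = 0) :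
    B1ok kp mp t s k m g1 g2 a b (D (mp + kp)) := by
  have d1 := D_ev (mp) ((z:ℤ) + 3 : ℤ) (by omega)
  have d2 := D_od (m) ((z:ℤ) + 3 : ℤ) (by omega)
  have d3 := hf_ev (mp) ((z:ℤ) + 3 : ℤ) (by omega)
  have d4 := hf_od (m) ((z:ℤ) + 3 : ℤ) (by omega)
  have d5 := D_ev (mp + kp) ((z:ℤ) + 4 : ℤ) (by omega)
  have c1 := cc_ev (g2) (0 : ℤ) (by omega)
  have c2 := D_od (g1) (0 : ℤ) (by omega)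
  have e1 := eps_zero (k := kp) (m := mp) (by omega)
  have e2 := eps_ge k m
  have kkp : (kp : ℤ) = (2 : ℤ) := by omega
  have kmp : (mp : ℤ) = (2*(z:ℤ) + 6 : ℤ) := by omega
  have kt : (t : ℤ) = (2 : ℤ) := by omega
  have ks : (s : ℤ) = (1 : ℤ) := by omega
  have kk : (k : ℤ) = (3 : ℤ) := by omega
  have km : (m : ℤ) = (2*(z:ℤ) + 7 : ℤ) := by omega
  have ka : (a : ℤ) = (1 : ℤ) := by omega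
  have kb : (b : ℤ) = (1 : ℤ) := by omega
  have p : (0 : ℤ) ≤ (3*(z:ℤ)^2 + 15*(z:ℤ) + 6 : ℤ) := by positivity
  unfold B1ok
  rw [T2_pos m (by omega), T2_pos mp (by omega)]
  simp only [d1, d2, d3, d4, d5, kkp, kmp, kt, ks, kk, km, ka, kb]
  linarith

lemma b1leaf81 (kp mp t s k m g1 g2 a b x y z u : ℕ) (hkp : kp = 2) (hmp : mp = 2*z + 4) (ht : t = 2*y + 4) (hs : s = 1) (hk : k = 3) (hm : m = 2*y + 2*z + 7) (ha : a = y + 2) (hb : b = y + 2) (hg1 : g1 = 2*y + 3) (hg2 : g2 = 2*y + 2) :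
    B1ok kp mp t s k m g1 g2 a b (D (mp + kp)) := by
  have d1 := D_ev (mp) ((z:ℤ) + 2 : ℤ) (by omega)
  have d2 := D_od (m) ((y:ℤ) + (z:ℤ) + 3 : ℤ) (by omega)
  have d3 := hf_ev (mp) ((z:ℤ) + 2 : ℤ) (by omega)
  have d4 := hf_od (m) ((y:ℤ) + (z:ℤ) + 3 : ℤ) (by omega)
  have d5 := D_ev (mp + kp) ((z:ℤ) + 3 : ℤ) (by omega)
  have c1 := cc_ev (g2) ((y:ℤ) + 1 : ℤ) (by omega)
  have c2 := D_od (g1) ((y:ℤ) + 1 : ℤ) (by omega)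
  have e1 := eps_zero (k := kp) (m := mp) (by omega)
  have e2 := eps_ge k m
  have kkp : (kp : ℤ) = (2 : ℤ) := by omega
  have kmp : (mp : ℤ) = (2*(z:ℤ) + 4 : ℤ) := by omega
  have kt : (t : ℤ) = (2*(y:ℤ) + 4 : ℤ) := by omega
  have ks : (s : ℤ) = (1 : ℤ) := by omega
  have kk : (k : ℤ) = (3 : ℤ) := by omega
  have km : (m : ℤ) = (2*(y:ℤ) + 2*(z:ℤ) + 7 : ℤ) := by omega
  have ka : (a : ℤ) = ((y:ℤ) + 2 : ℤ) := by omega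
  have kb : (b : ℤ) = ((y:ℤ) + 2 : ℤ) := by omega
  have p : (0 : ℤ) ≤ (6*(y:ℤ)^2*(z:ℤ) + 6*(y:ℤ)*(z:ℤ)^2 + 3*(y:ℤ)^2 + 42*(y:ℤ)*(z:ℤ) + 9*(z:ℤ)^2 + 15*(y:ℤ) + 45*(z:ℤ) + 6 : ℤ) := by positivity
  unfold B1ok
  rw [T2_pos m (by omega), T2_pos mp (by omega)]
  simp only [d1, d2, d3, d4, d5, kkp, kmp, kt, ks, kk, km, ka, kb]
  linarith

lemma b1leaf82 (kp mp t s k m g1 g2 a b x y z u : ℕ) (hkp : kp = 2) (hmp : mp = 4*x + 2*z + 6) (ht : t = 2*x + 2*y + 4) (hs : s = 2*x + 3) (hk : k = 3) (hm : m = 6*x + 2*y + 2*z + 9) (ha : a = 2*x + y + 3) (hb : b = y + 1) (hg1 : g1 = 2*y + 1) (hg2 : g2 = 2*y) :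
    B1ok kp mp t s k m g1 g2 a b (D (mp + kp)) := by
  have d1 := D_ev (mp) (2*(x:ℤ) + (z:ℤ) + 3 : ℤ) (by omega)
  have d2 := D_od (m) (3*(x:ℤ) + (y:ℤ) + (z:ℤ) + 4 : ℤ) (by omega)
  have d3 := hf_ev (mp) (2*(x:ℤ) + (z:ℤ) + 3 : ℤ) (by omega)
  have d4 := hf_od (m) (3*(x:ℤ) + (y:ℤ) + (z:ℤ) + 4 : ℤ) (by omega)
  have d5 := D_ev (mp + kp) (2*(x:ℤ) + (z:ℤ) + 4 : ℤ) (by omega)
  have c1 := cc_ev (g2) ((y:ℤ) : ℤ) (by omega)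
  have c2 := D_od (g1) ((y:ℤ) : ℤ) (by omega)
  have e1 := eps_zero (k := kp) (m := mp) (by omega)
  have e2 := eps_ge k m
  have kkp : (kp : ℤ) = (2 : ℤ) := by omega
  have kmp : (mp : ℤ) = (4*(x:ℤ) + 2*(z:ℤ) + 6 : ℤ) := by omega
  have kt : (t : ℤ) = (2*(x:ℤ) + 2*(y:ℤ) + 4 : ℤ) := by omega
  have ks : (s : ℤ) = (2*(x:ℤ) + 3 : ℤ) := by omega
  have kk : (k : ℤ) = (3 : ℤ) := by omega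
  have km : (m : ℤ) = (6*(x:ℤ) + 2*(y:ℤ) + 2*(z:ℤ) + 9 : ℤ) := by omega
  have ka : (a : ℤ) = (2*(x:ℤ) + (y:ℤ) + 3 : ℤ) := by omega
  have kb : (b : ℤ) = ((y:ℤ) + 1 : ℤ) := by omega
  have p : (0 : ℤ) ≤ (10*(x:ℤ)^3 + 42*(x:ℤ)^2*(y:ℤ) + 18*(x:ℤ)^2*(z:ℤ) + 6*(x:ℤ)*(y:ℤ)^2 + 36*(x:ℤ)*(y:ℤ)*(z:ℤ) + 6*(x:ℤ)*(z:ℤ)^2 + 6*(y:ℤ)^2*(z:ℤ) + 6*(y:ℤ)*(z:ℤ)^2 + 99*(x:ℤ)^2 + 114*(x:ℤ)*(y:ℤ) + 78*(x:ℤ)*(z:ℤ) + 3*(y:ℤ)^2 + 54*(y:ℤ)*(z:ℤ) + 9*(z:ℤ)^2 + 179*(x:ℤ) + 57*(y:ℤ) + 63*(z:ℤ) + 78 : ℤ) := by positivity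
  unfold B1ok
  rw [T2_pos m (by omega), T2_pos mp (by omega)]
  simp only [d1, d2, d3, d4, d5, kkp, kmp, kt, ks, kk, km, ka, kb]
  linarith

lemma b1leaf83 (kp mp t s k m g1 g2 a b x y z u : ℕ) (hkp : kp = 2) (hmp : mp = 4*x + 2*z + 3) (ht : t = 2*x + 2*y + 2) (hs : s = 2*x + 1) (hk : k = 3) (hm : m = 6*x + 2*y + 2*z + 4) (ha : a = 2*x + y + 1) (hb : b = y + 1) (hg1 : g1 = 2*y + 1) (hg2 : g2 = 2*y) :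
    B1ok kp mp t s k m g1 g2 a b (D (mp + kp)) := by
  have d1 := D_od (mp) (2*(x:ℤ) + (z:ℤ) + 1 : ℤ) (by omega)
  have d2 := D_ev (m) (3*(x:ℤ) + (y:ℤ) + (z:ℤ) + 2 : ℤ) (by omega)
  have d3 := hf_od (mp) (2*(x:ℤ) + (z:ℤ) + 1 : ℤ) (by omega)
  have d4 := hf_ev (m) (3*(x:ℤ) + (y:ℤ) + (z:ℤ) + 2 : ℤ) (by omega)
  have d5 := D_od (mp + kp) (2*(x:ℤ) + (z:ℤ) + 2 : ℤ) (by omega)
  have c1 := cc_ev (g2) ((y:ℤ) : ℤ) (by omega)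
  have c2 := D_od (g1) ((y:ℤ) : ℤ) (by omega)
  have e1 := eps_zero (k := kp) (m := mp) (by omega)
  have e2 := eps_ge k m
  have kkp : (kp : ℤ) = (2 : ℤ) := by omega
  have kmp : (mp : ℤ) = (4*(x:ℤ) + 2*(z:ℤ) + 3 : ℤ) := by omega
  have kt : (t : ℤ) = (2*(x:ℤ) + 2*(y:ℤ) + 2 : ℤ) := by omega
  have ks : (s : ℤ) = (2*(x:ℤ) + 1 : ℤ) := by omega
  have kk : (k : ℤ) = (3 : ℤ) := by omega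
  have km : (m : ℤ) = (6*(x:ℤ) + 2*(y:ℤ) + 2*(z:ℤ) + 4 : ℤ) := by omega
  have ka : (a : ℤ) = (2*(x:ℤ) + (y:ℤ) + 1 : ℤ) := by omega
  have kb : (b : ℤ) = ((y:ℤ) + 1 : ℤ) := by omega
  have p : (0 : ℤ) ≤ (10*(x:ℤ)^3 + 42*(x:ℤ)^2*(y:ℤ) + 18*(x:ℤ)^2*(z:ℤ) + 6*(x:ℤ)*(y:ℤ)^2 + 36*(x:ℤ)*(y:ℤ)*(z:ℤ) + 6*(x:ℤ)*(z:ℤ)^2 + 6*(y:ℤ)^2*(z:ℤ) + 6*(y:ℤ)*(z:ℤ)^2 + 78*(x:ℤ)^2 + 48*(x:ℤ)*(y:ℤ) + 48*(x:ℤ)*(z:ℤ) + 24*(y:ℤ)*(z:ℤ) + 3*(z:ℤ)^2 + 44*(x:ℤ) + 9*(z:ℤ) : ℤ) := by positivity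
  unfold B1ok
  rw [T2_pos m (by omega), T2_pos mp (by omega)]
  simp only [d1, d2, d3, d4, d5, kkp, kmp, kt, ks, kk, km, ka, kb]
  linarith

lemma b1leaf84 (kp mp t s k m g1 g2 a b x y z u : ℕ) (hkp : kp = 2) (hmp : mp = 2*z + 4) (ht : t = 2*y + 3) (hs : s = 1) (hk : k = 3) (hm : m = 2*y + 2*z + 6) (ha : a = y + 2) (hb : b = y + 1) (hg1 : g1 = 2*y + 2) (hg2 : g2 = 2*y + 1) :
    B1ok kp mp t s k m g1 g2 a b (D (mp + kp)) := by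
  have d1 := D_ev (mp) ((z:ℤ) + 2 : ℤ) (by omega)
  have d2 := D_ev (m) ((y:ℤ) + (z:ℤ) + 3 : ℤ) (by omega)
  have d3 := hf_ev (mp) ((z:ℤ) + 2 : ℤ) (by omega)
  have d4 := hf_ev (m) ((y:ℤ) + (z:ℤ) + 3 : ℤ) (by omega)
  have d5 := D_ev (mp + kp) ((z:ℤ) + 3 : ℤ) (by omega)
  have c1 := cc_od (g2) ((y:ℤ) : ℤ) (by omega)
  have c2 := D_ev (g1) ((y:ℤ) + 1 : ℤ) (by omega)
  have e1 := eps_zero (k := kp) (m := mp) (by omega)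
  have e2 := eps_ge k m
  have kkp : (kp : ℤ) = (2 : ℤ) := by omega
  have kmp : (mp : ℤ) = (2*(z:ℤ) + 4 : ℤ) := by omega
  have kt : (t : ℤ) = (2*(y:ℤ) + 3 : ℤ) := by omega
  have ks : (s : ℤ) = (1 : ℤ) := by omega
  have kk : (k : ℤ) = (3 : ℤ) := by omega
  have km : (m : ℤ) = (2*(y:ℤ) + 2*(z:ℤ) + 6 : ℤ) := by omega
  have ka : (a : ℤ) = ((y:ℤ) + 2 : ℤ) := by omega
  have kb : (b : ℤ) = ((y:ℤ) + 1 : ℤ) := by omega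
  have p : (0 : ℤ) ≤ (6*(y:ℤ)^2*(z:ℤ) + 6*(y:ℤ)*(z:ℤ)^2 + 3*(y:ℤ)^2 + 36*(y:ℤ)*(z:ℤ) + 6*(z:ℤ)^2 + 15*(y:ℤ) + 30*(z:ℤ) + 12 : ℤ) := by positivity
  unfold B1ok
  rw [T2_pos m (by omega), T2_pos mp (by omega)]
  simp only [d1, d2, d3, d4, d5, kkp, kmp, kt, ks, kk, km, ka, kb]
  linarith

lemma b1leaf85 (kp mp t s k m g1 g2 a b x y z u : ℕ) (hkp : kp = 2) (hmp : mp = 4*x + 2*z + 6) (ht : t = 2*x + 2*y + 5) (hs : s = 2*x + 3) (hk : k = 3) (hm : m = 6*x + 2*y + 2*z + 10) (ha : a = 2*x + y + 4) (hb : b = y + 1) (hg1 : g1 = 2*y + 2) (hg2 : g2 = 2*y + 1) :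
    B1ok kp mp t s k m g1 g2 a b (D (mp + kp)) := by
  have d1 := D_ev (mp) (2*(x:ℤ) + (z:ℤ) + 3 : ℤ) (by omega)
  have d2 := D_ev (m) (3*(x:ℤ) + (y:ℤ) + (z:ℤ) + 5 : ℤ) (by omega)
  have d3 := hf_ev (mp) (2*(x:ℤ) + (z:ℤ) + 3 : ℤ) (by omega)
  have d4 := hf_ev (m) (3*(x:ℤ) + (y:ℤ) + (z:ℤ) + 5 : ℤ) (by omega)
  have d5 := D_ev (mp + kp) (2*(x:ℤ) + (z:ℤ) + 4 : ℤ) (by omega)
  have c1 := cc_od (g2) ((y:ℤ) : ℤ) (by omega)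
  have c2 := D_ev (g1) ((y:ℤ) + 1 : ℤ) (by omega)
  have e1 := eps_zero (k := kp) (m := mp) (by omega)
  have e2 := eps_ge k m
  have kkp : (kp : ℤ) = (2 : ℤ) := by omega
  have kmp : (mp : ℤ) = (4*(x:ℤ) + 2*(z:ℤ) + 6 : ℤ) := by omega
  have kt : (t : ℤ) = (2*(x:ℤ) + 2*(y:ℤ) + 5 : ℤ) := by omega
  have ks : (s : ℤ) = (2*(x:ℤ) + 3 : ℤ) := by omega
  have kk : (k : ℤ) = (3 : ℤ) := by omega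
  have km : (m : ℤ) = (6*(x:ℤ) + 2*(y:ℤ) + 2*(z:ℤ) + 10 : ℤ) := by omega
  have ka : (a : ℤ) = (2*(x:ℤ) + (y:ℤ) + 4 : ℤ) := by omega
  have kb : (b : ℤ) = ((y:ℤ) + 1 : ℤ) := by omega
  have p : (0 : ℤ) ≤ (10*(x:ℤ)^3 + 42*(x:ℤ)^2*(y:ℤ) + 18*(x:ℤ)^2*(z:ℤ) + 6*(x:ℤ)*(y:ℤ)^2 + 36*(x:ℤ)*(y:ℤ)*(z:ℤ) + 6*(x:ℤ)*(z:ℤ)^2 + 6*(y:ℤ)^2*(z:ℤ) + 6*(y:ℤ)*(z:ℤ)^2 + 96*(x:ℤ)^2 + 120*(x:ℤ)*(y:ℤ) + 84*(x:ℤ)*(z:ℤ) + 3*(y:ℤ)^2 + 60*(y:ℤ)*(z:ℤ) + 12*(z:ℤ)^2 + 188*(x:ℤ) + 63*(y:ℤ) + 84*(z:ℤ) + 90 : ℤ) := by positivity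
  unfold B1ok
  rw [T2_pos m (by omega), T2_pos mp (by omega)]
  simp only [d1, d2, d3, d4, d5, kkp, kmp, kt, ks, kk, km, ka, kb]
  linarith

lemma b1leaf86 (kp mp t s k m g1 g2 a b x y z u : ℕ) (hkp : kp = 2) (hmp : mp = 4*x + 2*z + 3) (ht : t = 2*x + 2*y + 3) (hs : s = 2*x + 1) (hk : k = 3) (hm : m = 6*x + 2*y + 2*z + 5) (ha : a = 2*x + y + 2) (hb : b = y + 1) (hg1 : g1 = 2*y + 2) (hg2 : g2 = 2*y + 1) :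
    B1ok kp mp t s k m g1 g2 a b (D (mp + kp)) := by
  have d1 := D_od (mp) (2*(x:ℤ) + (z:ℤ) + 1 : ℤ) (by omega)
  have d2 := D_od (m) (3*(x:ℤ) + (y:ℤ) + (z:ℤ) + 2 : ℤ) (by omega)
  have d3 := hf_od (mp) (2*(x:ℤ) + (z:ℤ) + 1 : ℤ) (by omega)
  have d4 := hf_od (m) (3*(x:ℤ) + (y:ℤ) + (z:ℤ) + 2 : ℤ) (by omega)
  have d5 := D_od (mp + kp) (2*(x:ℤ) + (z:ℤ) + 2 : ℤ) (by omega)
  have c1 := cc_od (g2) ((y:ℤ) : ℤ) (by omega)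
  have c2 := D_ev (g1) ((y:ℤ) + 1 : ℤ) (by omega)
  have e1 := eps_zero (k := kp) (m := mp) (by omega)
  have e2 := eps_ge k m
  have kkp : (kp : ℤ) = (2 : ℤ) := by omega
  have kmp : (mp : ℤ) = (4*(x:ℤ) + 2*(z:ℤ) + 3 : ℤ) := by omega
  have kt : (t : ℤ) = (2*(x:ℤ) + 2*(y:ℤ) + 3 : ℤ) := by omega
  have ks : (s : ℤ) = (2*(x:ℤ) + 1 : ℤ) := by omega
  have kk : (k : ℤ) = (3 : ℤ) := by omega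
  have km : (m : ℤ) = (6*(x:ℤ) + 2*(y:ℤ) + 2*(z:ℤ) + 5 : ℤ) := by omega
  have ka : (a : ℤ) = (2*(x:ℤ) + (y:ℤ) + 2 : ℤ) := by omega
  have kb : (b : ℤ) = ((y:ℤ) + 1 : ℤ) := by omega
  have p : (0 : ℤ) ≤ (10*(x:ℤ)^3 + 42*(x:ℤ)^2*(y:ℤ) + 18*(x:ℤ)^2*(z:ℤ) + 6*(x:ℤ)*(y:ℤ)^2 + 36*(x:ℤ)*(y:ℤ)*(z:ℤ) + 6*(x:ℤ)*(z:ℤ)^2 + 6*(y:ℤ)^2*(z:ℤ) + 6*(y:ℤ)*(z:ℤ)^2 + 75*(x:ℤ)^2 + 54*(x:ℤ)*(y:ℤ) + 54*(x:ℤ)*(z:ℤ) + 30*(y:ℤ)*(z:ℤ) + 6*(z:ℤ)^2 + 53*(x:ℤ) + 24*(z:ℤ) : ℤ) := by positivity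
  unfold B1ok
  rw [T2_pos m (by omega), T2_pos mp (by omega)]
  simp only [d1, d2, d3, d4, d5, kkp, kmp, kt, ks, kk, km, ka, kb]
  linarith

lemma b1leaf87 (kp mp t s k m g1 g2 a b x y z u : ℕ) (hkp : kp = 2) (hmp : mp = 4*x + 2*z + 4) (ht : t = 2*x + 2*y + 3) (hs : s = 2*x + 2) (hk : k = 3) (hm : m = 6*x + 2*y + 2*z + 6) (ha : a = 2*x + y + 2) (hb : b = y + 1) (hg1 : g1 = 2*y + 1) (hg2 : g2 = 2*y) :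
    B1ok kp mp t s k m g1 g2 a b (D (mp + kp)) := by
  have d1 := D_ev (mp) (2*(x:ℤ) + (z:ℤ) + 2 : ℤ) (by omega)
  have d2 := D_ev (m) (3*(x:ℤ) + (y:ℤ) + (z:ℤ) + 3 : ℤ) (by omega)
  have d3 := hf_ev (mp) (2*(x:ℤ) + (z:ℤ) + 2 : ℤ) (by omega)
  have d4 := hf_ev (m) (3*(x:ℤ) + (y:ℤ) + (z:ℤ) + 3 : ℤ) (by omega)
  have d5 := D_ev (mp + kp) (2*(x:ℤ) + (z:ℤ) + 3 : ℤ) (by omega)
  have c1 := cc_ev (g2) ((y:ℤ) : ℤ) (by omega)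
  have c2 := D_od (g1) ((y:ℤ) : ℤ) (by omega)
  have e1 := eps_zero (k := kp) (m := mp) (by omega)
  have e2 := eps_ge k m
  have kkp : (kp : ℤ) = (2 : ℤ) := by omega
  have kmp : (mp : ℤ) = (4*(x:ℤ) + 2*(z:ℤ) + 4 : ℤ) := by omega
  have kt : (t : ℤ) = (2*(x:ℤ) + 2*(y:ℤ) + 3 : ℤ) := by omega
  have ks : (s : ℤ) = (2*(x:ℤ) + 2 : ℤ) := by omega
  have kk : (k : ℤ) = (3 : ℤ) := by omega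
  have km : (m : ℤ) = (6*(x:ℤ) + 2*(y:ℤ) + 2*(z:ℤ) + 6 : ℤ) := by omega
  have ka : (a : ℤ) = (2*(x:ℤ) + (y:ℤ) + 2 : ℤ) := by omega
  have kb : (b : ℤ) = ((y:ℤ) + 1 : ℤ) := by omega
  have p : (0 : ℤ) ≤ (10*(x:ℤ)^3 + 42*(x:ℤ)^2*(y:ℤ) + 18*(x:ℤ)^2*(z:ℤ) + 6*(x:ℤ)*(y:ℤ)^2 + 36*(x:ℤ)*(y:ℤ)*(z:ℤ) + 6*(x:ℤ)*(z:ℤ)^2 + 6*(y:ℤ)^2*(z:ℤ) + 6*(y:ℤ)*(z:ℤ)^2 + 84*(x:ℤ)^2 + 72*(x:ℤ)*(y:ℤ) + 60*(x:ℤ)*(z:ℤ) + 36*(y:ℤ)*(z:ℤ) + 6*(z:ℤ)^2 + 92*(x:ℤ) + 12*(y:ℤ) + 30*(z:ℤ) + 18 : ℤ) := by positivity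
  unfold B1ok
  rw [T2_pos m (by omega), T2_pos mp (by omega)]
  simp only [d1, d2, d3, d4, d5, kkp, kmp, kt, ks, kk, km, ka, kb]
  linarith

lemma b1leaf88 (kp mp t s k m g1 g2 a b x y z u : ℕ) (hkp : kp = 2) (hmp : mp = 4*x + 2*z + 5) (ht : t = 2*x + 2*y + 3) (hs : s = 2*x + 2) (hk : k = 3) (hm : m = 6*x + 2*y + 2*z + 7) (ha : a = 2*x + y + 2) (hb : b = y + 1) (hg1 : g1 = 2*y + 1) (hg2 : g2 = 2*y) :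
    B1ok kp mp t s k m g1 g2 a b (D (mp + kp)) := by
  have d1 := D_od (mp) (2*(x:ℤ) + (z:ℤ) + 2 : ℤ) (by omega)
  have d2 := D_od (m) (3*(x:ℤ) + (y:ℤ) + (z:ℤ) + 3 : ℤ) (by omega)
  have d3 := hf_od (mp) (2*(x:ℤ) + (z:ℤ) + 2 : ℤ) (by omega)
  have d4 := hf_od (m) (3*(x:ℤ) + (y:ℤ) + (z:ℤ) + 3 : ℤ) (by omega)
  have d5 := D_od (mp + kp) (2*(x:ℤ) + (z:ℤ) + 3 : ℤ) (by omega)
  have c1 := cc_ev (g2) ((y:ℤ) : ℤ) (by omega)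
  have c2 := D_od (g1) ((y:ℤ) : ℤ) (by omega)
  have e1 := eps_zero (k := kp) (m := mp) (by omega)
  have e2 := eps_ge k m
  have kkp : (kp : ℤ) = (2 : ℤ) := by omega
  have kmp : (mp : ℤ) = (4*(x:ℤ) + 2*(z:ℤ) + 5 : ℤ) := by omega
  have kt : (t : ℤ) = (2*(x:ℤ) + 2*(y:ℤ) + 3 : ℤ) := by omega
  have ks : (s : ℤ) = (2*(x:ℤ) + 2 : ℤ) := by omega
  have kk : (k : ℤ) = (3 : ℤ) := by omega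
  have km : (m : ℤ) = (6*(x:ℤ) + 2*(y:ℤ) + 2*(z:ℤ) + 7 : ℤ) := by omega
  have ka : (a : ℤ) = (2*(x:ℤ) + (y:ℤ) + 2 : ℤ) := by omega
  have kb : (b : ℤ) = ((y:ℤ) + 1 : ℤ) := by omega
  have p : (0 : ℤ) ≤ (10*(x:ℤ)^3 + 42*(x:ℤ)^2*(y:ℤ) + 18*(x:ℤ)^2*(z:ℤ) + 6*(x:ℤ)*(y:ℤ)^2 + 36*(x:ℤ)*(y:ℤ)*(z:ℤ) + 6*(x:ℤ)*(z:ℤ)^2 + 6*(y:ℤ)^2*(z:ℤ) + 6*(y:ℤ)*(z:ℤ)^2 + 93*(x:ℤ)^2 + 90*(x:ℤ)*(y:ℤ) + 66*(x:ℤ)*(z:ℤ) + 3*(y:ℤ)^2 + 42*(y:ℤ)*(z:ℤ) + 6*(z:ℤ)^2 + 125*(x:ℤ) + 33*(y:ℤ) + 36*(z:ℤ) + 36 : ℤ) := by positivity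
  unfold B1ok
  rw [T2_pos m (by omega), T2_pos mp (by omega)]
  simp only [d1, d2, d3, d4, d5, kkp, kmp, kt, ks, kk, km, ka, kb]
  linarith

lemma b1leaf89 (kp mp t s k m g1 g2 a b x y z u : ℕ) (hkp : kp = 2) (hmp : mp = 4*x + 2*z + 4) (ht : t = 2*x + 2*y + 4) (hs : s = 2*x + 2) (hk : k = 3) (hm : m = 6*x + 2*y + 2*z + 7) (ha : a = 2*x + y + 3) (hb : b = y + 1) (hg1 : g1 = 2*y + 2) (hg2 : g2 = 2*y + 1) :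
    B1ok kp mp t s k m g1 g2 a b (D (mp + kp)) := by
  have d1 := D_ev (mp) (2*(x:ℤ) + (z:ℤ) + 2 : ℤ) (by omega)
  have d2 := D_od (m) (3*(x:ℤ) + (y:ℤ) + (z:ℤ) + 3 : ℤ) (by omega)
  have d3 := hf_ev (mp) (2*(x:ℤ) + (z:ℤ) + 2 : ℤ) (by omega)
  have d4 := hf_od (m) (3*(x:ℤ) + (y:ℤ) + (z:ℤ) + 3 : ℤ) (by omega)
  have d5 := D_ev (mp + kp) (2*(x:ℤ) + (z:ℤ) + 3 : ℤ) (by omega)
  have c1 := cc_od (g2) ((y:ℤ) : ℤ) (by omega)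
  have c2 := D_ev (g1) ((y:ℤ) + 1 : ℤ) (by omega)
  have e1 := eps_zero (k := kp) (m := mp) (by omega)
  have e2 := eps_ge k m
  have kkp : (kp : ℤ) = (2 : ℤ) := by omega
  have kmp : (mp : ℤ) = (4*(x:ℤ) + 2*(z:ℤ) + 4 : ℤ) := by omega
  have kt : (t : ℤ) = (2*(x:ℤ) + 2*(y:ℤ) + 4 : ℤ) := by omega
  have ks : (s : ℤ) = (2*(x:ℤ) + 2 : ℤ) := by omega
  have kk : (k : ℤ) = (3 : ℤ) := by omega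
  have km : (m : ℤ) = (6*(x:ℤ) + 2*(y:ℤ) + 2*(z:ℤ) + 7 : ℤ) := by omega
  have ka : (a : ℤ) = (2*(x:ℤ) + (y:ℤ) + 3 : ℤ) := by omega
  have kb : (b : ℤ) = ((y:ℤ) + 1 : ℤ) := by omega
  have p : (0 : ℤ) ≤ (10*(x:ℤ)^3 + 42*(x:ℤ)^2*(y:ℤ) + 18*(x:ℤ)^2*(z:ℤ) + 6*(x:ℤ)*(y:ℤ)^2 + 36*(x:ℤ)*(y:ℤ)*(z:ℤ) + 6*(x:ℤ)*(z:ℤ)^2 + 6*(y:ℤ)^2*(z:ℤ) + 6*(y:ℤ)*(z:ℤ)^2 + 81*(x:ℤ)^2 + 78*(x:ℤ)*(y:ℤ) + 66*(x:ℤ)*(z:ℤ) + 42*(y:ℤ)*(z:ℤ) + 9*(z:ℤ)^2 + 95*(x:ℤ) + 12*(y:ℤ) + 45*(z:ℤ) + 12 : ℤ) := by positivity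
  unfold B1ok
  rw [T2_pos m (by omega), T2_pos mp (by omega)]
  simp only [d1, d2, d3, d4, d5, kkp, kmp, kt, ks, kk, km, ka, kb]
  linarith

lemma b1leaf90 (kp mp t s k m g1 g2 a b x y z u : ℕ) (hkp : kp = 2) (hmp : mp = 4*x + 2*z + 5) (ht : t = 2*x + 2*y + 4) (hs : s = 2*x + 2) (hk : k = 3) (hm : m = 6*x + 2*y + 2*z + 8) (ha : a = 2*x + y + 3) (hb : b = y + 1) (hg1 : g1 = 2*y + 2) (hg2 : g2 = 2*y + 1) :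
    B1ok kp mp t s k m g1 g2 a b (D (mp + kp)) := by
  have d1 := D_od (mp) (2*(x:ℤ) + (z:ℤ) + 2 : ℤ) (by omega)
  have d2 := D_ev (m) (3*(x:ℤ) + (y:ℤ) + (z:ℤ) + 4 : ℤ) (by omega)
  have d3 := hf_od (mp) (2*(x:ℤ) + (z:ℤ) + 2 : ℤ) (by omega)
  have d4 := hf_ev (m) (3*(x:ℤ) + (y:ℤ) + (z:ℤ) + 4 : ℤ) (by omega)
  have d5 := D_od (mp + kp) (2*(x:ℤ) + (z:ℤ) + 3 : ℤ) (by omega)
  have c1 := cc_od (g2) ((y:ℤ) : ℤ) (by omega)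
  have c2 := D_ev (g1) ((y:ℤ) + 1 : ℤ) (by omega)
  have e1 := eps_zero (k := kp) (m := mp) (by omega)
  have e2 := eps_ge k m
  have kkp : (kp : ℤ) = (2 : ℤ) := by omega
  have kmp : (mp : ℤ) = (4*(x:ℤ) + 2*(z:ℤ) + 5 : ℤ) := by omega
  have kt : (t : ℤ) = (2*(x:ℤ) + 2*(y:ℤ) + 4 : ℤ) := by omega
  have ks : (s : ℤ) = (2*(x:ℤ) + 2 : ℤ) := by omega
  have kk : (k : ℤ) = (3 : ℤ) := by omega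
  have km : (m : ℤ) = (6*(x:ℤ) + 2*(y:ℤ) + 2*(z:ℤ) + 8 : ℤ) := by omega
  have ka : (a : ℤ) = (2*(x:ℤ) + (y:ℤ) + 3 : ℤ) := by omega
  have kb : (b : ℤ) = ((y:ℤ) + 1 : ℤ) := by omega
  have p : (0 : ℤ) ≤ (10*(x:ℤ)^3 + 42*(x:ℤ)^2*(y:ℤ) + 18*(x:ℤ)^2*(z:ℤ) + 6*(x:ℤ)*(y:ℤ)^2 + 36*(x:ℤ)*(y:ℤ)*(z:ℤ) + 6*(x:ℤ)*(z:ℤ)^2 + 6*(y:ℤ)^2*(z:ℤ) + 6*(y:ℤ)*(z:ℤ)^2 + 90*(x:ℤ)^2 + 96*(x:ℤ)*(y:ℤ) + 72*(x:ℤ)*(z:ℤ) + 3*(y:ℤ)^2 + 48*(y:ℤ)*(z:ℤ) + 9*(z:ℤ)^2 + 140*(x:ℤ) + 39*(y:ℤ) + 57*(z:ℤ) + 54 : ℤ) := by positivity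
  unfold B1ok
  rw [T2_pos m (by omega), T2_pos mp (by omega)]
  simp only [d1, d2, d3, d4, d5, kkp, kmp, kt, ks, kk, km, ka, kb]
  linarith

lemma b1leaf91 (kp mp t s k m g1 g2 a b x y z u : ℕ) (hkp : kp = 2) (hmp : mp = 4*x + 4*y + 2*z + 4) (ht : t = 2*x + 2) (hs : s = 2*x + 2*y + 2) (hk : k = 3) (hm : m = 6*x + 4*y + 2*z + 5) (ha : a = 2*x + 2) (hb : b = 0) :
    B1ok kp mp t s k m g1 g2 a b (D (mp + kp)) := by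
  have d1 := D_ev (mp) (2*(x:ℤ) + 2*(y:ℤ) + (z:ℤ) + 2 : ℤ) (by omega)
  have d2 := D_od (m) (3*(x:ℤ) + 2*(y:ℤ) + (z:ℤ) + 2 : ℤ) (by omega)
  have d3 := hf_ev (mp) (2*(x:ℤ) + 2*(y:ℤ) + (z:ℤ) + 2 : ℤ) (by omega)
  have d4 := hf_od (m) (3*(x:ℤ) + 2*(y:ℤ) + (z:ℤ) + 2 : ℤ) (by omega)
  have d5 := D_ev (mp + kp) (2*(x:ℤ) + 2*(y:ℤ) + (z:ℤ) + 3 : ℤ) (by omega)
  have c1 := cc_nonneg g2
  have c2 := D_nonneg g1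
  have e1 := eps_zero (k := kp) (m := mp) (by omega)
  have e2 := eps_ge k m
  have kkp : (kp : ℤ) = (2 : ℤ) := by omega
  have kmp : (mp : ℤ) = (4*(x:ℤ) + 4*(y:ℤ) + 2*(z:ℤ) + 4 : ℤ) := by omega
  have kt : (t : ℤ) = (2*(x:ℤ) + 2 : ℤ) := by omega
  have ks : (s : ℤ) = (2*(x:ℤ) + 2*(y:ℤ) + 2 : ℤ) := by omega
  have kk : (k : ℤ) = (3 : ℤ) := by omega
  have km : (m : ℤ) = (6*(x:ℤ) + 4*(y:ℤ) + 2*(z:ℤ) + 5 : ℤ) := by omega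
  have ka : (a : ℤ) = (2*(x:ℤ) + 2 : ℤ) := by omega
  have kb : (b : ℤ) = (0 : ℤ) := by omega
  have p : (0 : ℤ) ≤ (10*(x:ℤ)^3 + 36*(x:ℤ)^2*(y:ℤ) + 18*(x:ℤ)^2*(z:ℤ) + 24*(x:ℤ)*(y:ℤ)^2 + 24*(x:ℤ)*(y:ℤ)*(z:ℤ) + 6*(x:ℤ)*(z:ℤ)^2 + 39*(x:ℤ)^2 + 84*(x:ℤ)*(y:ℤ) + 30*(x:ℤ)*(z:ℤ) + 12*(y:ℤ)^2 + 12*(y:ℤ)*(z:ℤ) + 3*(z:ℤ)^2 + 23*(x:ℤ) + 42*(y:ℤ) + 9*(z:ℤ) : ℤ) := by positivity
  unfold B1ok
  rw [T2_pos m (by omega), T2_pos mp (by omega)]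
  simp only [d1, d2, d3, d4, d5, kkp, kmp, kt, ks, kk, km, ka, kb]
  linarith

lemma b1leaf92 (kp mp t s k m g1 g2 a b x y z u : ℕ) (hkp : kp = 2) (hmp : mp = 4*x + 4*y + 2*z + 5) (ht : t = 2*x + 2) (hs : s = 2*x + 2*y + 2) (hk : k = 3) (hm : m = 6*x + 4*y + 2*z + 6) (ha : a = 2*x + 2) (hb : b = 0) :
    B1ok kp mp t s k m g1 g2 a b (D (mp + kp)) := by
  have d1 := D_od (mp) (2*(x:ℤ) + 2*(y:ℤ) + (z:ℤ) + 2 : ℤ) (by omega)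
  have d2 := D_ev (m) (3*(x:ℤ) + 2*(y:ℤ) + (z:ℤ) + 3 : ℤ) (by omega)
  have d3 := hf_od (mp) (2*(x:ℤ) + 2*(y:ℤ) + (z:ℤ) + 2 : ℤ) (by omega)
  have d4 := hf_ev (m) (3*(x:ℤ) + 2*(y:ℤ) + (z:ℤ) + 3 : ℤ) (by omega)
  have d5 := D_od (mp + kp) (2*(x:ℤ) + 2*(y:ℤ) + (z:ℤ) + 3 : ℤ) (by omega)
  have c1 := cc_nonneg g2
  have c2 := D_nonneg g1
  have e1 := eps_zero (k := kp) (m := mp) (by omega)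
  have e2 := eps_ge k m
  have kkp : (kp : ℤ) = (2 : ℤ) := by omega
  have kmp : (mp : ℤ) = (4*(x:ℤ) + 4*(y:ℤ) + 2*(z:ℤ) + 5 : ℤ) := by omega
  have kt : (t : ℤ) = (2*(x:ℤ) + 2 : ℤ) := by omega
  have ks : (s : ℤ) = (2*(x:ℤ) + 2*(y:ℤ) + 2 : ℤ) := by omega
  have kk : (k : ℤ) = (3 : ℤ) := by omega
  have km : (m : ℤ) = (6*(x:ℤ) + 4*(y:ℤ) + 2*(z:ℤ) + 6 : ℤ) := by omega
  have ka : (a : ℤ) = (2*(x:ℤ) + 2 : ℤ) := by omega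
  have kb : (b : ℤ) = (0 : ℤ) := by omega
  have p : (0 : ℤ) ≤ (10*(x:ℤ)^3 + 36*(x:ℤ)^2*(y:ℤ) + 18*(x:ℤ)^2*(z:ℤ) + 24*(x:ℤ)*(y:ℤ)^2 + 24*(x:ℤ)*(y:ℤ)*(z:ℤ) + 6*(x:ℤ)*(z:ℤ)^2 + 48*(x:ℤ)^2 + 96*(x:ℤ)*(y:ℤ) + 36*(x:ℤ)*(z:ℤ) + 12*(y:ℤ)^2 + 12*(y:ℤ)*(z:ℤ) + 3*(z:ℤ)^2 + 50*(x:ℤ) + 54*(y:ℤ) + 15*(z:ℤ) + 18 : ℤ) := by positivity
  unfold B1ok
  rw [T2_pos m (by omega), T2_pos mp (by omega)]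
  simp only [d1, d2, d3, d4, d5, kkp, kmp, kt, ks, kk, km, ka, kb]
  linarith

lemma b1leaf93 (kp mp t s k m g1 g2 a b x y z u : ℕ) (hkp : kp = 2) (hmp : mp = 4*x + 4*y + 2*z + 6) (ht : t = 2*x + 2) (hs : s = 2*x + 2*y + 3) (hk : k = 3) (hm : m = 6*x + 4*y + 2*z + 7) (ha : a = 2*x + 2) (hb : b = 0) :
    B1ok kp mp t s k m g1 g2 a b (D (mp + kp)) := by
  have d1 := D_ev (mp) (2*(x:ℤ) + 2*(y:ℤ) + (z:ℤ) + 3 : ℤ) (by omega)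
  have d2 := D_od (m) (3*(x:ℤ) + 2*(y:ℤ) + (z:ℤ) + 3 : ℤ) (by omega)
  have d3 := hf_ev (mp) (2*(x:ℤ) + 2*(y:ℤ) + (z:ℤ) + 3 : ℤ) (by omega)
  have d4 := hf_od (m) (3*(x:ℤ) + 2*(y:ℤ) + (z:ℤ) + 3 : ℤ) (by omega)
  have d5 := D_ev (mp + kp) (2*(x:ℤ) + 2*(y:ℤ) + (z:ℤ) + 4 : ℤ) (by omega)
  have c1 := cc_nonneg g2
  have c2 := D_nonneg g1
  have e1 := eps_zero (k := kp) (m := mp) (by omega)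
  have e2 := eps_ge k m
  have kkp : (kp : ℤ) = (2 : ℤ) := by omega
  have kmp : (mp : ℤ) = (4*(x:ℤ) + 4*(y:ℤ) + 2*(z:ℤ) + 6 : ℤ) := by omega
  have kt : (t : ℤ) = (2*(x:ℤ) + 2 : ℤ) := by omega
  have ks : (s : ℤ) = (2*(x:ℤ) + 2*(y:ℤ) + 3 : ℤ) := by omega
  have kk : (k : ℤ) = (3 : ℤ) := by omega
  have km : (m : ℤ) = (6*(x:ℤ) + 4*(y:ℤ) + 2*(z:ℤ) + 7 : ℤ) := by omega
  have ka : (a : ℤ) = (2*(x:ℤ) + 2 : ℤ) := by omega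
  have kb : (b : ℤ) = (0 : ℤ) := by omega
  have p : (0 : ℤ) ≤ (10*(x:ℤ)^3 + 36*(x:ℤ)^2*(y:ℤ) + 18*(x:ℤ)^2*(z:ℤ) + 24*(x:ℤ)*(y:ℤ)^2 + 24*(x:ℤ)*(y:ℤ)*(z:ℤ) + 6*(x:ℤ)*(z:ℤ)^2 + 57*(x:ℤ)^2 + 108*(x:ℤ)*(y:ℤ) + 42*(x:ℤ)*(z:ℤ) + 12*(y:ℤ)^2 + 12*(y:ℤ)*(z:ℤ) + 3*(z:ℤ)^2 + 71*(x:ℤ) + 54*(y:ℤ) + 15*(z:ℤ) + 24 : ℤ) := by positivity
  unfold B1ok
  rw [T2_pos m (by omega), T2_pos mp (by omega)]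
  simp only [d1, d2, d3, d4, d5, kkp, kmp, kt, ks, kk, km, ka, kb]
  linarith

lemma b1leaf94 (kp mp t s k m g1 g2 a b x y z u : ℕ) (hkp : kp = 2) (hmp : mp = 4*x + 4*y + 2*z + 7) (ht : t = 2*x + 2) (hs : s = 2*x + 2*y + 3) (hk : k = 3) (hm : m = 6*x + 4*y + 2*z + 8) (ha : a = 2*x + 2) (hb : b = 0) :
    B1ok kp mp t s k m g1 g2 a b (D (mp + kp)) := by
  have d1 := D_od (mp) (2*(x:ℤ) + 2*(y:ℤ) + (z:ℤ) + 3 : ℤ) (by omega)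
  have d2 := D_ev (m) (3*(x:ℤ) + 2*(y:ℤ) + (z:ℤ) + 4 : ℤ) (by omega)
  have d3 := hf_od (mp) (2*(x:ℤ) + 2*(y:ℤ) + (z:ℤ) + 3 : ℤ) (by omega)
  have d4 := hf_ev (m) (3*(x:ℤ) + 2*(y:ℤ) + (z:ℤ) + 4 : ℤ) (by omega)
  have d5 := D_od (mp + kp) (2*(x:ℤ) + 2*(y:ℤ) + (z:ℤ) + 4 : ℤ) (by omega)
  have c1 := cc_nonneg g2
  have c2 := D_nonneg g1
  have e1 := eps_zero (k := kp) (m := mp) (by omega)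
  have e2 := eps_ge k m
  have kkp : (kp : ℤ) = (2 : ℤ) := by omega
  have kmp : (mp : ℤ) = (4*(x:ℤ) + 4*(y:ℤ) + 2*(z:ℤ) + 7 : ℤ) := by omega
  have kt : (t : ℤ) = (2*(x:ℤ) + 2 : ℤ) := by omega
  have ks : (s : ℤ) = (2*(x:ℤ) + 2*(y:ℤ) + 3 : ℤ) := by omega
  have kk : (k : ℤ) = (3 : ℤ) := by omega
  have km : (m : ℤ) = (6*(x:ℤ) + 4*(y:ℤ) + 2*(z:ℤ) + 8 : ℤ) := by omega
  have ka : (a : ℤ) = (2*(x:ℤ) + 2 : ℤ) := by omega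
  have kb : (b : ℤ) = (0 : ℤ) := by omega
  have p : (0 : ℤ) ≤ (10*(x:ℤ)^3 + 36*(x:ℤ)^2*(y:ℤ) + 18*(x:ℤ)^2*(z:ℤ) + 24*(x:ℤ)*(y:ℤ)^2 + 24*(x:ℤ)*(y:ℤ)*(z:ℤ) + 6*(x:ℤ)*(z:ℤ)^2 + 66*(x:ℤ)^2 + 120*(x:ℤ)*(y:ℤ) + 48*(x:ℤ)*(z:ℤ) + 12*(y:ℤ)^2 + 12*(y:ℤ)*(z:ℤ) + 3*(z:ℤ)^2 + 104*(x:ℤ) + 66*(y:ℤ) + 21*(z:ℤ) + 48 : ℤ) := by positivity
  unfold B1ok
  rw [T2_pos m (by omega), T2_pos mp (by omega)]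
  simp only [d1, d2, d3, d4, d5, kkp, kmp, kt, ks, kk, km, ka, kb]
  linarith

lemma b1leaf95 (kp mp t s k m g1 g2 a b x y z u : ℕ) (hkp : kp = 2) (hmp : mp = 4*x + 4*y + 2*z + 6) (ht : t = 2*x + 3) (hs : s = 2*x + 2*y + 3) (hk : k = 3) (hm : m = 6*x + 4*y + 2*z + 8) (ha : a = 2*x + 3) (hb : b = 0) :
    B1ok kp mp t s k m g1 g2 a b (D (mp + kp)) := by
  have d1 := D_ev (mp) (2*(x:ℤ) + 2*(y:ℤ) + (z:ℤ) + 3 : ℤ) (by omega)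
  have d2 := D_ev (m) (3*(x:ℤ) + 2*(y:ℤ) + (z:ℤ) + 4 : ℤ) (by omega)
  have d3 := hf_ev (mp) (2*(x:ℤ) + 2*(y:ℤ) + (z:ℤ) + 3 : ℤ) (by omega)
  have d4 := hf_ev (m) (3*(x:ℤ) + 2*(y:ℤ) + (z:ℤ) + 4 : ℤ) (by omega)
  have d5 := D_ev (mp + kp) (2*(x:ℤ) + 2*(y:ℤ) + (z:ℤ) + 4 : ℤ) (by omega)
  have c1 := cc_nonneg g2
  have c2 := D_nonneg g1
  have e1 := eps_zero (k := kp) (m := mp) (by omega)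
  have e2 := eps_ge k m
  have kkp : (kp : ℤ) = (2 : ℤ) := by omega
  have kmp : (mp : ℤ) = (4*(x:ℤ) + 4*(y:ℤ) + 2*(z:ℤ) + 6 : ℤ) := by omega
  have kt : (t : ℤ) = (2*(x:ℤ) + 3 : ℤ) := by omega
  have ks : (s : ℤ) = (2*(x:ℤ) + 2*(y:ℤ) + 3 : ℤ) := by omega
  have kk : (k : ℤ) = (3 : ℤ) := by omega
  have km : (m : ℤ) = (6*(x:ℤ) + 4*(y:ℤ) + 2*(z:ℤ) + 8 : ℤ) := by omega
  have ka : (a : ℤ) = (2*(x:ℤ) + 3 : ℤ) := by omega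
  have kb : (b : ℤ) = (0 : ℤ) := by omega
  have p : (0 : ℤ) ≤ (10*(x:ℤ)^3 + 36*(x:ℤ)^2*(y:ℤ) + 18*(x:ℤ)^2*(z:ℤ) + 24*(x:ℤ)*(y:ℤ)^2 + 24*(x:ℤ)*(y:ℤ)*(z:ℤ) + 6*(x:ℤ)*(z:ℤ)^2 + 54*(x:ℤ)^2 + 120*(x:ℤ)*(y:ℤ) + 48*(x:ℤ)*(z:ℤ) + 24*(y:ℤ)^2 + 24*(y:ℤ)*(z:ℤ) + 6*(z:ℤ)^2 + 74*(x:ℤ) + 96*(y:ℤ) + 30*(z:ℤ) + 30 : ℤ) := by positivity
  unfold B1ok
  rw [T2_pos m (by omega), T2_pos mp (by omega)]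
  simp only [d1, d2, d3, d4, d5, kkp, kmp, kt, ks, kk, km, ka, kb]
  linarith

lemma b1leaf96 (kp mp t s k m g1 g2 a b x y z u : ℕ) (hkp : kp = 2) (hmp : mp = 4*x + 4*y + 2*z + 7) (ht : t = 2*x + 3) (hs : s = 2*x + 2*y + 3) (hk : k = 3) (hm : m = 6*x + 4*y + 2*z + 9) (ha : a = 2*x + 3) (hb : b = 0) :
    B1ok kp mp t s k m g1 g2 a b (D (mp + kp)) := by
  have d1 := D_od (mp) (2*(x:ℤ) + 2*(y:ℤ) + (z:ℤ) + 3 : ℤ) (by omega)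
  have d2 := D_od (m) (3*(x:ℤ) + 2*(y:ℤ) + (z:ℤ) + 4 : ℤ) (by omega)
  have d3 := hf_od (mp) (2*(x:ℤ) + 2*(y:ℤ) + (z:ℤ) + 3 : ℤ) (by omega)
  have d4 := hf_od (m) (3*(x:ℤ) + 2*(y:ℤ) + (z:ℤ) + 4 : ℤ) (by omega)
  have d5 := D_od (mp + kp) (2*(x:ℤ) + 2*(y:ℤ) + (z:ℤ) + 4 : ℤ) (by omega)
  have c1 := cc_nonneg g2
  have c2 := D_nonneg g1
  have e1 := eps_zero (k := kp) (m := mp) (by omega)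
  have e2 := eps_ge k m
  have kkp : (kp : ℤ) = (2 : ℤ) := by omega
  have kmp : (mp : ℤ) = (4*(x:ℤ) + 4*(y:ℤ) + 2*(z:ℤ) + 7 : ℤ) := by omega
  have kt : (t : ℤ) = (2*(x:ℤ) + 3 : ℤ) := by omega
  have ks : (s : ℤ) = (2*(x:ℤ) + 2*(y:ℤ) + 3 : ℤ) := by omega
  have kk : (k : ℤ) = (3 : ℤ) := by omega
  have km : (m : ℤ) = (6*(x:ℤ) + 4*(y:ℤ) + 2*(z:ℤ) + 9 : ℤ) := by omega
  have ka : (a : ℤ) = (2*(x:ℤ) + 3 : ℤ) := by omega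
  have kb : (b : ℤ) = (0 : ℤ) := by omega
  have p : (0 : ℤ) ≤ (10*(x:ℤ)^3 + 36*(x:ℤ)^2*(y:ℤ) + 18*(x:ℤ)^2*(z:ℤ) + 24*(x:ℤ)*(y:ℤ)^2 + 24*(x:ℤ)*(y:ℤ)*(z:ℤ) + 6*(x:ℤ)*(z:ℤ)^2 + 63*(x:ℤ)^2 + 132*(x:ℤ)*(y:ℤ) + 54*(x:ℤ)*(z:ℤ) + 24*(y:ℤ)^2 + 24*(y:ℤ)*(z:ℤ) + 6*(z:ℤ)^2 + 101*(x:ℤ) + 108*(y:ℤ) + 36*(z:ℤ) + 48 : ℤ) := by positivity
  unfold B1ok
  rw [T2_pos m (by omega), T2_pos mp (by omega)]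
  simp only [d1, d2, d3, d4, d5, kkp, kmp, kt, ks, kk, km, ka, kb]
  linarith

lemma b1leaf97 (kp mp t s k m g1 g2 a b x y z u : ℕ) (hkp : kp = 2) (hmp : mp = 4*x + 4*y + 2*z + 8) (ht : t = 2*x + 3) (hs : s = 2*x + 2*y + 4) (hk : k = 3) (hm : m = 6*x + 4*y + 2*z + 10) (ha : a = 2*x + 3) (hb : b = 0) :
    B1ok kp mp t s k m g1 g2 a b (D (mp + kp)) := by
  have d1 := D_ev (mp) (2*(x:ℤ) + 2*(y:ℤ) + (z:ℤ) + 4 : ℤ) (by omega)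
  have d2 := D_ev (m) (3*(x:ℤ) + 2*(y:ℤ) + (z:ℤ) + 5 : ℤ) (by omega)
  have d3 := hf_ev (mp) (2*(x:ℤ) + 2*(y:ℤ) + (z:ℤ) + 4 : ℤ) (by omega)
  have d4 := hf_ev (m) (3*(x:ℤ) + 2*(y:ℤ) + (z:ℤ) + 5 : ℤ) (by omega)
  have d5 := D_ev (mp + kp) (2*(x:ℤ) + 2*(y:ℤ) + (z:ℤ) + 5 : ℤ) (by omega)
  have c1 := cc_nonneg g2
  have c2 := D_nonneg g1
  have e1 := eps_zero (k := kp) (m := mp) (by omega)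
  have e2 := eps_ge k m
  have kkp : (kp : ℤ) = (2 : ℤ) := by omega
  have kmp : (mp : ℤ) = (4*(x:ℤ) + 4*(y:ℤ) + 2*(z:ℤ) + 8 : ℤ) := by omega
  have kt : (t : ℤ) = (2*(x:ℤ) + 3 : ℤ) := by omega
  have ks : (s : ℤ) = (2*(x:ℤ) + 2*(y:ℤ) + 4 : ℤ) := by omega
  have kk : (k : ℤ) = (3 : ℤ) := by omega
  have km : (m : ℤ) = (6*(x:ℤ) + 4*(y:ℤ) + 2*(z:ℤ) + 10 : ℤ) := by omega
  have ka : (a : ℤ) = (2*(x:ℤ) + 3 : ℤ) := by omega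
  have kb : (b : ℤ) = (0 : ℤ) := by omega
  have p : (0 : ℤ) ≤ (10*(x:ℤ)^3 + 36*(x:ℤ)^2*(y:ℤ) + 18*(x:ℤ)^2*(z:ℤ) + 24*(x:ℤ)*(y:ℤ)^2 + 24*(x:ℤ)*(y:ℤ)*(z:ℤ) + 6*(x:ℤ)*(z:ℤ)^2 + 72*(x:ℤ)^2 + 144*(x:ℤ)*(y:ℤ) + 60*(x:ℤ)*(z:ℤ) + 24*(y:ℤ)^2 + 24*(y:ℤ)*(z:ℤ) + 6*(z:ℤ)^2 + 140*(x:ℤ) + 120*(y:ℤ) + 42*(z:ℤ) + 84 : ℤ) := by positivity
  unfold B1ok
  rw [T2_pos m (by omega), T2_pos mp (by omega)]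
  simp only [d1, d2, d3, d4, d5, kkp, kmp, kt, ks, kk, km, ka, kb]
  linarith

lemma b1leaf98 (kp mp t s k m g1 g2 a b x y z u : ℕ) (hkp : kp = 2) (hmp : mp = 4*x + 4*y + 2*z + 9) (ht : t = 2*x + 3) (hs : s = 2*x + 2*y + 4) (hk : k = 3) (hm : m = 6*x + 4*y + 2*z + 11) (ha : a = 2*x + 3) (hb : b = 0) :
    B1ok kp mp t s k m g1 g2 a b (D (mp + kp)) := by
  have d1 := D_od (mp) (2*(x:ℤ) + 2*(y:ℤ) + (z:ℤ) + 4 : ℤ) (by omega)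
  have d2 := D_od (m) (3*(x:ℤ) + 2*(y:ℤ) + (z:ℤ) + 5 : ℤ) (by omega)
  have d3 := hf_od (mp) (2*(x:ℤ) + 2*(y:ℤ) + (z:ℤ) + 4 : ℤ) (by omega)
  have d4 := hf_od (m) (3*(x:ℤ) + 2*(y:ℤ) + (z:ℤ) + 5 : ℤ) (by omega)
  have d5 := D_od (mp + kp) (2*(x:ℤ) + 2*(y:ℤ) + (z:ℤ) + 5 : ℤ) (by omega)
  have c1 := cc_nonneg g2
  have c2 := D_nonneg g1
  have e1 := eps_zero (k := kp) (m := mp) (by omega)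
  have e2 := eps_ge k m
  have kkp : (kp : ℤ) = (2 : ℤ) := by omega
  have kmp : (mp : ℤ) = (4*(x:ℤ) + 4*(y:ℤ) + 2*(z:ℤ) + 9 : ℤ) := by omega
  have kt : (t : ℤ) = (2*(x:ℤ) + 3 : ℤ) := by omega
  have ks : (s : ℤ) = (2*(x:ℤ) + 2*(y:ℤ) + 4 : ℤ) := by omega
  have kk : (k : ℤ) = (3 : ℤ) := by omega
  have km : (m : ℤ) = (6*(x:ℤ) + 4*(y:ℤ) + 2*(z:ℤ) + 11 : ℤ) := by omega
  have ka : (a : ℤ) = (2*(x:ℤ) + 3 : ℤ) := by omega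
  have kb : (b : ℤ) = (0 : ℤ) := by omega
  have p : (0 : ℤ) ≤ (10*(x:ℤ)^3 + 36*(x:ℤ)^2*(y:ℤ) + 18*(x:ℤ)^2*(z:ℤ) + 24*(x:ℤ)*(y:ℤ)^2 + 24*(x:ℤ)*(y:ℤ)*(z:ℤ) + 6*(x:ℤ)*(z:ℤ)^2 + 81*(x:ℤ)^2 + 156*(x:ℤ)*(y:ℤ) + 66*(x:ℤ)*(z:ℤ) + 24*(y:ℤ)^2 + 24*(y:ℤ)*(z:ℤ) + 6*(z:ℤ)^2 + 173*(x:ℤ) + 132*(y:ℤ) + 48*(z:ℤ) + 108 : ℤ) := by positivity
  unfold B1ok
  rw [T2_pos m (by omega), T2_pos mp (by omega)]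
  simp only [d1, d2, d3, d4, d5, kkp, kmp, kt, ks, kk, km, ka, kb]
  linarith

lemma B1_a2_ii (kp mp t s : ℕ) (hk : kp = 2) (h3 : 3 ≤ mp) (ht : 2 ≤ t) (hs : 1 ≤ s) (hsm : 2 * s ≤ mp) (hc : s + 1 ≤ t) :
    B1ok kp mp t s (kp + 1) (mp + t - 1) (t - s) (t - s - 1) ((t + s) / 2) (t - (t + s) / 2) (D (mp + kp)) := by
  obtain ⟨x, hx | hx⟩ : ∃ x : ℕ, s = 2 * x + 1 ∨ s = 2 * x + 2 := ⟨(s - 1) / 2, by omega⟩ <;>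
  obtain ⟨y, hy | hy⟩ : ∃ y : ℕ, t = s + 1 + 2 * y ∨ t = s + 1 + 2 * y + 1 := ⟨(t - s - 1) / 2, by omega⟩ <;>
  obtain ⟨z, hz | hz⟩ : ∃ z : ℕ, mp = 2 * s + 2 * z ∨ mp = 2 * s + 2 * z + 1 := ⟨(mp - 2 * s) / 2, by omega⟩
  · rcases x with _ | x
    · rcases y with _ | y
      · rcases z with _ | z
        · omega
        · rcases z with _ | z
          · exact b1leaf79 _ _ _ _ _ _ _ _ _ _ 0 0 0 0 (by omega) (by omega) (by omega) (by omega) (by omega) (by omega) (by omega) (by omega) (by omega) (by omega)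
          · exact b1leaf80 _ _ _ _ _ _ _ _ _ _ 0 0 z 0 (by omega) (by omega) (by omega) (by omega) (by omega) (by omega) (by omega) (by omega) (by omega) (by omega)
      · rcases z with _ | z
        · omega
        · exact b1leaf81 _ _ _ _ _ _ _ _ _ _ 0 y z 0 (by omega) (by omega) (by omega) (by omega) (by omega) (by omega) (by omega) (by omega) (by omega) (by omega)
    · exact b1leaf82 _ _ _ _ _ _ _ _ _ _ x y z 0 (by omega) (by omega) (by omega) (by omega) (by omega) (by omega) (by omega) (by omega) (by omega) (by omega)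
  · exact b1leaf83 _ _ _ _ _ _ _ _ _ _ x y z 0 (by omega) (by omega) (by omega) (by omega) (by omega) (by omega) (by omega) (by omega) (by omega) (by omega)
  · rcases x with _ | x
    · rcases z with _ | z
      · omega
      · exact b1leaf84 _ _ _ _ _ _ _ _ _ _ 0 y z 0 (by omega) (by omega) (by omega) (by omega) (by omega) (by omega) (by omega) (by omega) (by omega) (by omega)
    · exact b1leaf85 _ _ _ _ _ _ _ _ _ _ x y z 0 (by omega) (by omega) (by omega) (by omega) (by omega) (by omega) (by omega) (by omega) (by omega) (by omega)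
  · exact b1leaf86 _ _ _ _ _ _ _ _ _ _ x y z 0 (by omega) (by omega) (by omega) (by omega) (by omega) (by omega) (by omega) (by omega) (by omega) (by omega)
  · exact b1leaf87 _ _ _ _ _ _ _ _ _ _ x y z 0 (by omega) (by omega) (by omega) (by omega) (by omega) (by omega) (by omega) (by omega) (by omega) (by omega)
  · exact b1leaf88 _ _ _ _ _ _ _ _ _ _ x y z 0 (by omega) (by omega) (by omega) (by omega) (by omega) (by omega) (by omega) (by omega) (by omega) (by omega)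
  · exact b1leaf89 _ _ _ _ _ _ _ _ _ _ x y z 0 (by omega) (by omega) (by omega) (by omega) (by omega) (by omega) (by omega) (by omega) (by omega) (by omega)
  · exact b1leaf90 _ _ _ _ _ _ _ _ _ _ x y z 0 (by omega) (by omega) (by omega) (by omega) (by omega) (by omega) (by omega) (by omega) (by omega) (by omega)

lemma B1_a2_i (kp mp t s : ℕ) (hk : kp = 2) (h3 : 3 ≤ mp) (ht : 2 ≤ t) (hs : 1 ≤ s) (hsm : 2 * s ≤ mp) (hc : t ≤ s) :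
    B1ok kp mp t s (kp + 1) (mp + t - 1) (t - s) (t - s - 1) t 0 (D (mp + kp)) := by
  obtain ⟨x, hx | hx⟩ : ∃ x : ℕ, t = 2 * x + 2 ∨ t = 2 * x + 3 := ⟨(t - 2) / 2, by omega⟩ <;>
  obtain ⟨y, hy | hy⟩ : ∃ y : ℕ, s = t + 2 * y ∨ s = t + 2 * y + 1 := ⟨(s - t) / 2, by omega⟩ <;>
  obtain ⟨z, hz | hz⟩ : ∃ z : ℕ, mp = 2 * s + 2 * z ∨ mp = 2 * s + 2 * z + 1 := ⟨(mp - 2 * s) / 2, by omega⟩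
  · exact b1leaf91 _ _ _ _ _ _ _ _ _ _ x y z 0 (by omega) (by omega) (by omega) (by omega) (by omega) (by omega) (by omega) (by omega)
  · exact b1leaf92 _ _ _ _ _ _ _ _ _ _ x y z 0 (by omega) (by omega) (by omega) (by omega) (by omega) (by omega) (by omega) (by omega)
  · exact b1leaf93 _ _ _ _ _ _ _ _ _ _ x y z 0 (by omega) (by omega) (by omega) (by omega) (by omega) (by omega) (by omega) (by omega)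
  · exact b1leaf94 _ _ _ _ _ _ _ _ _ _ x y z 0 (by omega) (by omega) (by omega) (by omega) (by omega) (by omega) (by omega) (by omega)
  · exact b1leaf95 _ _ _ _ _ _ _ _ _ _ x y z 0 (by omega) (by omega) (by omega) (by omega) (by omega) (by omega) (by omega) (by omega)
  · exact b1leaf96 _ _ _ _ _ _ _ _ _ _ x y z 0 (by omega) (by omega) (by omega) (by omega) (by omega) (by omega) (by omega) (by omega)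
  · exact b1leaf97 _ _ _ _ _ _ _ _ _ _ x y z 0 (by omega) (by omega) (by omega) (by omega) (by omega) (by omega) (by omega) (by omega)
  · exact b1leaf98 _ _ _ _ _ _ _ _ _ _ x y z 0 (by omega) (by omega) (by omega) (by omega) (by omega) (by omega) (by omega) (by omega)

end Pool.Agent.P.MP_2668aa_co
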