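import Pool.Agent.P.MP_2668aa_co.Num

/-! Generated polynomial inequalities. -/

set_option linter.unusedVariables false
set_option linter.unusedSimpArgs false
set_option linter.style.longLine false

namespace Pool.Agent.P.MP_2668aa_co

lemma b1leaf99 (kp mp t s k m g1 g2 a b x y z u : ℕ) (hkp : kp = u + 3) (hmp : mp = 4) (ht : t = 2) (hs : s = 1) (hk : k = u + 4) (hm : m = 5) (ha : a = 1) (hb : b = 1) (hg1 : g1 = 1) (hg2 : g2 = 0) :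
    B1ok kp mp t s k m g1 g2 a b (D (mp + 2) + 2 * (u:ℤ) + 2) := by
  have d1 := D_ev (mp) (2 : ℤ) (by omega)
  have d2 := D_od (m) (2 : ℤ) (by omega)
  have d3 := hf_ev (mp) (2 : ℤ) (by omega)
  have d4 := hf_od (m) (2 : ℤ) (by omega)
  have d5 := D_ev (mp + 2) (3 : ℤ) (by omega)
  have c1 := cc_ev (g2) (0 : ℤ) (by omega)
  have c2 := D_od (g1) (0 : ℤ) (by omega)
  have e1 := eps_zero (k := kp) (m := mp) (by omega)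
  have e2 := eps_one (k := k) (m := m) (by omega)
  have kkp : (kp : ℤ) = ((u:ℤ) + 3 : ℤ) := by omega
  have kmp : (mp : ℤ) = (4 : ℤ) := by omega
  have kt : (t : ℤ) = (2 : ℤ) := by omega
  have ks : (s : ℤ) = (1 : ℤ) := by omega
  have kk : (k : ℤ) = ((u:ℤ) + 4 : ℤ) := by omega
  have km : (m : ℤ) = (5 : ℤ) := by omega
  have ka : (a : ℤ) = (1 : ℤ) := by omega
  have kb : (b : ℤ) = (1 : ℤ) := by omega
  have p : (0 : ℤ) ≤ (0 : ℤ) := by positivity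
  unfold B1ok
  rw [T2_pos m (by omega), T2_pos mp (by omega)]
  simp only [d1, d2, d3, d4, d5, kkp, kmp, kt, ks, kk, km, ka, kb]
  linarith

lemma b1leaf100 (kp mp t s k m g1 g2 a b x y z u : ℕ) (hkp : kp = u + 3) (hmp : mp = 2*z + 6) (ht : t = 2) (hs : s = 1) (hk : k = u + 4) (hm : m = 2*z + 7) (ha : a = 1) (hb : b = 1) (hg1 : g1 = 1) (hg2 : g2 = 0) :
    B1ok kp mp t s k m g1 g2 a b (D (mp + 2) + 2 * (u:ℤ) + 2) := by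
  have d1 := D_ev (mp) ((z:ℤ) + 3 : ℤ) (by omega)
  have d2 := D_od (m) ((z:ℤ) + 3 : ℤ) (by omega)
  have d3 := hf_ev (mp) ((z:ℤ) + 3 : ℤ) (by omega)
  have d4 := hf_od (m) ((z:ℤ) + 3 : ℤ) (by omega)
  have d5 := D_ev (mp + 2) ((z:ℤ) + 4 : ℤ) (by omega)
  have c1 := cc_ev (g2) (0 : ℤ) (by omega)
  have c2 := D_od (g1) (0 : ℤ) (by omega)
  have e1 := eps_zero (k := kp) (m := mp) (by omega)
  have e2 := eps_ge k m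
  have kkp : (kp : ℤ) = ((u:ℤ) + 3 : ℤ) := by omega
  have kmp : (mp : ℤ) = (2*(z:ℤ) + 6 : ℤ) := by omega
  have kt : (t : ℤ) = (2 : ℤ) := by omega
  have ks : (s : ℤ) = (1 : ℤ) := by omega
  have kk : (k : ℤ) = ((u:ℤ) + 4 : ℤ) := by omega
  have km : (m : ℤ) = (2*(z:ℤ) + 7 : ℤ) := by omega
  have ka : (a : ℤ) = (1 : ℤ) := by omega
  have kb : (b : ℤ) = (1 : ℤ) := by omega
  have p : (0 : ℤ) ≤ (3*(z:ℤ)^2 + 6*(z:ℤ)*(u:ℤ) + 21*(z:ℤ) + 6*(u:ℤ) + 12 : ℤ) := by positivity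
  unfold B1ok
  rw [T2_pos m (by omega), T2_pos mp (by omega)]
  simp only [d1, d2, d3, d4, d5, kkp, kmp, kt, ks, kk, km, ka, kb]
  linarith

lemma b1leaf101 (kp mp t s k m g1 g2 a b x y z u : ℕ) (hkp : kp = u + 3) (hmp : mp = 2*z + 4) (ht : t = 2*y + 4) (hs : s = 1) (hk : k = u + 4) (hm : m = 2*y + 2*z + 7) (ha : a = y + 2) (hb : b = y + 2) (hg1 : g1 = 2*y + 3) (hg2 : g2 = 2*y + 2) :
    B1ok kp mp t s k m g1 g2 a b (D (mp + 2) + 2 * (u:ℤ) + 2) := by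
  have d1 := D_ev (mp) ((z:ℤ) + 2 : ℤ) (by omega)
  have d2 := D_od (m) ((y:ℤ) + (z:ℤ) + 3 : ℤ) (by omega)
  have d3 := hf_ev (mp) ((z:ℤ) + 2 : ℤ) (by omega)
  have d4 := hf_od (m) ((y:ℤ) + (z:ℤ) + 3 : ℤ) (by omega)
  have d5 := D_ev (mp + 2) ((z:ℤ) + 3 : ℤ) (by omega)
  have c1 := cc_ev (g2) ((y:ℤ) + 1 : ℤ) (by omega)
  have c2 := D_od (g1) ((y:ℤ) + 1 : ℤ) (by omega)
  have e1 := eps_zero (k := kp) (m := mp) (by omega)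
  have e2 := eps_ge k m
  have kkp : (kp : ℤ) = ((u:ℤ) + 3 : ℤ) := by omega
  have kmp : (mp : ℤ) = (2*(z:ℤ) + 4 : ℤ) := by omega
  have kt : (t : ℤ) = (2*(y:ℤ) + 4 : ℤ) := by omega
  have ks : (s : ℤ) = (1 : ℤ) := by omega
  have kk : (k : ℤ) = ((u:ℤ) + 4 : ℤ) := by omega
  have km : (m : ℤ) = (2*(y:ℤ) + 2*(z:ℤ) + 7 : ℤ) := by omega
  have ka : (a : ℤ) = ((y:ℤ) + 2 : ℤ) := by omega
  have kb : (b : ℤ) = ((y:ℤ) + 2 : ℤ) := by omega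
  have p : (0 : ℤ) ≤ (6*(y:ℤ)^2*(z:ℤ) + 6*(y:ℤ)*(z:ℤ)^2 + 12*(y:ℤ)*(z:ℤ)*(u:ℤ) + 3*(y:ℤ)^2 + 54*(y:ℤ)*(z:ℤ) + 6*(y:ℤ)*(u:ℤ) + 9*(z:ℤ)^2 + 18*(z:ℤ)*(u:ℤ) + 21*(y:ℤ) + 63*(z:ℤ) + 6*(u:ℤ) + 12 : ℤ) := by positivity
  unfold B1ok
  rw [T2_pos m (by omega), T2_pos mp (by omega)]
  simp only [d1, d2, d3, d4, d5, kkp, kmp, kt, ks, kk, km, ka, kb]
  linarith

lemma b1leaf102 (kp mp t s k m g1 g2 a b x y z u : ℕ) (hkp : kp = u + 3) (hmp : mp = 3) (ht : t = 2*y + 2) (hs : s = 1) (hk : k = u + 4) (hm : m = 2*y + 4) (ha : a = y + 1) (hb : b = y + 1) (hg1 : g1 = 2*y + 1) (hg2 : g2 = 2*y) :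
    B1ok kp mp t s k m g1 g2 a b (D (mp + 2) + 2 * (u:ℤ) + 2) := by
  have d1 := D_od (mp) (1 : ℤ) (by omega)
  have d2 := D_ev (m) ((y:ℤ) + 2 : ℤ) (by omega)
  have d3 := hf_od (mp) (1 : ℤ) (by omega)
  have d4 := hf_ev (m) ((y:ℤ) + 2 : ℤ) (by omega)
  have d5 := D_od (mp + 2) (2 : ℤ) (by omega)
  have c1 := cc_ev (g2) ((y:ℤ) : ℤ) (by omega)
  have c2 := D_od (g1) ((y:ℤ) : ℤ) (by omega)
  have e1 := eps_zero (k := kp) (m := mp) (by omega)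
  have e2 := eps_ge k m
  have kkp : (kp : ℤ) = ((u:ℤ) + 3 : ℤ) := by omega
  have kmp : (mp : ℤ) = (3 : ℤ) := by omega
  have kt : (t : ℤ) = (2*(y:ℤ) + 2 : ℤ) := by omega
  have ks : (s : ℤ) = (1 : ℤ) := by omega
  have kk : (k : ℤ) = ((u:ℤ) + 4 : ℤ) := by omega
  have km : (m : ℤ) = (2*(y:ℤ) + 4 : ℤ) := by omega
  have ka : (a : ℤ) = ((y:ℤ) + 1 : ℤ) := by omega
  have kb : (b : ℤ) = ((y:ℤ) + 1 : ℤ) := by omega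
  have p : (0 : ℤ) ≤ (0 : ℤ) := by positivity
  unfold B1ok
  rw [T2_pos m (by omega), T2_pos mp (by omega)]
  simp only [d1, d2, d3, d4, d5, kkp, kmp, kt, ks, kk, km, ka, kb]
  linarith

lemma b1leaf103 (kp mp t s k m g1 g2 a b x y z u : ℕ) (hkp : kp = u + 3) (hmp : mp = 2*z + 5) (ht : t = 2*y + 2) (hs : s = 1) (hk : k = u + 4) (hm : m = 2*y + 2*z + 6) (ha : a = y + 1) (hb : b = y + 1) (hg1 : g1 = 2*y + 1) (hg2 : g2 = 2*y) :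
    B1ok kp mp t s k m g1 g2 a b (D (mp + 2) + 2 * (u:ℤ) + 2) := by
  have d1 := D_od (mp) ((z:ℤ) + 2 : ℤ) (by omega)
  have d2 := D_ev (m) ((y:ℤ) + (z:ℤ) + 3 : ℤ) (by omega)
  have d3 := hf_od (mp) ((z:ℤ) + 2 : ℤ) (by omega)
  have d4 := hf_ev (m) ((y:ℤ) + (z:ℤ) + 3 : ℤ) (by omega)
  have d5 := D_od (mp + 2) ((z:ℤ) + 3 : ℤ) (by omega)
  have c1 := cc_ev (g2) ((y:ℤ) : ℤ) (by omega)
  have c2 := D_od (g1) ((y:ℤ) : ℤ) (by omega)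
  have e1 := eps_le kp mp
  have e2 := eps_ge k m
  have kkp : (kp : ℤ) = ((u:ℤ) + 3 : ℤ) := by omega
  have kmp : (mp : ℤ) = (2*(z:ℤ) + 5 : ℤ) := by omega
  have kt : (t : ℤ) = (2*(y:ℤ) + 2 : ℤ) := by omega
  have ks : (s : ℤ) = (1 : ℤ) := by omega
  have kk : (k : ℤ) = ((u:ℤ) + 4 : ℤ) := by omega
  have km : (m : ℤ) = (2*(y:ℤ) + 2*(z:ℤ) + 6 : ℤ) := by omega
  have ka : (a : ℤ) = ((y:ℤ) + 1 : ℤ) := by omega
  have kb : (b : ℤ) = ((y:ℤ) + 1 : ℤ) := by omega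
  have p : (0 : ℤ) ≤ (6*(y:ℤ)^2*(z:ℤ) + 6*(y:ℤ)*(z:ℤ)^2 + 12*(y:ℤ)*(z:ℤ)*(u:ℤ) + 6*(y:ℤ)^2 + 48*(y:ℤ)*(z:ℤ) + 12*(y:ℤ)*(u:ℤ) + 3*(z:ℤ)^2 + 6*(z:ℤ)*(u:ℤ) + 42*(y:ℤ) + 21*(z:ℤ) + 6*(u:ℤ) + 12 : ℤ) := by positivity
  unfold B1ok
  rw [T2_pos m (by omega), T2_pos mp (by omega)]
  simp only [d1, d2, d3, d4, d5, kkp, kmp, kt, ks, kk, km, ka, kb]
  linarith

lemma b1leaf104 (kp mp t s k m g1 g2 a b x y z u : ℕ) (hkp : kp = u + 3) (hmp : mp = 2*z + 4) (ht : t = 2*y + 3) (hs : s = 1) (hk : k = u + 4) (hm : m = 2*y + 2*z + 6) (ha : a = y + 2) (hb : b = y + 1) (hg1 : g1 = 2*y + 2) (hg2 : g2 = 2*y + 1) :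
    B1ok kp mp t s k m g1 g2 a b (D (mp + 2) + 2 * (u:ℤ) + 2) := by
  have d1 := D_ev (mp) ((z:ℤ) + 2 : ℤ) (by omega)
  have d2 := D_ev (m) ((y:ℤ) + (z:ℤ) + 3 : ℤ) (by omega)
  have d3 := hf_ev (mp) ((z:ℤ) + 2 : ℤ) (by omega)
  have d4 := hf_ev (m) ((y:ℤ) + (z:ℤ) + 3 : ℤ) (by omega)
  have d5 := D_ev (mp + 2) ((z:ℤ) + 3 : ℤ) (by omega)
  have c1 := cc_od (g2) ((y:ℤ) : ℤ) (by omega)
  have c2 := D_ev (g1) ((y:ℤ) + 1 : ℤ) (by omega)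
  have e1 := eps_zero (k := kp) (m := mp) (by omega)
  have e2 := eps_ge k m
  have kkp : (kp : ℤ) = ((u:ℤ) + 3 : ℤ) := by omega
  have kmp : (mp : ℤ) = (2*(z:ℤ) + 4 : ℤ) := by omega
  have kt : (t : ℤ) = (2*(y:ℤ) + 3 : ℤ) := by omega
  have ks : (s : ℤ) = (1 : ℤ) := by omega
  have kk : (k : ℤ) = ((u:ℤ) + 4 : ℤ) := by omega
  have km : (m : ℤ) = (2*(y:ℤ) + 2*(z:ℤ) + 6 : ℤ) := by omega
  have ka : (a : ℤ) = ((y:ℤ) + 2 : ℤ) := by omega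
  have kb : (b : ℤ) = ((y:ℤ) + 1 : ℤ) := by omega
  have p : (0 : ℤ) ≤ (6*(y:ℤ)^2*(z:ℤ) + 6*(y:ℤ)*(z:ℤ)^2 + 12*(y:ℤ)*(z:ℤ)*(u:ℤ) + 3*(y:ℤ)^2 + 48*(y:ℤ)*(z:ℤ) + 6*(y:ℤ)*(u:ℤ) + 6*(z:ℤ)^2 + 12*(z:ℤ)*(u:ℤ) + 21*(y:ℤ) + 42*(z:ℤ) + 6*(u:ℤ) + 18 : ℤ) := by positivity
  unfold B1ok
  rw [T2_pos m (by omega), T2_pos mp (by omega)]
  simp only [d1, d2, d3, d4, d5, kkp, kmp, kt, ks, kk, km, ka, kb]
  linarith

lemma b1leaf105 (kp mp t s k m g1 g2 a b x y z u : ℕ) (hkp : kp = u + 3) (hmp : mp = 3) (ht : t = 2*y + 3) (hs : s = 1) (hk : k = u + 4) (hm : m = 2*y + 5) (ha : a = y + 2) (hb : b = y + 1) (hg1 : g1 = 2*y + 2) (hg2 : g2 = 2*y + 1) :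
    B1ok kp mp t s k m g1 g2 a b (D (mp + 2) + 2 * (u:ℤ) + 2) := by
  have d1 := D_od (mp) (1 : ℤ) (by omega)
  have d2 := D_od (m) ((y:ℤ) + 2 : ℤ) (by omega)
  have d3 := hf_od (mp) (1 : ℤ) (by omega)
  have d4 := hf_od (m) ((y:ℤ) + 2 : ℤ) (by omega)
  have d5 := D_od (mp + 2) (2 : ℤ) (by omega)
  have c1 := cc_od (g2) ((y:ℤ) : ℤ) (by omega)
  have c2 := D_ev (g1) ((y:ℤ) + 1 : ℤ) (by omega)
  have e1 := eps_zero (k := kp) (m := mp) (by omega)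
  have e2 := eps_ge k m
  have kkp : (kp : ℤ) = ((u:ℤ) + 3 : ℤ) := by omega
  have kmp : (mp : ℤ) = (3 : ℤ) := by omega
  have kt : (t : ℤ) = (2*(y:ℤ) + 3 : ℤ) := by omega
  have ks : (s : ℤ) = (1 : ℤ) := by omega
  have kk : (k : ℤ) = ((u:ℤ) + 4 : ℤ) := by omega
  have km : (m : ℤ) = (2*(y:ℤ) + 5 : ℤ) := by omega
  have ka : (a : ℤ) = ((y:ℤ) + 2 : ℤ) := by omega
  have kb : (b : ℤ) = ((y:ℤ) + 1 : ℤ) := by omega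
  have p : (0 : ℤ) ≤ (0 : ℤ) := by positivity
  unfold B1ok
  rw [T2_pos m (by omega), T2_pos mp (by omega)]
  simp only [d1, d2, d3, d4, d5, kkp, kmp, kt, ks, kk, km, ka, kb]
  linarith

lemma b1leaf106 (kp mp t s k m g1 g2 a b x y z u : ℕ) (hkp : kp = u + 3) (hmp : mp = 2*z + 5) (ht : t = 2*y + 3) (hs : s = 1) (hk : k = u + 4) (hm : m = 2*y + 2*z + 7) (ha : a = y + 2) (hb : b = y + 1) (hg1 : g1 = 2*y + 2) (hg2 : g2 = 2*y + 1) :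
    B1ok kp mp t s k m g1 g2 a b (D (mp + 2) + 2 * (u:ℤ) + 2) := by
  have d1 := D_od (mp) ((z:ℤ) + 2 : ℤ) (by omega)
  have d2 := D_od (m) ((y:ℤ) + (z:ℤ) + 3 : ℤ) (by omega)
  have d3 := hf_od (mp) ((z:ℤ) + 2 : ℤ) (by omega)
  have d4 := hf_od (m) ((y:ℤ) + (z:ℤ) + 3 : ℤ) (by omega)
  have d5 := D_od (mp + 2) ((z:ℤ) + 3 : ℤ) (by omega)
  have c1 := cc_od (g2) ((y:ℤ) : ℤ) (by omega)
  have c2 := D_ev (g1) ((y:ℤ) + 1 : ℤ) (by omega)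
  have e1 := eps_le kp mp
  have e2 := eps_ge k m
  have kkp : (kp : ℤ) = ((u:ℤ) + 3 : ℤ) := by omega
  have kmp : (mp : ℤ) = (2*(z:ℤ) + 5 : ℤ) := by omega
  have kt : (t : ℤ) = (2*(y:ℤ) + 3 : ℤ) := by omega
  have ks : (s : ℤ) = (1 : ℤ) := by omega
  have kk : (k : ℤ) = ((u:ℤ) + 4 : ℤ) := by omega
  have km : (m : ℤ) = (2*(y:ℤ) + 2*(z:ℤ) + 7 : ℤ) := by omega
  have ka : (a : ℤ) = ((y:ℤ) + 2 : ℤ) := by omega
  have kb : (b : ℤ) = ((y:ℤ) + 1 : ℤ) := by omega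
  have p : (0 : ℤ) ≤ (6*(y:ℤ)^2*(z:ℤ) + 6*(y:ℤ)*(z:ℤ)^2 + 12*(y:ℤ)*(z:ℤ)*(u:ℤ) + 6*(y:ℤ)^2 + 54*(y:ℤ)*(z:ℤ) + 12*(y:ℤ)*(u:ℤ) + 6*(z:ℤ)^2 + 12*(z:ℤ)*(u:ℤ) + 48*(y:ℤ) + 48*(z:ℤ) + 12*(u:ℤ) + 36 : ℤ) := by positivity
  unfold B1ok
  rw [T2_pos m (by omega), T2_pos mp (by omega)]
  simp only [d1, d2, d3, d4, d5, kkp, kmp, kt, ks, kk, km, ka, kb]
  linarith

lemma B1_b_ii (kp u mp t s : ℕ) (hk : kp = u + 3) (h3 : 3 ≤ mp) (ht : 2 ≤ t) (hs : s = 1) (hsm : 2 * s ≤ mp) (hc : s + 1 ≤ t) :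
    B1ok kp mp t s (kp + 1) (mp + t - 1) (t - s) (t - s - 1) ((t + s) / 2) (t - (t + s) / 2) (D (mp + 2) + 2 * (u:ℤ) + 2) := by
  obtain ⟨y, hy | hy⟩ : ∃ y : ℕ, t = s + 1 + 2 * y ∨ t = s + 1 + 2 * y + 1 := ⟨(t - s - 1) / 2, by omega⟩ <;>
  obtain ⟨z, hz | hz⟩ : ∃ z : ℕ, mp = 2 * s + 2 * z ∨ mp = 2 * s + 2 * z + 1 := ⟨(mp - 2 * s) / 2, by omega⟩
  · rcases y with _ | y
    · rcases z with _ | z
      · omega
      · rcases z with _ | z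
        · exact b1leaf99 _ _ _ _ _ _ _ _ _ _ 0 0 0 u (by omega) (by omega) (by omega) (by omega) (by omega) (by omega) (by omega) (by omega) (by omega) (by omega)
        · exact b1leaf100 _ _ _ _ _ _ _ _ _ _ 0 0 z u (by omega) (by omega) (by omega) (by omega) (by omega) (by omega) (by omega) (by omega) (by omega) (by omega)
    · rcases z with _ | z
      · omega
      · exact b1leaf101 _ _ _ _ _ _ _ _ _ _ 0 y z u (by omega) (by omega) (by omega) (by omega) (by omega) (by omega) (by omega) (by omega) (by omega) (by omega)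
  · rcases z with _ | z
    · exact b1leaf102 _ _ _ _ _ _ _ _ _ _ 0 y 0 u (by omega) (by omega) (by omega) (by omega) (by omega) (by omega) (by omega) (by omega) (by omega) (by omega)
    · exact b1leaf103 _ _ _ _ _ _ _ _ _ _ 0 y z u (by omega) (by omega) (by omega) (by omega) (by omega) (by omega) (by omega) (by omega) (by omega) (by omega)
  · rcases z with _ | z
    · omega
    · exact b1leaf104 _ _ _ _ _ _ _ _ _ _ 0 y z u (by omega) (by omega) (by omega) (by omega) (by omega) (by omega) (by omega) (by omega) (by omega) (by omega)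
  · rcases z with _ | z
    · exact b1leaf105 _ _ _ _ _ _ _ _ _ _ 0 y 0 u (by omega) (by omega) (by omega) (by omega) (by omega) (by omega) (by omega) (by omega) (by omega) (by omega)
    · exact b1leaf106 _ _ _ _ _ _ _ _ _ _ 0 y z u (by omega) (by omega) (by omega) (by omega) (by omega) (by omega) (by omega) (by omega) (by omega) (by omega)

end Pool.Agent.P.MP_2668aa_co
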