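import Pool.Agent.P.MP_2668aa_co.Num

/-! Generated polynomial inequalities. -/

set_option linter.unusedVariables false
set_option linter.unusedSimpArgs false
set_option linter.style.longLine false

namespace Pool.Agent.P.MP_2668aa_co

lemma b2leaf1 (k mp t m g a b x y z u : ℕ) (hk : k = 1) (hmp : mp = 3) (ht : t = 2*y + 3) (hm : m = 2*y + 6) (ha : a = y + 2) (hb : b = y + 1) (hg : g = 2*y) :
    B2ok k mp t m g a b (D (mp + k)) (D (mp + k)) := by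
  have d1 := D_od (mp) (1 : ℤ) (by omega)
  have d2 := D_ev (m) ((y:ℤ) + 3 : ℤ) (by omega)
  have d3 := hf_od (mp) (1 : ℤ) (by omega)
  have d4 := hf_ev (m) ((y:ℤ) + 3 : ℤ) (by omega)
  have d5 := D_ev (mp + k) (2 : ℤ) (by omega)
  have c1 := cc_ev (g) ((y:ℤ) : ℤ) (by omega)
  have e1 := eps_zero (k := k) (m := mp) (by omega)
  have e2 := eps_ge k m
  have kk : (k : ℤ) = (1 : ℤ) := by omega
  have kmp : (mp : ℤ) = (3 : ℤ) := by omega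
  have kt : (t : ℤ) = (2*(y:ℤ) + 3 : ℤ) := by omega
  have km : (m : ℤ) = (2*(y:ℤ) + 6 : ℤ) := by omega
  have ka : (a : ℤ) = ((y:ℤ) + 2 : ℤ) := by omega
  have kb : (b : ℤ) = ((y:ℤ) + 1 : ℤ) := by omega
  have p : (0 : ℤ) ≤ (6*(y:ℤ) : ℤ) := by positivity
  unfold B2ok
  rw [T2_pos m (by omega), T2_pos mp (by omega)]
  simp only [d1, d2, d3, d4, d5, kk, kmp, kt, km, ka, kb]
  linarith

lemma b2leaf2 (k mp t m g a b x y z u : ℕ) (hk : k = 1) (hmp : mp = 2*x + 5) (ht : t = 2*x + 2*y + 5) (hm : m = 4*x + 2*y + 10) (ha : a = x + y + 3) (hb : b = x + y + 2) (hg : g = 2*y) :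
    B2ok k mp t m g a b (D (mp + k)) (D (mp + k)) := by
  have d1 := D_od (mp) ((x:ℤ) + 2 : ℤ) (by omega)
  have d2 := D_ev (m) (2*(x:ℤ) + (y:ℤ) + 5 : ℤ) (by omega)
  have d3 := hf_od (mp) ((x:ℤ) + 2 : ℤ) (by omega)
  have d4 := hf_ev (m) (2*(x:ℤ) + (y:ℤ) + 5 : ℤ) (by omega)
  have d5 := D_ev (mp + k) ((x:ℤ) + 3 : ℤ) (by omega)
  have c1 := cc_ev (g) ((y:ℤ) : ℤ) (by omega)
  have e1 := eps_le k mp
  have e2 := eps_ge k m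
  have kk : (k : ℤ) = (1 : ℤ) := by omega
  have kmp : (mp : ℤ) = (2*(x:ℤ) + 5 : ℤ) := by omega
  have kt : (t : ℤ) = (2*(x:ℤ) + 2*(y:ℤ) + 5 : ℤ) := by omega
  have km : (m : ℤ) = (4*(x:ℤ) + 2*(y:ℤ) + 10 : ℤ) := by omega
  have ka : (a : ℤ) = ((x:ℤ) + (y:ℤ) + 3 : ℤ) := by omega
  have kb : (b : ℤ) = ((x:ℤ) + (y:ℤ) + 2 : ℤ) := by omega
  have p : (0 : ℤ) ≤ (10*(x:ℤ)^3 + 12*(x:ℤ)^2*(y:ℤ) + 63*(x:ℤ)^2 + 48*(x:ℤ)*(y:ℤ) + 125*(x:ℤ) + 42*(y:ℤ) + 66 : ℤ) := by positivity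
  unfold B2ok
  rw [T2_pos m (by omega), T2_pos mp (by omega)]
  simp only [d1, d2, d3, d4, d5, kk, kmp, kt, km, ka, kb]
  linarith

lemma b2leaf3 (k mp t m g a b x y z u : ℕ) (hk : k = 1) (hmp : mp = 2*x + 3) (ht : t = 2*x + 2*y + 4) (hm : m = 4*x + 2*y + 7) (ha : a = x + y + 2) (hb : b = x + y + 2) (hg : g = 2*y + 1) :
    B2ok k mp t m g a b (D (mp + k)) (D (mp + k)) := by
  have d1 := D_od (mp) ((x:ℤ) + 1 : ℤ) (by omega)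
  have d2 := D_od (m) (2*(x:ℤ) + (y:ℤ) + 3 : ℤ) (by omega)
  have d3 := hf_od (mp) ((x:ℤ) + 1 : ℤ) (by omega)
  have d4 := hf_od (m) (2*(x:ℤ) + (y:ℤ) + 3 : ℤ) (by omega)
  have d5 := D_ev (mp + k) ((x:ℤ) + 2 : ℤ) (by omega)
  have c1 := cc_od (g) ((y:ℤ) : ℤ) (by omega)
  have e1 := eps_le k mp
  have e2 := eps_ge k m
  have kk : (k : ℤ) = (1 : ℤ) := by omega
  have kmp : (mp : ℤ) = (2*(x:ℤ) + 3 : ℤ) := by omega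
  have kt : (t : ℤ) = (2*(x:ℤ) + 2*(y:ℤ) + 4 : ℤ) := by omega
  have km : (m : ℤ) = (4*(x:ℤ) + 2*(y:ℤ) + 7 : ℤ) := by omega
  have ka : (a : ℤ) = ((x:ℤ) + (y:ℤ) + 2 : ℤ) := by omega
  have kb : (b : ℤ) = ((x:ℤ) + (y:ℤ) + 2 : ℤ) := by omega
  have p : (0 : ℤ) ≤ (10*(x:ℤ)^3 + 12*(x:ℤ)^2*(y:ℤ) + 39*(x:ℤ)^2 + 24*(x:ℤ)*(y:ℤ) + 41*(x:ℤ) + 6*(y:ℤ) : ℤ) := by positivity
  unfold B2ok
  rw [T2_pos m (by omega), T2_pos mp (by omega)]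
  simp only [d1, d2, d3, d4, d5, kk, kmp, kt, km, ka, kb]
  linarith

lemma b2leaf4 (k mp t m g a b x y z u : ℕ) (hk : k = 1) (hmp : mp = 2*x + 4) (ht : t = 2*x + 2*y + 4) (hm : m = 4*x + 2*y + 8) (ha : a = x + y + 2) (hb : b = x + y + 2) (hg : g = 2*y) :
    B2ok k mp t m g a b (D (mp + k)) (D (mp + k)) := by
  have d1 := D_ev (mp) ((x:ℤ) + 2 : ℤ) (by omega)
  have d2 := D_ev (m) (2*(x:ℤ) + (y:ℤ) + 4 : ℤ) (by omega)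
  have d3 := hf_ev (mp) ((x:ℤ) + 2 : ℤ) (by omega)
  have d4 := hf_ev (m) (2*(x:ℤ) + (y:ℤ) + 4 : ℤ) (by omega)
  have d5 := D_od (mp + k) ((x:ℤ) + 2 : ℤ) (by omega)
  have c1 := cc_ev (g) ((y:ℤ) : ℤ) (by omega)
  have e1 := eps_zero (k := k) (m := mp) (by omega)
  have e2 := eps_ge k m
  have kk : (k : ℤ) = (1 : ℤ) := by omega
  have kmp : (mp : ℤ) = (2*(x:ℤ) + 4 : ℤ) := by omega
  have kt : (t : ℤ) = (2*(x:ℤ) + 2*(y:ℤ) + 4 : ℤ) := by omega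
  have km : (m : ℤ) = (4*(x:ℤ) + 2*(y:ℤ) + 8 : ℤ) := by omega
  have ka : (a : ℤ) = ((x:ℤ) + (y:ℤ) + 2 : ℤ) := by omega
  have kb : (b : ℤ) = ((x:ℤ) + (y:ℤ) + 2 : ℤ) := by omega
  have p : (0 : ℤ) ≤ (10*(x:ℤ)^3 + 12*(x:ℤ)^2*(y:ℤ) + 48*(x:ℤ)^2 + 36*(x:ℤ)*(y:ℤ) + 74*(x:ℤ) + 24*(y:ℤ) + 36 : ℤ) := by positivity
  unfold B2ok
  rw [T2_pos m (by omega), T2_pos mp (by omega)]
  simp only [d1, d2, d3, d4, d5, kk, kmp, kt, km, ka, kb]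
  linarith

lemma b2leaf5 (k mp t m g a b x y z u : ℕ) (hk : k = 1) (hmp : mp = 2*x + 4) (ht : t = 2*x + 2*y + 5) (hm : m = 4*x + 2*y + 9) (ha : a = x + y + 3) (hb : b = x + y + 2) (hg : g = 2*y + 1) :
    B2ok k mp t m g a b (D (mp + k)) (D (mp + k)) := by
  have d1 := D_ev (mp) ((x:ℤ) + 2 : ℤ) (by omega)
  have d2 := D_od (m) (2*(x:ℤ) + (y:ℤ) + 4 : ℤ) (by omega)
  have d3 := hf_ev (mp) ((x:ℤ) + 2 : ℤ) (by omega)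
  have d4 := hf_od (m) (2*(x:ℤ) + (y:ℤ) + 4 : ℤ) (by omega)
  have d5 := D_od (mp + k) ((x:ℤ) + 2 : ℤ) (by omega)
  have c1 := cc_od (g) ((y:ℤ) : ℤ) (by omega)
  have e1 := eps_zero (k := k) (m := mp) (by omega)
  have e2 := eps_ge k m
  have kk : (k : ℤ) = (1 : ℤ) := by omega
  have kmp : (mp : ℤ) = (2*(x:ℤ) + 4 : ℤ) := by omega
  have kt : (t : ℤ) = (2*(x:ℤ) + 2*(y:ℤ) + 5 : ℤ) := by omega
  have km : (m : ℤ) = (4*(x:ℤ) + 2*(y:ℤ) + 9 : ℤ) := by omega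
  have ka : (a : ℤ) = ((x:ℤ) + (y:ℤ) + 3 : ℤ) := by omega
  have kb : (b : ℤ) = ((x:ℤ) + (y:ℤ) + 2 : ℤ) := by omega
  have p : (0 : ℤ) ≤ (10*(x:ℤ)^3 + 12*(x:ℤ)^2*(y:ℤ) + 54*(x:ℤ)^2 + 36*(x:ℤ)*(y:ℤ) + 86*(x:ℤ) + 24*(y:ℤ) + 36 : ℤ) := by positivity
  unfold B2ok
  rw [T2_pos m (by omega), T2_pos mp (by omega)]
  simp only [d1, d2, d3, d4, d5, kk, kmp, kt, km, ka, kb]
  linarith

lemma b2leaf6 (k mp t m g a b x y z u : ℕ) (hk : k = 1) (hmp : mp = 3) (ht : t = 2) (hm : m = 5) (ha : a = 1) (hb : b = 1) :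
    B2ok k mp t m g a b (D (mp + k)) (D (mp + k)) := by
  have d1 := D_od (mp) (1 : ℤ) (by omega)
  have d2 := D_od (m) (2 : ℤ) (by omega)
  have d3 := hf_od (mp) (1 : ℤ) (by omega)
  have d4 := hf_od (m) (2 : ℤ) (by omega)
  have d5 := D_ev (mp + k) (2 : ℤ) (by omega)
  have c1 := cc_nonneg g
  have e1 := eps_zero (k := k) (m := mp) (by omega)
  have e2 := eps_one (k := k) (m := m) (by omega)
  have kk : (k : ℤ) = (1 : ℤ) := by omega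
  have kmp : (mp : ℤ) = (3 : ℤ) := by omega
  have kt : (t : ℤ) = (2 : ℤ) := by omega
  have km : (m : ℤ) = (5 : ℤ) := by omega
  have ka : (a : ℤ) = (1 : ℤ) := by omega
  have kb : (b : ℤ) = (1 : ℤ) := by omega
  have p : (0 : ℤ) ≤ (6 : ℤ) := by positivity
  unfold B2ok
  rw [T2_pos m (by omega), T2_pos mp (by omega)]
  simp only [d1, d2, d3, d4, d5, kk, kmp, kt, km, ka, kb]
  linarith

lemma b2leaf7 (k mp t m g a b x y z u : ℕ) (hk : k = 1) (hmp : mp = 2*y + 5) (ht : t = 2) (hm : m = 2*y + 7) (ha : a = 1) (hb : b = 1) :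
    B2ok k mp t m g a b (D (mp + k)) (D (mp + k)) := by
  have d1 := D_od (mp) ((y:ℤ) + 2 : ℤ) (by omega)
  have d2 := D_od (m) ((y:ℤ) + 3 : ℤ) (by omega)
  have d3 := hf_od (mp) ((y:ℤ) + 2 : ℤ) (by omega)
  have d4 := hf_od (m) ((y:ℤ) + 3 : ℤ) (by omega)
  have d5 := D_ev (mp + k) ((y:ℤ) + 3 : ℤ) (by omega)
  have c1 := cc_nonneg g
  have e1 := eps_le k mp
  have e2 := eps_ge k m
  have kk : (k : ℤ) = (1 : ℤ) := by omega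
  have kmp : (mp : ℤ) = (2*(y:ℤ) + 5 : ℤ) := by omega
  have kt : (t : ℤ) = (2 : ℤ) := by omega
  have km : (m : ℤ) = (2*(y:ℤ) + 7 : ℤ) := by omega
  have ka : (a : ℤ) = (1 : ℤ) := by omega
  have kb : (b : ℤ) = (1 : ℤ) := by omega
  have p : (0 : ℤ) ≤ (6*(y:ℤ)^2 + 24*(y:ℤ) + 12 : ℤ) := by positivity
  unfold B2ok
  rw [T2_pos m (by omega), T2_pos mp (by omega)]
  simp only [d1, d2, d3, d4, d5, kk, kmp, kt, km, ka, kb]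
  linarith

lemma b2leaf8 (k mp t m g a b x y z u : ℕ) (hk : k = 1) (hmp : mp = 2*x + 2*y + 5) (ht : t = 2*x + 4) (hm : m = 4*x + 2*y + 9) (ha : a = x + 2) (hb : b = x + 2) :
    B2ok k mp t m g a b (D (mp + k)) (D (mp + k)) := by
  have d1 := D_od (mp) ((x:ℤ) + (y:ℤ) + 2 : ℤ) (by omega)
  have d2 := D_od (m) (2*(x:ℤ) + (y:ℤ) + 4 : ℤ) (by omega)
  have d3 := hf_od (mp) ((x:ℤ) + (y:ℤ) + 2 : ℤ) (by omega)
  have d4 := hf_od (m) (2*(x:ℤ) + (y:ℤ) + 4 : ℤ) (by omega)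
  have d5 := D_ev (mp + k) ((x:ℤ) + (y:ℤ) + 3 : ℤ) (by omega)
  have c1 := cc_nonneg g
  have e1 := eps_le k mp
  have e2 := eps_ge k m
  have kk : (k : ℤ) = (1 : ℤ) := by omega
  have kmp : (mp : ℤ) = (2*(x:ℤ) + 2*(y:ℤ) + 5 : ℤ) := by omega
  have kt : (t : ℤ) = (2*(x:ℤ) + 4 : ℤ) := by omega
  have km : (m : ℤ) = (4*(x:ℤ) + 2*(y:ℤ) + 9 : ℤ) := by omega
  have ka : (a : ℤ) = ((x:ℤ) + 2 : ℤ) := by omega
  have kb : (b : ℤ) = ((x:ℤ) + 2 : ℤ) := by omega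
  have p : (0 : ℤ) ≤ (10*(x:ℤ)^3 + 18*(x:ℤ)^2*(y:ℤ) + 6*(x:ℤ)*(y:ℤ)^2 + 57*(x:ℤ)^2 + 66*(x:ℤ)*(y:ℤ) + 12*(y:ℤ)^2 + 101*(x:ℤ) + 60*(y:ℤ) + 48 : ℤ) := by positivity
  unfold B2ok
  rw [T2_pos m (by omega), T2_pos mp (by omega)]
  simp only [d1, d2, d3, d4, d5, kk, kmp, kt, km, ka, kb]
  linarith

lemma b2leaf9 (k mp t m g a b x y z u : ℕ) (hk : k = 1) (hmp : mp = 2*x + 2*y + 4) (ht : t = 2*x + 2) (hm : m = 4*x + 2*y + 6) (ha : a = x + 1) (hb : b = x + 1) :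
    B2ok k mp t m g a b (D (mp + k)) (D (mp + k)) := by
  have d1 := D_ev (mp) ((x:ℤ) + (y:ℤ) + 2 : ℤ) (by omega)
  have d2 := D_ev (m) (2*(x:ℤ) + (y:ℤ) + 3 : ℤ) (by omega)
  have d3 := hf_ev (mp) ((x:ℤ) + (y:ℤ) + 2 : ℤ) (by omega)
  have d4 := hf_ev (m) (2*(x:ℤ) + (y:ℤ) + 3 : ℤ) (by omega)
  have d5 := D_od (mp + k) ((x:ℤ) + (y:ℤ) + 2 : ℤ) (by omega)
  have c1 := cc_nonneg g
  have e1 := eps_zero (k := k) (m := mp) (by omega)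
  have e2 := eps_ge k m
  have kk : (k : ℤ) = (1 : ℤ) := by omega
  have kmp : (mp : ℤ) = (2*(x:ℤ) + 2*(y:ℤ) + 4 : ℤ) := by omega
  have kt : (t : ℤ) = (2*(x:ℤ) + 2 : ℤ) := by omega
  have km : (m : ℤ) = (4*(x:ℤ) + 2*(y:ℤ) + 6 : ℤ) := by omega
  have ka : (a : ℤ) = ((x:ℤ) + 1 : ℤ) := by omega
  have kb : (b : ℤ) = ((x:ℤ) + 1 : ℤ) := by omega
  have p : (0 : ℤ) ≤ (10*(x:ℤ)^3 + 18*(x:ℤ)^2*(y:ℤ) + 6*(x:ℤ)*(y:ℤ)^2 + 36*(x:ℤ)^2 + 36*(x:ℤ)*(y:ℤ) + 6*(y:ℤ)^2 + 38*(x:ℤ) + 18*(y:ℤ) + 12 : ℤ) := by positivity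
  unfold B2ok
  rw [T2_pos m (by omega), T2_pos mp (by omega)]
  simp only [d1, d2, d3, d4, d5, kk, kmp, kt, km, ka, kb]
  linarith

lemma b2leaf10 (k mp t m g a b x y z u : ℕ) (hk : k = 1) (hmp : mp = 2*x + 2*y + 4) (ht : t = 2*x + 3) (hm : m = 4*x + 2*y + 7) (ha : a = x + 2) (hb : b = x + 1) :
    B2ok k mp t m g a b (D (mp + k)) (D (mp + k)) := by
  have d1 := D_ev (mp) ((x:ℤ) + (y:ℤ) + 2 : ℤ) (by omega)
  have d2 := D_od (m) (2*(x:ℤ) + (y:ℤ) + 3 : ℤ) (by omega)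
  have d3 := hf_ev (mp) ((x:ℤ) + (y:ℤ) + 2 : ℤ) (by omega)
  have d4 := hf_od (m) (2*(x:ℤ) + (y:ℤ) + 3 : ℤ) (by omega)
  have d5 := D_od (mp + k) ((x:ℤ) + (y:ℤ) + 2 : ℤ) (by omega)
  have c1 := cc_nonneg g
  have e1 := eps_zero (k := k) (m := mp) (by omega)
  have e2 := eps_ge k m
  have kk : (k : ℤ) = (1 : ℤ) := by omega
  have kmp : (mp : ℤ) = (2*(x:ℤ) + 2*(y:ℤ) + 4 : ℤ) := by omega
  have kt : (t : ℤ) = (2*(x:ℤ) + 3 : ℤ) := by omega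
  have km : (m : ℤ) = (4*(x:ℤ) + 2*(y:ℤ) + 7 : ℤ) := by omega
  have ka : (a : ℤ) = ((x:ℤ) + 2 : ℤ) := by omega
  have kb : (b : ℤ) = ((x:ℤ) + 1 : ℤ) := by omega
  have p : (0 : ℤ) ≤ (10*(x:ℤ)^3 + 18*(x:ℤ)^2*(y:ℤ) + 6*(x:ℤ)*(y:ℤ)^2 + 42*(x:ℤ)^2 + 48*(x:ℤ)*(y:ℤ) + 9*(y:ℤ)^2 + 50*(x:ℤ) + 27*(y:ℤ) + 12 : ℤ) := by positivity
  unfold B2ok
  rw [T2_pos m (by omega), T2_pos mp (by omega)]
  simp only [d1, d2, d3, d4, d5, kk, kmp, kt, km, ka, kb]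
  linarith

lemma b2leaf11 (k mp t m g a b x y z u : ℕ) (hk : k = 1) (hmp : mp = 2*x + 2*y + 5) (ht : t = 2*x + 3) (hm : m = 4*x + 2*y + 8) (ha : a = x + 2) (hb : b = x + 1) :
    B2ok k mp t m g a b (D (mp + k)) (D (mp + k)) := by
  have d1 := D_od (mp) ((x:ℤ) + (y:ℤ) + 2 : ℤ) (by omega)
  have d2 := D_ev (m) (2*(x:ℤ) + (y:ℤ) + 4 : ℤ) (by omega)
  have d3 := hf_od (mp) ((x:ℤ) + (y:ℤ) + 2 : ℤ) (by omega)
  have d4 := hf_ev (m) (2*(x:ℤ) + (y:ℤ) + 4 : ℤ) (by omega)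
  have d5 := D_ev (mp + k) ((x:ℤ) + (y:ℤ) + 3 : ℤ) (by omega)
  have c1 := cc_nonneg g
  have e1 := eps_le k mp
  have e2 := eps_ge k m
  have kk : (k : ℤ) = (1 : ℤ) := by omega
  have kmp : (mp : ℤ) = (2*(x:ℤ) + 2*(y:ℤ) + 5 : ℤ) := by omega
  have kt : (t : ℤ) = (2*(x:ℤ) + 3 : ℤ) := by omega
  have km : (m : ℤ) = (4*(x:ℤ) + 2*(y:ℤ) + 8 : ℤ) := by omega
  have ka : (a : ℤ) = ((x:ℤ) + 2 : ℤ) := by omega
  have kb : (b : ℤ) = ((x:ℤ) + 1 : ℤ) := by omega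
  have p : (0 : ℤ) ≤ (10*(x:ℤ)^3 + 18*(x:ℤ)^2*(y:ℤ) + 6*(x:ℤ)*(y:ℤ)^2 + 51*(x:ℤ)^2 + 54*(x:ℤ)*(y:ℤ) + 9*(y:ℤ)^2 + 77*(x:ℤ) + 39*(y:ℤ) + 24 : ℤ) := by positivity
  unfold B2ok
  rw [T2_pos m (by omega), T2_pos mp (by omega)]
  simp only [d1, d2, d3, d4, d5, kk, kmp, kt, km, ka, kb]
  linarith

lemma b2leaf12 (k mp t m g a b x y z u : ℕ) (hk : k = 2) (hmp : mp = 2*x + 3) (ht : t = 2*x + 2*y + 3) (hm : m = 4*x + 2*y + 6) (ha : a = x + y + 2) (hb : b = x + y + 1) (hg : g = 2*y) :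
    B2ok k mp t m g a b (D (mp + k)) (D (mp + k)) := by
  have d1 := D_od (mp) ((x:ℤ) + 1 : ℤ) (by omega)
  have d2 := D_ev (m) (2*(x:ℤ) + (y:ℤ) + 3 : ℤ) (by omega)
  have d3 := hf_od (mp) ((x:ℤ) + 1 : ℤ) (by omega)
  have d4 := hf_ev (m) (2*(x:ℤ) + (y:ℤ) + 3 : ℤ) (by omega)
  have d5 := D_od (mp + k) ((x:ℤ) + 2 : ℤ) (by omega)
  have c1 := cc_ev (g) ((y:ℤ) : ℤ) (by omega)
  have e1 := eps_zero (k := k) (m := mp) (by omega)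
  have e2 := eps_ge k m
  have kk : (k : ℤ) = (2 : ℤ) := by omega
  have kmp : (mp : ℤ) = (2*(x:ℤ) + 3 : ℤ) := by omega
  have kt : (t : ℤ) = (2*(x:ℤ) + 2*(y:ℤ) + 3 : ℤ) := by omega
  have km : (m : ℤ) = (4*(x:ℤ) + 2*(y:ℤ) + 6 : ℤ) := by omega
  have ka : (a : ℤ) = ((x:ℤ) + (y:ℤ) + 2 : ℤ) := by omega
  have kb : (b : ℤ) = ((x:ℤ) + (y:ℤ) + 1 : ℤ) := by omega
  have p : (0 : ℤ) ≤ (10*(x:ℤ)^3 + 12*(x:ℤ)^2*(y:ℤ) + 33*(x:ℤ)^2 + 24*(x:ℤ)*(y:ℤ) + 29*(x:ℤ) + 6*(y:ℤ) : ℤ) := by positivity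
  unfold B2ok
  rw [T2_pos m (by omega), T2_pos mp (by omega)]
  simp only [d1, d2, d3, d4, d5, kk, kmp, kt, km, ka, kb]
  linarith

lemma b2leaf13 (k mp t m g a b x y z u : ℕ) (hk : k = 2) (hmp : mp = 2*x + 3) (ht : t = 2*x + 2*y + 4) (hm : m = 4*x + 2*y + 7) (ha : a = x + y + 2) (hb : b = x + y + 2) (hg : g = 2*y + 1) :
    B2ok k mp t m g a b (D (mp + k)) (D (mp + k)) := by
  have d1 := D_od (mp) ((x:ℤ) + 1 : ℤ) (by omega)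
  have d2 := D_od (m) (2*(x:ℤ) + (y:ℤ) + 3 : ℤ) (by omega)
  have d3 := hf_od (mp) ((x:ℤ) + 1 : ℤ) (by omega)
  have d4 := hf_od (m) (2*(x:ℤ) + (y:ℤ) + 3 : ℤ) (by omega)
  have d5 := D_od (mp + k) ((x:ℤ) + 2 : ℤ) (by omega)
  have c1 := cc_od (g) ((y:ℤ) : ℤ) (by omega)
  have e1 := eps_zero (k := k) (m := mp) (by omega)
  have e2 := eps_ge k m
  have kk : (k : ℤ) = (2 : ℤ) := by omega
  have kmp : (mp : ℤ) = (2*(x:ℤ) + 3 : ℤ) := by omega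
  have kt : (t : ℤ) = (2*(x:ℤ) + 2*(y:ℤ) + 4 : ℤ) := by omega
  have km : (m : ℤ) = (4*(x:ℤ) + 2*(y:ℤ) + 7 : ℤ) := by omega
  have ka : (a : ℤ) = ((x:ℤ) + (y:ℤ) + 2 : ℤ) := by omega
  have kb : (b : ℤ) = ((x:ℤ) + (y:ℤ) + 2 : ℤ) := by omega
  have p : (0 : ℤ) ≤ (10*(x:ℤ)^3 + 12*(x:ℤ)^2*(y:ℤ) + 39*(x:ℤ)^2 + 24*(x:ℤ)*(y:ℤ) + 41*(x:ℤ) + 6*(y:ℤ) + 6 : ℤ) := by positivity
  unfold B2ok
  rw [T2_pos m (by omega), T2_pos mp (by omega)]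
  simp only [d1, d2, d3, d4, d5, kk, kmp, kt, km, ka, kb]
  linarith

lemma b2leaf14 (k mp t m g a b x y z u : ℕ) (hk : k = 2) (hmp : mp = 2*x + 4) (ht : t = 2*x + 2*y + 4) (hm : m = 4*x + 2*y + 8) (ha : a = x + y + 2) (hb : b = x + y + 2) (hg : g = 2*y) :
    B2ok k mp t m g a b (D (mp + k)) (D (mp + k)) := by
  have d1 := D_ev (mp) ((x:ℤ) + 2 : ℤ) (by omega)
  have d2 := D_ev (m) (2*(x:ℤ) + (y:ℤ) + 4 : ℤ) (by omega)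
  have d3 := hf_ev (mp) ((x:ℤ) + 2 : ℤ) (by omega)
  have d4 := hf_ev (m) (2*(x:ℤ) + (y:ℤ) + 4 : ℤ) (by omega)
  have d5 := D_ev (mp + k) ((x:ℤ) + 3 : ℤ) (by omega)
  have c1 := cc_ev (g) ((y:ℤ) : ℤ) (by omega)
  have e1 := eps_zero (k := k) (m := mp) (by omega)
  have e2 := eps_ge k m
  have kk : (k : ℤ) = (2 : ℤ) := by omega
  have kmp : (mp : ℤ) = (2*(x:ℤ) + 4 : ℤ) := by omega
  have kt : (t : ℤ) = (2*(x:ℤ) + 2*(y:ℤ) + 4 : ℤ) := by omega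
  have km : (m : ℤ) = (4*(x:ℤ) + 2*(y:ℤ) + 8 : ℤ) := by omega
  have ka : (a : ℤ) = ((x:ℤ) + (y:ℤ) + 2 : ℤ) := by omega
  have kb : (b : ℤ) = ((x:ℤ) + (y:ℤ) + 2 : ℤ) := by omega
  have p : (0 : ℤ) ≤ (10*(x:ℤ)^3 + 12*(x:ℤ)^2*(y:ℤ) + 48*(x:ℤ)^2 + 36*(x:ℤ)*(y:ℤ) + 68*(x:ℤ) + 18*(y:ℤ) + 24 : ℤ) := by positivity
  unfold B2ok
  rw [T2_pos m (by omega), T2_pos mp (by omega)]
  simp only [d1, d2, d3, d4, d5, kk, kmp, kt, km, ka, kb]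
  linarith

lemma b2leaf15 (k mp t m g a b x y z u : ℕ) (hk : k = 2) (hmp : mp = 2*x + 4) (ht : t = 2*x + 2*y + 5) (hm : m = 4*x + 2*y + 9) (ha : a = x + y + 3) (hb : b = x + y + 2) (hg : g = 2*y + 1) :
    B2ok k mp t m g a b (D (mp + k)) (D (mp + k)) := by
  have d1 := D_ev (mp) ((x:ℤ) + 2 : ℤ) (by omega)
  have d2 := D_od (m) (2*(x:ℤ) + (y:ℤ) + 4 : ℤ) (by omega)
  have d3 := hf_ev (mp) ((x:ℤ) + 2 : ℤ) (by omega)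
  have d4 := hf_od (m) (2*(x:ℤ) + (y:ℤ) + 4 : ℤ) (by omega)
  have d5 := D_ev (mp + k) ((x:ℤ) + 3 : ℤ) (by omega)
  have c1 := cc_od (g) ((y:ℤ) : ℤ) (by omega)
  have e1 := eps_zero (k := k) (m := mp) (by omega)
  have e2 := eps_ge k m
  have kk : (k : ℤ) = (2 : ℤ) := by omega
  have kmp : (mp : ℤ) = (2*(x:ℤ) + 4 : ℤ) := by omega
  have kt : (t : ℤ) = (2*(x:ℤ) + 2*(y:ℤ) + 5 : ℤ) := by omega
  have km : (m : ℤ) = (4*(x:ℤ) + 2*(y:ℤ) + 9 : ℤ) := by omega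
  have ka : (a : ℤ) = ((x:ℤ) + (y:ℤ) + 3 : ℤ) := by omega
  have kb : (b : ℤ) = ((x:ℤ) + (y:ℤ) + 2 : ℤ) := by omega
  have p : (0 : ℤ) ≤ (10*(x:ℤ)^3 + 12*(x:ℤ)^2*(y:ℤ) + 54*(x:ℤ)^2 + 36*(x:ℤ)*(y:ℤ) + 80*(x:ℤ) + 18*(y:ℤ) + 18 : ℤ) := by positivity
  unfold B2ok
  rw [T2_pos m (by omega), T2_pos mp (by omega)]
  simp only [d1, d2, d3, d4, d5, kk, kmp, kt, km, ka, kb]
  linarith

lemma b2leaf16 (k mp t m g a b x y z u : ℕ) (hk : k = 2) (hmp : mp = 2*x + 2*y + 3) (ht : t = 2*x + 2) (hm : m = 4*x + 2*y + 5) (ha : a = x + 1) (hb : b = x + 1) :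
    B2ok k mp t m g a b (D (mp + k)) (D (mp + k)) := by
  have d1 := D_od (mp) ((x:ℤ) + (y:ℤ) + 1 : ℤ) (by omega)
  have d2 := D_od (m) (2*(x:ℤ) + (y:ℤ) + 2 : ℤ) (by omega)
  have d3 := hf_od (mp) ((x:ℤ) + (y:ℤ) + 1 : ℤ) (by omega)
  have d4 := hf_od (m) (2*(x:ℤ) + (y:ℤ) + 2 : ℤ) (by omega)
  have d5 := D_od (mp + k) ((x:ℤ) + (y:ℤ) + 2 : ℤ) (by omega)
  have c1 := cc_nonneg g
  have e1 := eps_zero (k := k) (m := mp) (by omega)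
  have e2 := eps_ge k m
  have kk : (k : ℤ) = (2 : ℤ) := by omega
  have kmp : (mp : ℤ) = (2*(x:ℤ) + 2*(y:ℤ) + 3 : ℤ) := by omega
  have kt : (t : ℤ) = (2*(x:ℤ) + 2 : ℤ) := by omega
  have km : (m : ℤ) = (4*(x:ℤ) + 2*(y:ℤ) + 5 : ℤ) := by omega
  have ka : (a : ℤ) = ((x:ℤ) + 1 : ℤ) := by omega
  have kb : (b : ℤ) = ((x:ℤ) + 1 : ℤ) := by omega
  have p : (0 : ℤ) ≤ (10*(x:ℤ)^3 + 18*(x:ℤ)^2*(y:ℤ) + 6*(x:ℤ)*(y:ℤ)^2 + 27*(x:ℤ)^2 + 30*(x:ℤ)*(y:ℤ) + 6*(y:ℤ)^2 + 17*(x:ℤ) + 12*(y:ℤ) : ℤ) := by positivity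
  unfold B2ok
  rw [T2_pos m (by omega), T2_pos mp (by omega)]
  simp only [d1, d2, d3, d4, d5, kk, kmp, kt, km, ka, kb]
  linarith

lemma b2leaf17 (k mp t m g a b x y z u : ℕ) (hk : k = 2) (hmp : mp = 2*x + 2*y + 4) (ht : t = 2*x + 2) (hm : m = 4*x + 2*y + 6) (ha : a = x + 1) (hb : b = x + 1) :
    B2ok k mp t m g a b (D (mp + k)) (D (mp + k)) := by
  have d1 := D_ev (mp) ((x:ℤ) + (y:ℤ) + 2 : ℤ) (by omega)
  have d2 := D_ev (m) (2*(x:ℤ) + (y:ℤ) + 3 : ℤ) (by omega)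
  have d3 := hf_ev (mp) ((x:ℤ) + (y:ℤ) + 2 : ℤ) (by omega)
  have d4 := hf_ev (m) (2*(x:ℤ) + (y:ℤ) + 3 : ℤ) (by omega)
  have d5 := D_ev (mp + k) ((x:ℤ) + (y:ℤ) + 3 : ℤ) (by omega)
  have c1 := cc_nonneg g
  have e1 := eps_zero (k := k) (m := mp) (by omega)
  have e2 := eps_ge k m
  have kk : (k : ℤ) = (2 : ℤ) := by omega
  have kmp : (mp : ℤ) = (2*(x:ℤ) + 2*(y:ℤ) + 4 : ℤ) := by omega
  have kt : (t : ℤ) = (2*(x:ℤ) + 2 : ℤ) := by omega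
  have km : (m : ℤ) = (4*(x:ℤ) + 2*(y:ℤ) + 6 : ℤ) := by omega
  have ka : (a : ℤ) = ((x:ℤ) + 1 : ℤ) := by omega
  have kb : (b : ℤ) = ((x:ℤ) + 1 : ℤ) := by omega
  have p : (0 : ℤ) ≤ (10*(x:ℤ)^3 + 18*(x:ℤ)^2*(y:ℤ) + 6*(x:ℤ)*(y:ℤ)^2 + 36*(x:ℤ)^2 + 36*(x:ℤ)*(y:ℤ) + 6*(y:ℤ)^2 + 32*(x:ℤ) + 18*(y:ℤ) + 6 : ℤ) := by positivity
  unfold B2ok
  rw [T2_pos m (by omega), T2_pos mp (by omega)]
  simp only [d1, d2, d3, d4, d5, kk, kmp, kt, km, ka, kb]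
  linarith

lemma b2leaf18 (k mp t m g a b x y z u : ℕ) (hk : k = 2) (hmp : mp = 2*x + 2*y + 4) (ht : t = 2*x + 3) (hm : m = 4*x + 2*y + 7) (ha : a = x + 2) (hb : b = x + 1) :
    B2ok k mp t m g a b (D (mp + k)) (D (mp + k)) := by
  have d1 := D_ev (mp) ((x:ℤ) + (y:ℤ) + 2 : ℤ) (by omega)
  have d2 := D_od (m) (2*(x:ℤ) + (y:ℤ) + 3 : ℤ) (by omega)
  have d3 := hf_ev (mp) ((x:ℤ) + (y:ℤ) + 2 : ℤ) (by omega)
  have d4 := hf_od (m) (2*(x:ℤ) + (y:ℤ) + 3 : ℤ) (by omega)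
  have d5 := D_ev (mp + k) ((x:ℤ) + (y:ℤ) + 3 : ℤ) (by omega)
  have c1 := cc_nonneg g
  have e1 := eps_zero (k := k) (m := mp) (by omega)
  have e2 := eps_ge k m
  have kk : (k : ℤ) = (2 : ℤ) := by omega
  have kmp : (mp : ℤ) = (2*(x:ℤ) + 2*(y:ℤ) + 4 : ℤ) := by omega
  have kt : (t : ℤ) = (2*(x:ℤ) + 3 : ℤ) := by omega
  have km : (m : ℤ) = (4*(x:ℤ) + 2*(y:ℤ) + 7 : ℤ) := by omega
  have ka : (a : ℤ) = ((x:ℤ) + 2 : ℤ) := by omega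
  have kb : (b : ℤ) = ((x:ℤ) + 1 : ℤ) := by omega
  have p : (0 : ℤ) ≤ (10*(x:ℤ)^3 + 18*(x:ℤ)^2*(y:ℤ) + 6*(x:ℤ)*(y:ℤ)^2 + 42*(x:ℤ)^2 + 48*(x:ℤ)*(y:ℤ) + 9*(y:ℤ)^2 + 44*(x:ℤ) + 27*(y:ℤ) : ℤ) := by positivity
  unfold B2ok
  rw [T2_pos m (by omega), T2_pos mp (by omega)]
  simp only [d1, d2, d3, d4, d5, kk, kmp, kt, km, ka, kb]
  linarith

lemma b2leaf19 (k mp t m g a b x y z u : ℕ) (hk : k = 2) (hmp : mp = 2*x + 2*y + 5) (ht : t = 2*x + 3) (hm : m = 4*x + 2*y + 8) (ha : a = x + 2) (hb : b = x + 1) :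
    B2ok k mp t m g a b (D (mp + k)) (D (mp + k)) := by
  have d1 := D_od (mp) ((x:ℤ) + (y:ℤ) + 2 : ℤ) (by omega)
  have d2 := D_ev (m) (2*(x:ℤ) + (y:ℤ) + 4 : ℤ) (by omega)
  have d3 := hf_od (mp) ((x:ℤ) + (y:ℤ) + 2 : ℤ) (by omega)
  have d4 := hf_ev (m) (2*(x:ℤ) + (y:ℤ) + 4 : ℤ) (by omega)
  have d5 := D_od (mp + k) ((x:ℤ) + (y:ℤ) + 3 : ℤ) (by omega)
  have c1 := cc_nonneg g
  have e1 := eps_zero (k := k) (m := mp) (by omega)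
  have e2 := eps_ge k m
  have kk : (k : ℤ) = (2 : ℤ) := by omega
  have kmp : (mp : ℤ) = (2*(x:ℤ) + 2*(y:ℤ) + 5 : ℤ) := by omega
  have kt : (t : ℤ) = (2*(x:ℤ) + 3 : ℤ) := by omega
  have km : (m : ℤ) = (4*(x:ℤ) + 2*(y:ℤ) + 8 : ℤ) := by omega
  have ka : (a : ℤ) = ((x:ℤ) + 2 : ℤ) := by omega
  have kb : (b : ℤ) = ((x:ℤ) + 1 : ℤ) := by omega
  have p : (0 : ℤ) ≤ (10*(x:ℤ)^3 + 18*(x:ℤ)^2*(y:ℤ) + 6*(x:ℤ)*(y:ℤ)^2 + 51*(x:ℤ)^2 + 54*(x:ℤ)*(y:ℤ) + 9*(y:ℤ)^2 + 77*(x:ℤ) + 39*(y:ℤ) + 30 : ℤ) := by positivity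
  unfold B2ok
  rw [T2_pos m (by omega), T2_pos mp (by omega)]
  simp only [d1, d2, d3, d4, d5, kk, kmp, kt, km, ka, kb]
  linarith

lemma b2leaf20 (k mp t m g a b x y z u : ℕ) (hk : k = u + 3) (hmp : mp = 2*x + 5) (ht : t = 2*x + 2*y + 5) (hm : m = 4*x + 2*y + 10) (ha : a = x + y + 3) (hb : b = x + y + 2) (hg : g = 2*y) :
    B2ok k mp t m g a b (D (mp + 3) + u * (hf (mp - 1) + 1)) (D (mp + 3) + u * (hf mp + 1)) := by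
  have d1 := D_od (mp) ((x:ℤ) + 2 : ℤ) (by omega)
  have d2 := D_ev (m) (2*(x:ℤ) + (y:ℤ) + 5 : ℤ) (by omega)
  have d3 := hf_od (mp) ((x:ℤ) + 2 : ℤ) (by omega)
  have d4 := hf_ev (m) (2*(x:ℤ) + (y:ℤ) + 5 : ℤ) (by omega)
  have d5 := D_ev (mp + 3) ((x:ℤ) + 4 : ℤ) (by omega)
  have d6 := hf_ev (mp - 1) ((x:ℤ) + 2 : ℤ) (by omega)
  have c1 := cc_ev (g) ((y:ℤ) : ℤ) (by omega)
  have e1 := eps_le k mp
  have e2 := eps_ge k m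
  have kk : (k : ℤ) = ((u:ℤ) + 3 : ℤ) := by omega
  have kmp : (mp : ℤ) = (2*(x:ℤ) + 5 : ℤ) := by omega
  have kt : (t : ℤ) = (2*(x:ℤ) + 2*(y:ℤ) + 5 : ℤ) := by omega
  have km : (m : ℤ) = (4*(x:ℤ) + 2*(y:ℤ) + 10 : ℤ) := by omega
  have ka : (a : ℤ) = ((x:ℤ) + (y:ℤ) + 3 : ℤ) := by omega
  have kb : (b : ℤ) = ((x:ℤ) + (y:ℤ) + 2 : ℤ) := by omega
  have p : (0 : ℤ) ≤ (10*(x:ℤ)^3 + 12*(x:ℤ)^2*(y:ℤ) + 63*(x:ℤ)^2 + 48*(x:ℤ)*(y:ℤ) + 113*(x:ℤ) + 30*(y:ℤ) + 36 : ℤ) := by positivity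
  unfold B2ok
  rw [T2_pos m (by omega), T2_pos mp (by omega)]
  simp only [d1, d2, d3, d4, d5, d6, kk, kmp, kt, km, ka, kb]
  linarith

lemma b2leaf21 (k mp t m g a b x y z u : ℕ) (hk : k = u + 3) (hmp : mp = 2*x + 5) (ht : t = 2*x + 2*y + 6) (hm : m = 4*x + 2*y + 11) (ha : a = x + y + 3) (hb : b = x + y + 3) (hg : g = 2*y + 1) :
    B2ok k mp t m g a b (D (mp + 3) + u * (hf (mp - 1) + 1)) (D (mp + 3) + u * (hf mp + 1)) := by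
  have d1 := D_od (mp) ((x:ℤ) + 2 : ℤ) (by omega)
  have d2 := D_od (m) (2*(x:ℤ) + (y:ℤ) + 5 : ℤ) (by omega)
  have d3 := hf_od (mp) ((x:ℤ) + 2 : ℤ) (by omega)
  have d4 := hf_od (m) (2*(x:ℤ) + (y:ℤ) + 5 : ℤ) (by omega)
  have d5 := D_ev (mp + 3) ((x:ℤ) + 4 : ℤ) (by omega)
  have d6 := hf_ev (mp - 1) ((x:ℤ) + 2 : ℤ) (by omega)
  have c1 := cc_od (g) ((y:ℤ) : ℤ) (by omega)
  have e1 := eps_le k mp
  have e2 := eps_ge k m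
  have kk : (k : ℤ) = ((u:ℤ) + 3 : ℤ) := by omega
  have kmp : (mp : ℤ) = (2*(x:ℤ) + 5 : ℤ) := by omega
  have kt : (t : ℤ) = (2*(x:ℤ) + 2*(y:ℤ) + 6 : ℤ) := by omega
  have km : (m : ℤ) = (4*(x:ℤ) + 2*(y:ℤ) + 11 : ℤ) := by omega
  have ka : (a : ℤ) = ((x:ℤ) + (y:ℤ) + 3 : ℤ) := by omega
  have kb : (b : ℤ) = ((x:ℤ) + (y:ℤ) + 3 : ℤ) := by omega
  have p : (0 : ℤ) ≤ (10*(x:ℤ)^3 + 12*(x:ℤ)^2*(y:ℤ) + 69*(x:ℤ)^2 + 48*(x:ℤ)*(y:ℤ) + 137*(x:ℤ) + 30*(y:ℤ) + 54 : ℤ) := by positivity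
  unfold B2ok
  rw [T2_pos m (by omega), T2_pos mp (by omega)]
  simp only [d1, d2, d3, d4, d5, d6, kk, kmp, kt, km, ka, kb]
  linarith

lemma b2leaf22 (k mp t m g a b x y z u : ℕ) (hk : k = u + 3) (hmp : mp = 2*x + 6) (ht : t = 2*x + 2*y + 6) (hm : m = 4*x + 2*y + 12) (ha : a = x + y + 3) (hb : b = x + y + 3) (hg : g = 2*y) :
    B2ok k mp t m g a b (D (mp + 3) + u * (hf (mp - 1) + 1)) (D (mp + 3) + u * (hf mp + 1)) := by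
  have d1 := D_ev (mp) ((x:ℤ) + 3 : ℤ) (by omega)
  have d2 := D_ev (m) (2*(x:ℤ) + (y:ℤ) + 6 : ℤ) (by omega)
  have d3 := hf_ev (mp) ((x:ℤ) + 3 : ℤ) (by omega)
  have d4 := hf_ev (m) (2*(x:ℤ) + (y:ℤ) + 6 : ℤ) (by omega)
  have d5 := D_od (mp + 3) ((x:ℤ) + 4 : ℤ) (by omega)
  have d6 := hf_od (mp - 1) ((x:ℤ) + 2 : ℤ) (by omega)
  have c1 := cc_ev (g) ((y:ℤ) : ℤ) (by omega)
  have e1 := eps_zero (k := k) (m := mp) (by omega)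
  have e2 := eps_ge k m
  have kk : (k : ℤ) = ((u:ℤ) + 3 : ℤ) := by omega
  have kmp : (mp : ℤ) = (2*(x:ℤ) + 6 : ℤ) := by omega
  have kt : (t : ℤ) = (2*(x:ℤ) + 2*(y:ℤ) + 6 : ℤ) := by omega
  have km : (m : ℤ) = (4*(x:ℤ) + 2*(y:ℤ) + 12 : ℤ) := by omega
  have ka : (a : ℤ) = ((x:ℤ) + (y:ℤ) + 3 : ℤ) := by omega
  have kb : (b : ℤ) = ((x:ℤ) + (y:ℤ) + 3 : ℤ) := by omega
  have p : (0 : ℤ) ≤ (10*(x:ℤ)^3 + 12*(x:ℤ)^2*(y:ℤ) + 78*(x:ℤ)^2 + 60*(x:ℤ)*(y:ℤ) + 188*(x:ℤ) + 60*(y:ℤ) + 132 : ℤ) := by positivity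
  unfold B2ok
  rw [T2_pos m (by omega), T2_pos mp (by omega)]
  simp only [d1, d2, d3, d4, d5, d6, kk, kmp, kt, km, ka, kb]
  linarith

lemma b2leaf23 (k mp t m g a b x y z u : ℕ) (hk : k = u + 3) (hmp : mp = 2*x + 6) (ht : t = 2*x + 2*y + 7) (hm : m = 4*x + 2*y + 13) (ha : a = x + y + 4) (hb : b = x + y + 3) (hg : g = 2*y + 1) :
    B2ok k mp t m g a b (D (mp + 3) + u * (hf (mp - 1) + 1)) (D (mp + 3) + u * (hf mp + 1)) := by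
  have d1 := D_ev (mp) ((x:ℤ) + 3 : ℤ) (by omega)
  have d2 := D_od (m) (2*(x:ℤ) + (y:ℤ) + 6 : ℤ) (by omega)
  have d3 := hf_ev (mp) ((x:ℤ) + 3 : ℤ) (by omega)
  have d4 := hf_od (m) (2*(x:ℤ) + (y:ℤ) + 6 : ℤ) (by omega)
  have d5 := D_od (mp + 3) ((x:ℤ) + 4 : ℤ) (by omega)
  have d6 := hf_od (mp - 1) ((x:ℤ) + 2 : ℤ) (by omega)
  have c1 := cc_od (g) ((y:ℤ) : ℤ) (by omega)
  have e1 := eps_zero (k := k) (m := mp) (by omega)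
  have e2 := eps_ge k m
  have kk : (k : ℤ) = ((u:ℤ) + 3 : ℤ) := by omega
  have kmp : (mp : ℤ) = (2*(x:ℤ) + 6 : ℤ) := by omega
  have kt : (t : ℤ) = (2*(x:ℤ) + 2*(y:ℤ) + 7 : ℤ) := by omega
  have km : (m : ℤ) = (4*(x:ℤ) + 2*(y:ℤ) + 13 : ℤ) := by omega
  have ka : (a : ℤ) = ((x:ℤ) + (y:ℤ) + 4 : ℤ) := by omega
  have kb : (b : ℤ) = ((x:ℤ) + (y:ℤ) + 3 : ℤ) := by omega
  have p : (0 : ℤ) ≤ (10*(x:ℤ)^3 + 12*(x:ℤ)^2*(y:ℤ) + 84*(x:ℤ)^2 + 60*(x:ℤ)*(y:ℤ) + 212*(x:ℤ) + 60*(y:ℤ) + 138 : ℤ) := by positivity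
  unfold B2ok
  rw [T2_pos m (by omega), T2_pos mp (by omega)]
  simp only [d1, d2, d3, d4, d5, d6, kk, kmp, kt, km, ka, kb]
  linarith

lemma b2leaf24 (k mp t m g a b x y z u : ℕ) (hk : k = u + 3) (hmp : mp = 2*y + 5) (ht : t = 2) (hm : m = 2*y + 7) (ha : a = 1) (hb : b = 1) :
    B2ok k mp t m g a b (D (mp + 3) + u * (hf (mp - 1) + 1)) (D (mp + 3) + u * (hf mp + 1)) := by
  have d1 := D_od (mp) ((y:ℤ) + 2 : ℤ) (by omega)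
  have d2 := D_od (m) ((y:ℤ) + 3 : ℤ) (by omega)
  have d3 := hf_od (mp) ((y:ℤ) + 2 : ℤ) (by omega)
  have d4 := hf_od (m) ((y:ℤ) + 3 : ℤ) (by omega)
  have d5 := D_ev (mp + 3) ((y:ℤ) + 4 : ℤ) (by omega)
  have d6 := hf_ev (mp - 1) ((y:ℤ) + 2 : ℤ) (by omega)
  have c1 := cc_nonneg g
  have e1 := eps_le k mp
  have e2 := eps_ge k m
  have kk : (k : ℤ) = ((u:ℤ) + 3 : ℤ) := by omega
  have kmp : (mp : ℤ) = (2*(y:ℤ) + 5 : ℤ) := by omega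
  have kt : (t : ℤ) = (2 : ℤ) := by omega
  have km : (m : ℤ) = (2*(y:ℤ) + 7 : ℤ) := by omega
  have ka : (a : ℤ) = (1 : ℤ) := by omega
  have kb : (b : ℤ) = (1 : ℤ) := by omega
  have p : (0 : ℤ) ≤ (6*(y:ℤ)^2 + 24*(y:ℤ) : ℤ) := by positivity
  unfold B2ok
  rw [T2_pos m (by omega), T2_pos mp (by omega)]
  simp only [d1, d2, d3, d4, d5, d6, kk, kmp, kt, km, ka, kb]
  linarith

lemma b2leaf25 (k mp t m g a b x y z u : ℕ) (hk : k = u + 3) (hmp : mp = 2*x + 2*y + 5) (ht : t = 2*x + 4) (hm : m = 4*x + 2*y + 9) (ha : a = x + 2) (hb : b = x + 2) :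
    B2ok k mp t m g a b (D (mp + 3) + u * (hf (mp - 1) + 1)) (D (mp + 3) + u * (hf mp + 1)) := by
  have d1 := D_od (mp) ((x:ℤ) + (y:ℤ) + 2 : ℤ) (by omega)
  have d2 := D_od (m) (2*(x:ℤ) + (y:ℤ) + 4 : ℤ) (by omega)
  have d3 := hf_od (mp) ((x:ℤ) + (y:ℤ) + 2 : ℤ) (by omega)
  have d4 := hf_od (m) (2*(x:ℤ) + (y:ℤ) + 4 : ℤ) (by omega)
  have d5 := D_ev (mp + 3) ((x:ℤ) + (y:ℤ) + 4 : ℤ) (by omega)
  have d6 := hf_ev (mp - 1) ((x:ℤ) + (y:ℤ) + 2 : ℤ) (by omega)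
  have c1 := cc_nonneg g
  have e1 := eps_le k mp
  have e2 := eps_ge k m
  have kk : (k : ℤ) = ((u:ℤ) + 3 : ℤ) := by omega
  have kmp : (mp : ℤ) = (2*(x:ℤ) + 2*(y:ℤ) + 5 : ℤ) := by omega
  have kt : (t : ℤ) = (2*(x:ℤ) + 4 : ℤ) := by omega
  have km : (m : ℤ) = (4*(x:ℤ) + 2*(y:ℤ) + 9 : ℤ) := by omega
  have ka : (a : ℤ) = ((x:ℤ) + 2 : ℤ) := by omega
  have kb : (b : ℤ) = ((x:ℤ) + 2 : ℤ) := by omega
  have p : (0 : ℤ) ≤ (10*(x:ℤ)^3 + 18*(x:ℤ)^2*(y:ℤ) + 6*(x:ℤ)*(y:ℤ)^2 + 57*(x:ℤ)^2 + 66*(x:ℤ)*(y:ℤ) + 12*(y:ℤ)^2 + 89*(x:ℤ) + 60*(y:ℤ) + 24 : ℤ) := by positivity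
  unfold B2ok
  rw [T2_pos m (by omega), T2_pos mp (by omega)]
  simp only [d1, d2, d3, d4, d5, d6, kk, kmp, kt, km, ka, kb]
  linarith

lemma b2leaf26 (k mp t m g a b x y z u : ℕ) (hk : k = u + 3) (hmp : mp = 2*x + 2*y + 4) (ht : t = 2*x + 2) (hm : m = 4*x + 2*y + 6) (ha : a = x + 1) (hb : b = x + 1) :
    B2ok k mp t m g a b (D (mp + 3) + u * (hf (mp - 1) + 1)) (D (mp + 3) + u * (hf mp + 1)) := by
  have d1 := D_ev (mp) ((x:ℤ) + (y:ℤ) + 2 : ℤ) (by omega)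
  have d2 := D_ev (m) (2*(x:ℤ) + (y:ℤ) + 3 : ℤ) (by omega)
  have d3 := hf_ev (mp) ((x:ℤ) + (y:ℤ) + 2 : ℤ) (by omega)
  have d4 := hf_ev (m) (2*(x:ℤ) + (y:ℤ) + 3 : ℤ) (by omega)
  have d5 := D_od (mp + 3) ((x:ℤ) + (y:ℤ) + 3 : ℤ) (by omega)
  have d6 := hf_od (mp - 1) ((x:ℤ) + (y:ℤ) + 1 : ℤ) (by omega)
  have c1 := cc_nonneg g
  have e1 := eps_zero (k := k) (m := mp) (by omega)
  have e2 := eps_ge k m
  have kk : (k : ℤ) = ((u:ℤ) + 3 : ℤ) := by omega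
  have kmp : (mp : ℤ) = (2*(x:ℤ) + 2*(y:ℤ) + 4 : ℤ) := by omega
  have kt : (t : ℤ) = (2*(x:ℤ) + 2 : ℤ) := by omega
  have km : (m : ℤ) = (4*(x:ℤ) + 2*(y:ℤ) + 6 : ℤ) := by omega
  have ka : (a : ℤ) = ((x:ℤ) + 1 : ℤ) := by omega
  have kb : (b : ℤ) = ((x:ℤ) + 1 : ℤ) := by omega
  have p : (0 : ℤ) ≤ (10*(x:ℤ)^3 + 18*(x:ℤ)^2*(y:ℤ) + 6*(x:ℤ)*(y:ℤ)^2 + 36*(x:ℤ)^2 + 36*(x:ℤ)*(y:ℤ) + 6*(y:ℤ)^2 + 26*(x:ℤ) + 18*(y:ℤ) : ℤ) := by positivity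
  unfold B2ok
  rw [T2_pos m (by omega), T2_pos mp (by omega)]
  simp only [d1, d2, d3, d4, d5, d6, kk, kmp, kt, km, ka, kb]
  linarith

lemma b2leaf27 (k mp t m g a b x y z u : ℕ) (hk : k = u + 3) (hmp : mp = 2*y + 6) (ht : t = 3) (hm : m = 2*y + 9) (ha : a = 2) (hb : b = 1) :
    B2ok k mp t m g a b (D (mp + 3) + u * (hf (mp - 1) + 1)) (D (mp + 3) + u * (hf mp + 1)) := by
  have d1 := D_ev (mp) ((y:ℤ) + 3 : ℤ) (by omega)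
  have d2 := D_od (m) ((y:ℤ) + 4 : ℤ) (by omega)
  have d3 := hf_ev (mp) ((y:ℤ) + 3 : ℤ) (by omega)
  have d4 := hf_od (m) ((y:ℤ) + 4 : ℤ) (by omega)
  have d5 := D_od (mp + 3) ((y:ℤ) + 4 : ℤ) (by omega)
  have d6 := hf_od (mp - 1) ((y:ℤ) + 2 : ℤ) (by omega)
  have c1 := cc_nonneg g
  have e1 := eps_zero (k := k) (m := mp) (by omega)
  have e2 := eps_ge k m
  have kk : (k : ℤ) = ((u:ℤ) + 3 : ℤ) := by omega
  have kmp : (mp : ℤ) = (2*(y:ℤ) + 6 : ℤ) := by omega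
  have kt : (t : ℤ) = (3 : ℤ) := by omega
  have km : (m : ℤ) = (2*(y:ℤ) + 9 : ℤ) := by omega
  have ka : (a : ℤ) = (2 : ℤ) := by omega
  have kb : (b : ℤ) = (1 : ℤ) := by omega
  have p : (0 : ℤ) ≤ (9*(y:ℤ)^2 + 45*(y:ℤ) + 24 : ℤ) := by positivity
  unfold B2ok
  rw [T2_pos m (by omega), T2_pos mp (by omega)]
  simp only [d1, d2, d3, d4, d5, d6, kk, kmp, kt, km, ka, kb]
  linarith

lemma b2leaf28 (k mp t m g a b x y z u : ℕ) (hk : k = u + 3) (hmp : mp = 2*x + 2*y + 6) (ht : t = 2*x + 5) (hm : m = 4*x + 2*y + 11) (ha : a = x + 3) (hb : b = x + 2) :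
    B2ok k mp t m g a b (D (mp + 3) + u * (hf (mp - 1) + 1)) (D (mp + 3) + u * (hf mp + 1)) := by
  have d1 := D_ev (mp) ((x:ℤ) + (y:ℤ) + 3 : ℤ) (by omega)
  have d2 := D_od (m) (2*(x:ℤ) + (y:ℤ) + 5 : ℤ) (by omega)
  have d3 := hf_ev (mp) ((x:ℤ) + (y:ℤ) + 3 : ℤ) (by omega)
  have d4 := hf_od (m) (2*(x:ℤ) + (y:ℤ) + 5 : ℤ) (by omega)
  have d5 := D_od (mp + 3) ((x:ℤ) + (y:ℤ) + 4 : ℤ) (by omega)
  have d6 := hf_od (mp - 1) ((x:ℤ) + (y:ℤ) + 2 : ℤ) (by omega)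
  have c1 := cc_nonneg g
  have e1 := eps_zero (k := k) (m := mp) (by omega)
  have e2 := eps_ge k m
  have kk : (k : ℤ) = ((u:ℤ) + 3 : ℤ) := by omega
  have kmp : (mp : ℤ) = (2*(x:ℤ) + 2*(y:ℤ) + 6 : ℤ) := by omega
  have kt : (t : ℤ) = (2*(x:ℤ) + 5 : ℤ) := by omega
  have km : (m : ℤ) = (4*(x:ℤ) + 2*(y:ℤ) + 11 : ℤ) := by omega
  have ka : (a : ℤ) = ((x:ℤ) + 3 : ℤ) := by omega
  have kb : (b : ℤ) = ((x:ℤ) + 2 : ℤ) := by omega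
  have p : (0 : ℤ) ≤ (10*(x:ℤ)^3 + 18*(x:ℤ)^2*(y:ℤ) + 6*(x:ℤ)*(y:ℤ)^2 + 72*(x:ℤ)^2 + 84*(x:ℤ)*(y:ℤ) + 15*(y:ℤ)^2 + 152*(x:ℤ) + 93*(y:ℤ) + 78 : ℤ) := by positivity
  unfold B2ok
  rw [T2_pos m (by omega), T2_pos mp (by omega)]
  simp only [d1, d2, d3, d4, d5, d6, kk, kmp, kt, km, ka, kb]
  linarith

lemma b2leaf29 (k mp t m g a b x y z u : ℕ) (hk : k = u + 3) (hmp : mp = 2*x + 2*y + 5) (ht : t = 2*x + 3) (hm : m = 4*x + 2*y + 8) (ha : a = x + 2) (hb : b = x + 1) :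
    B2ok k mp t m g a b (D (mp + 3) + u * (hf (mp - 1) + 1)) (D (mp + 3) + u * (hf mp + 1)) := by
  have d1 := D_od (mp) ((x:ℤ) + (y:ℤ) + 2 : ℤ) (by omega)
  have d2 := D_ev (m) (2*(x:ℤ) + (y:ℤ) + 4 : ℤ) (by omega)
  have d3 := hf_od (mp) ((x:ℤ) + (y:ℤ) + 2 : ℤ) (by omega)
  have d4 := hf_ev (m) (2*(x:ℤ) + (y:ℤ) + 4 : ℤ) (by omega)
  have d5 := D_ev (mp + 3) ((x:ℤ) + (y:ℤ) + 4 : ℤ) (by omega)
  have d6 := hf_ev (mp - 1) ((x:ℤ) + (y:ℤ) + 2 : ℤ) (by omega)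
  have c1 := cc_nonneg g
  have e1 := eps_le k mp
  have e2 := eps_ge k m
  have kk : (k : ℤ) = ((u:ℤ) + 3 : ℤ) := by omega
  have kmp : (mp : ℤ) = (2*(x:ℤ) + 2*(y:ℤ) + 5 : ℤ) := by omega
  have kt : (t : ℤ) = (2*(x:ℤ) + 3 : ℤ) := by omega
  have km : (m : ℤ) = (4*(x:ℤ) + 2*(y:ℤ) + 8 : ℤ) := by omega
  have ka : (a : ℤ) = ((x:ℤ) + 2 : ℤ) := by omega
  have kb : (b : ℤ) = ((x:ℤ) + 1 : ℤ) := by omega
  have p : (0 : ℤ) ≤ (10*(x:ℤ)^3 + 18*(x:ℤ)^2*(y:ℤ) + 6*(x:ℤ)*(y:ℤ)^2 + 51*(x:ℤ)^2 + 54*(x:ℤ)*(y:ℤ) + 9*(y:ℤ)^2 + 65*(x:ℤ) + 39*(y:ℤ) + 6 : ℤ) := by positivity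
  unfold B2ok
  rw [T2_pos m (by omega), T2_pos mp (by omega)]
  simp only [d1, d2, d3, d4, d5, d6, kk, kmp, kt, km, ka, kb]
  linarith

lemma b2leaf30 (k mp t m g a b x y z u : ℕ) (hk : k = u + 3) (hmp : mp = 4) (ht : t = 2) (hm : m = 6) (ha : a = 1) (hb : b = 1) :
    B2ok k mp t m g a b (2 * (u:ℤ) + 11) (3 * (u:ℤ) + 12) := by
  have d1 := D_ev (mp) (2 : ℤ) (by omega)
  have d2 := D_ev (m) (3 : ℤ) (by omega)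
  have d3 := hf_ev (mp) (2 : ℤ) (by omega)
  have d4 := hf_ev (m) (3 : ℤ) (by omega)
  have c1 := cc_nonneg g
  have e1 := eps_zero (k := k) (m := mp) (by omega)
  have e2 := eps_ge k m
  have kk : (k : ℤ) = ((u:ℤ) + 3 : ℤ) := by omega
  have kmp : (mp : ℤ) = (4 : ℤ) := by omega
  have kt : (t : ℤ) = (2 : ℤ) := by omega
  have km : (m : ℤ) = (6 : ℤ) := by omega
  have ka : (a : ℤ) = (1 : ℤ) := by omega
  have kb : (b : ℤ) = (1 : ℤ) := by omega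
  have p : (0 : ℤ) ≤ (6 : ℤ) := by positivity
  unfold B2ok
  rw [T2_pos m (by omega), T2_pos mp (by omega)]
  simp only [d1, d2, d3, d4, kk, kmp, kt, km, ka, kb]
  linarith

lemma b2leaf31 (k mp t m g a b x y z u : ℕ) (hk : k = u + 3) (hmp : mp = 4) (ht : t = 2*y + 4) (hm : m = 2*y + 8) (ha : a = y + 2) (hb : b = y + 2) (hg : g = 2*y) :
    B2ok k mp t m g a b (2 * (u:ℤ) + 11) (3 * (u:ℤ) + 12) := by
  have d1 := D_ev (mp) (2 : ℤ) (by omega)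
  have d2 := D_ev (m) ((y:ℤ) + 4 : ℤ) (by omega)
  have d3 := hf_ev (mp) (2 : ℤ) (by omega)
  have d4 := hf_ev (m) ((y:ℤ) + 4 : ℤ) (by omega)
  have c1 := cc_ev (g) ((y:ℤ) : ℤ) (by omega)
  have e1 := eps_zero (k := k) (m := mp) (by omega)
  have e2 := eps_ge k m
  have kk : (k : ℤ) = ((u:ℤ) + 3 : ℤ) := by omega
  have kmp : (mp : ℤ) = (4 : ℤ) := by omega
  have kt : (t : ℤ) = (2*(y:ℤ) + 4 : ℤ) := by omega
  have km : (m : ℤ) = (2*(y:ℤ) + 8 : ℤ) := by omega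
  have ka : (a : ℤ) = ((y:ℤ) + 2 : ℤ) := by omega
  have kb : (b : ℤ) = ((y:ℤ) + 2 : ℤ) := by omega
  have p : (0 : ℤ) ≤ (18*(y:ℤ) + 24 : ℤ) := by positivity
  unfold B2ok
  rw [T2_pos m (by omega), T2_pos mp (by omega)]
  simp only [d1, d2, d3, d4, kk, kmp, kt, km, ka, kb]
  linarith

lemma b2leaf32 (k mp t m g a b x y z u : ℕ) (hk : k = u + 3) (hmp : mp = 4) (ht : t = 3) (hm : m = 7) (ha : a = 2) (hb : b = 1) :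
    B2ok k mp t m g a b (2 * (u:ℤ) + 11) (3 * (u:ℤ) + 12) := by
  have d1 := D_ev (mp) (2 : ℤ) (by omega)
  have d2 := D_od (m) (3 : ℤ) (by omega)
  have d3 := hf_ev (mp) (2 : ℤ) (by omega)
  have d4 := hf_od (m) (3 : ℤ) (by omega)
  have c1 := cc_nonneg g
  have e1 := eps_zero (k := k) (m := mp) (by omega)
  have e2 := eps_ge k m
  have kk : (k : ℤ) = ((u:ℤ) + 3 : ℤ) := by omega
  have kmp : (mp : ℤ) = (4 : ℤ) := by omega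
  have kt : (t : ℤ) = (3 : ℤ) := by omega
  have km : (m : ℤ) = (7 : ℤ) := by omega
  have ka : (a : ℤ) = (2 : ℤ) := by omega
  have kb : (b : ℤ) = (1 : ℤ) := by omega
  have p : (0 : ℤ) ≤ (0 : ℤ) := by positivity
  unfold B2ok
  rw [T2_pos m (by omega), T2_pos mp (by omega)]
  simp only [d1, d2, d3, d4, kk, kmp, kt, km, ka, kb]
  linarith

lemma b2leaf33 (k mp t m g a b x y z u : ℕ) (hk : k = u + 3) (hmp : mp = 4) (ht : t = 2*y + 5) (hm : m = 2*y + 9) (ha : a = y + 3) (hb : b = y + 2) (hg : g = 2*y + 1) :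
    B2ok k mp t m g a b (2 * (u:ℤ) + 11) (3 * (u:ℤ) + 12) := by
  have d1 := D_ev (mp) (2 : ℤ) (by omega)
  have d2 := D_od (m) ((y:ℤ) + 4 : ℤ) (by omega)
  have d3 := hf_ev (mp) (2 : ℤ) (by omega)
  have d4 := hf_od (m) ((y:ℤ) + 4 : ℤ) (by omega)
  have c1 := cc_od (g) ((y:ℤ) : ℤ) (by omega)
  have e1 := eps_zero (k := k) (m := mp) (by omega)
  have e2 := eps_ge k m
  have kk : (k : ℤ) = ((u:ℤ) + 3 : ℤ) := by omega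
  have kmp : (mp : ℤ) = (4 : ℤ) := by omega
  have kt : (t : ℤ) = (2*(y:ℤ) + 5 : ℤ) := by omega
  have km : (m : ℤ) = (2*(y:ℤ) + 9 : ℤ) := by omega
  have ka : (a : ℤ) = ((y:ℤ) + 3 : ℤ) := by omega
  have kb : (b : ℤ) = ((y:ℤ) + 2 : ℤ) := by omega
  have p : (0 : ℤ) ≤ (18*(y:ℤ) + 18 : ℤ) := by positivity
  unfold B2ok
  rw [T2_pos m (by omega), T2_pos mp (by omega)]
  simp only [d1, d2, d3, d4, kk, kmp, kt, km, ka, kb]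
  linarith

lemma b2leaf34 (k mp t m g a b x y z u : ℕ) (hk : k = u + 3) (hmp : mp = 3) (ht : t = 2) (hm : m = 5) (ha : a = 1) (hb : b = 1) :
    B2ok k mp t m g a b (2 * (u:ℤ) + 8) (2 * (u:ℤ) + 8) := by
  have d1 := D_od (mp) (1 : ℤ) (by omega)
  have d2 := D_od (m) (2 : ℤ) (by omega)
  have d3 := hf_od (mp) (1 : ℤ) (by omega)
  have d4 := hf_od (m) (2 : ℤ) (by omega)
  have c1 := cc_nonneg g
  have e1 := eps_zero (k := k) (m := mp) (by omega)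
  have e2 := eps_one (k := k) (m := m) (by omega)
  have kk : (k : ℤ) = ((u:ℤ) + 3 : ℤ) := by omega
  have kmp : (mp : ℤ) = (3 : ℤ) := by omega
  have kt : (t : ℤ) = (2 : ℤ) := by omega
  have km : (m : ℤ) = (5 : ℤ) := by omega
  have ka : (a : ℤ) = (1 : ℤ) := by omega
  have kb : (b : ℤ) = (1 : ℤ) := by omega
  have p : (0 : ℤ) ≤ (6 : ℤ) := by positivity
  unfold B2ok
  rw [T2_pos m (by omega), T2_pos mp (by omega)]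
  simp only [d1, d2, d3, d4, kk, kmp, kt, km, ka, kb]
  linarith

lemma b2leaf35 (k mp t m g a b x y z u : ℕ) (hk : k = u + 3) (hmp : mp = 3) (ht : t = 2*y + 4) (hm : m = 2*y + 7) (ha : a = y + 2) (hb : b = y + 2) (hg : g = 2*y + 1) :
    B2ok k mp t m g a b (2 * (u:ℤ) + 8) (2 * (u:ℤ) + 8) := by
  have d1 := D_od (mp) (1 : ℤ) (by omega)
  have d2 := D_od (m) ((y:ℤ) + 3 : ℤ) (by omega)
  have d3 := hf_od (mp) (1 : ℤ) (by omega)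
  have d4 := hf_od (m) ((y:ℤ) + 3 : ℤ) (by omega)
  have c1 := cc_od (g) ((y:ℤ) : ℤ) (by omega)
  have e1 := eps_zero (k := k) (m := mp) (by omega)
  have e2 := eps_ge k m
  have kk : (k : ℤ) = ((u:ℤ) + 3 : ℤ) := by omega
  have kmp : (mp : ℤ) = (3 : ℤ) := by omega
  have kt : (t : ℤ) = (2*(y:ℤ) + 4 : ℤ) := by omega
  have km : (m : ℤ) = (2*(y:ℤ) + 7 : ℤ) := by omega
  have ka : (a : ℤ) = ((y:ℤ) + 2 : ℤ) := by omega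
  have kb : (b : ℤ) = ((y:ℤ) + 2 : ℤ) := by omega
  have p : (0 : ℤ) ≤ (6*(y:ℤ) + 6 : ℤ) := by positivity
  unfold B2ok
  rw [T2_pos m (by omega), T2_pos mp (by omega)]
  simp only [d1, d2, d3, d4, kk, kmp, kt, km, ka, kb]
  linarith

lemma b2leaf36 (k mp t m g a b x y z u : ℕ) (hk : k = u + 3) (hmp : mp = 3) (ht : t = 2*y + 3) (hm : m = 2*y + 6) (ha : a = y + 2) (hb : b = y + 1) (hg : g = 2*y) :
    B2ok k mp t m g a b (2 * (u:ℤ) + 8) (2 * (u:ℤ) + 8) := by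
  have d1 := D_od (mp) (1 : ℤ) (by omega)
  have d2 := D_ev (m) ((y:ℤ) + 3 : ℤ) (by omega)
  have d3 := hf_od (mp) (1 : ℤ) (by omega)
  have d4 := hf_ev (m) ((y:ℤ) + 3 : ℤ) (by omega)
  have c1 := cc_ev (g) ((y:ℤ) : ℤ) (by omega)
  have e1 := eps_zero (k := k) (m := mp) (by omega)
  have e2 := eps_ge k m
  have kk : (k : ℤ) = ((u:ℤ) + 3 : ℤ) := by omega
  have kmp : (mp : ℤ) = (3 : ℤ) := by omega
  have kt : (t : ℤ) = (2*(y:ℤ) + 3 : ℤ) := by omega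
  have km : (m : ℤ) = (2*(y:ℤ) + 6 : ℤ) := by omega
  have ka : (a : ℤ) = ((y:ℤ) + 2 : ℤ) := by omega
  have kb : (b : ℤ) = ((y:ℤ) + 1 : ℤ) := by omega
  have p : (0 : ℤ) ≤ (6*(y:ℤ) : ℤ) := by positivity
  unfold B2ok
  rw [T2_pos m (by omega), T2_pos mp (by omega)]
  simp only [d1, d2, d3, d4, kk, kmp, kt, km, ka, kb]
  linarith

lemma B2_small (k mp t : ℕ) (hk : 1 ≤ k) (hk2 : k ≤ 2) (h3 : 3 ≤ mp) (ht : 2 ≤ t) :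
    B2ok k mp t (mp + t) (t - mp) ((t + 1) / 2) (t / 2) (D (mp + k)) (D (mp + k)) := by
  rcases (by omega : k = 1 ∨ k = 2) with hk | hk
  · rcases le_or_gt mp t with hc | hc
    · obtain ⟨x, hx | hx⟩ : ∃ x : ℕ, mp = 2 * x + 3 ∨ mp = 2 * x + 4 := ⟨(mp - 3) / 2, by omega⟩ <;>
      obtain ⟨y, hy | hy⟩ : ∃ y : ℕ, t = mp + 2 * y ∨ t = mp + 2 * y + 1 := ⟨(t - mp) / 2, by omega⟩
      · rcases x with _ | x
        · exact b2leaf1 _ _ _ _ _ _ _ 0 y 0 0 (by omega) (by omega) (by omega) (by omega) (by omega) (by omega) (by omega)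
        · exact b2leaf2 _ _ _ _ _ _ _ x y 0 0 (by omega) (by omega) (by omega) (by omega) (by omega) (by omega) (by omega)
      · exact b2leaf3 _ _ _ _ _ _ _ x y 0 0 (by omega) (by omega) (by omega) (by omega) (by omega) (by omega) (by omega)
      · exact b2leaf4 _ _ _ _ _ _ _ x y 0 0 (by omega) (by omega) (by omega) (by omega) (by omega) (by omega) (by omega)
      · exact b2leaf5 _ _ _ _ _ _ _ x y 0 0 (by omega) (by omega) (by omega) (by omega) (by omega) (by omega) (by omega)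
    · obtain ⟨x, hx | hx⟩ : ∃ x : ℕ, t = 2 * x + 2 ∨ t = 2 * x + 3 := ⟨(t - 2) / 2, by omega⟩ <;>
      obtain ⟨y, hy | hy⟩ : ∃ y : ℕ, mp = t + 1 + 2 * y ∨ mp = t + 1 + 2 * y + 1 := ⟨(mp - t - 1) / 2, by omega⟩
      · rcases x with _ | x
        · rcases y with _ | y
          · exact b2leaf6 _ _ _ _ _ _ _ 0 0 0 0 (by omega) (by omega) (by omega) (by omega) (by omega) (by omega)
          · exact b2leaf7 _ _ _ _ _ _ _ 0 y 0 0 (by omega) (by omega) (by omega) (by omega) (by omega) (by omega)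
        · exact b2leaf8 _ _ _ _ _ _ _ x y 0 0 (by omega) (by omega) (by omega) (by omega) (by omega) (by omega)
      · exact b2leaf9 _ _ _ _ _ _ _ x y 0 0 (by omega) (by omega) (by omega) (by omega) (by omega) (by omega)
      · exact b2leaf10 _ _ _ _ _ _ _ x y 0 0 (by omega) (by omega) (by omega) (by omega) (by omega) (by omega)
      · exact b2leaf11 _ _ _ _ _ _ _ x y 0 0 (by omega) (by omega) (by omega) (by omega) (by omega) (by omega)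
  · rcases le_or_gt mp t with hc | hc
    · obtain ⟨x, hx | hx⟩ : ∃ x : ℕ, mp = 2 * x + 3 ∨ mp = 2 * x + 4 := ⟨(mp - 3) / 2, by omega⟩ <;>
      obtain ⟨y, hy | hy⟩ : ∃ y : ℕ, t = mp + 2 * y ∨ t = mp + 2 * y + 1 := ⟨(t - mp) / 2, by omega⟩
      · exact b2leaf12 _ _ _ _ _ _ _ x y 0 0 (by omega) (by omega) (by omega) (by omega) (by omega) (by omega) (by omega)
      · exact b2leaf13 _ _ _ _ _ _ _ x y 0 0 (by omega) (by omega) (by omega) (by omega) (by omega) (by omega) (by omega)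
      · exact b2leaf14 _ _ _ _ _ _ _ x y 0 0 (by omega) (by omega) (by omega) (by omega) (by omega) (by omega) (by omega)
      · exact b2leaf15 _ _ _ _ _ _ _ x y 0 0 (by omega) (by omega) (by omega) (by omega) (by omega) (by omega) (by omega)
    · obtain ⟨x, hx | hx⟩ : ∃ x : ℕ, t = 2 * x + 2 ∨ t = 2 * x + 3 := ⟨(t - 2) / 2, by omega⟩ <;>
      obtain ⟨y, hy | hy⟩ : ∃ y : ℕ, mp = t + 1 + 2 * y ∨ mp = t + 1 + 2 * y + 1 := ⟨(mp - t - 1) / 2, by omega⟩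
      · exact b2leaf16 _ _ _ _ _ _ _ x y 0 0 (by omega) (by omega) (by omega) (by omega) (by omega) (by omega)
      · exact b2leaf17 _ _ _ _ _ _ _ x y 0 0 (by omega) (by omega) (by omega) (by omega) (by omega) (by omega)
      · exact b2leaf18 _ _ _ _ _ _ _ x y 0 0 (by omega) (by omega) (by omega) (by omega) (by omega) (by omega)
      · exact b2leaf19 _ _ _ _ _ _ _ x y 0 0 (by omega) (by omega) (by omega) (by omega) (by omega) (by omega)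

lemma B2_big (u mp t : ℕ) (h5 : 5 ≤ mp) (ht : 2 ≤ t) :
    B2ok (u + 3) mp t (mp + t) (t - mp) ((t + 1) / 2) (t / 2)
      (D (mp + 3) + u * (hf (mp - 1) + 1)) (D (mp + 3) + u * (hf mp + 1)) := by
  rcases le_or_gt mp t with hc | hc
  · obtain ⟨x, hx | hx⟩ : ∃ x : ℕ, mp = 2 * x + 5 ∨ mp = 2 * x + 6 := ⟨(mp - 5) / 2, by omega⟩ <;>
    obtain ⟨y, hy | hy⟩ : ∃ y : ℕ, t = mp + 2 * y ∨ t = mp + 2 * y + 1 := ⟨(t - mp) / 2, by omega⟩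
    · exact b2leaf20 _ _ _ _ _ _ _ x y 0 u (by omega) (by omega) (by omega) (by omega) (by omega) (by omega) (by omega)
    · exact b2leaf21 _ _ _ _ _ _ _ x y 0 u (by omega) (by omega) (by omega) (by omega) (by omega) (by omega) (by omega)
    · exact b2leaf22 _ _ _ _ _ _ _ x y 0 u (by omega) (by omega) (by omega) (by omega) (by omega) (by omega) (by omega)
    · exact b2leaf23 _ _ _ _ _ _ _ x y 0 u (by omega) (by omega) (by omega) (by omega) (by omega) (by omega) (by omega)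
  · obtain ⟨x, hx | hx⟩ : ∃ x : ℕ, t = 2 * x + 2 ∨ t = 2 * x + 3 := ⟨(t - 2) / 2, by omega⟩ <;>
    obtain ⟨y, hy | hy⟩ : ∃ y : ℕ, mp = t + 1 + 2 * y ∨ mp = t + 1 + 2 * y + 1 := ⟨(mp - t - 1) / 2, by omega⟩
    · rcases x with _ | x
      · rcases y with _ | y
        · omega
        · exact b2leaf24 _ _ _ _ _ _ _ 0 y 0 u (by omega) (by omega) (by omega) (by omega) (by omega) (by omega)
      · exact b2leaf25 _ _ _ _ _ _ _ x y 0 u (by omega) (by omega) (by omega) (by omega) (by omega) (by omega)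
    · exact b2leaf26 _ _ _ _ _ _ _ x y 0 u (by omega) (by omega) (by omega) (by omega) (by omega) (by omega)
    · rcases x with _ | x
      · rcases y with _ | y
        · omega
        · exact b2leaf27 _ _ _ _ _ _ _ 0 y 0 u (by omega) (by omega) (by omega) (by omega) (by omega) (by omega)
      · exact b2leaf28 _ _ _ _ _ _ _ x y 0 u (by omega) (by omega) (by omega) (by omega) (by omega) (by omega)
    · exact b2leaf29 _ _ _ _ _ _ _ x y 0 u (by omega) (by omega) (by omega) (by omega) (by omega) (by omega)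

lemma B2_four (u t : ℕ) (ht : 2 ≤ t) :
    B2ok (u + 3) 4 t (4 + t) (t - 4) ((t + 1) / 2) (t / 2) (2 * (u:ℤ) + 11) (3 * (u:ℤ) + 12) := by
  obtain ⟨y, hy | hy⟩ : ∃ y : ℕ, t = 2 * y + 2 ∨ t = 2 * y + 3 := ⟨(t - 2) / 2, by omega⟩
  · rcases y with _ | y
    · exact b2leaf30 _ _ _ _ _ _ _ 0 0 0 u (by omega) (by omega) (by omega) (by omega) (by omega) (by omega)
    · exact b2leaf31 _ _ _ _ _ _ _ 0 y 0 u (by omega) (by omega) (by omega) (by omega) (by omega) (by omega) (by omega)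
  · rcases y with _ | y
    · exact b2leaf32 _ _ _ _ _ _ _ 0 0 0 u (by omega) (by omega) (by omega) (by omega) (by omega) (by omega)
    · exact b2leaf33 _ _ _ _ _ _ _ 0 y 0 u (by omega) (by omega) (by omega) (by omega) (by omega) (by omega) (by omega)

lemma B2_three (u t : ℕ) (ht : 2 ≤ t) :
    B2ok (u + 3) 3 t (3 + t) (t - 3) ((t + 1) / 2) (t / 2) (2 * (u:ℤ) + 8) (2 * (u:ℤ) + 8) := by
  obtain ⟨y, hy | hy⟩ : ∃ y : ℕ, t = 2 * y + 2 ∨ t = 2 * y + 3 := ⟨(t - 2) / 2, by omega⟩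
  · rcases y with _ | y
    · exact b2leaf34 _ _ _ _ _ _ _ 0 0 0 u (by omega) (by omega) (by omega) (by omega) (by omega) (by omega)
    · exact b2leaf35 _ _ _ _ _ _ _ 0 y 0 u (by omega) (by omega) (by omega) (by omega) (by omega) (by omega) (by omega)
  · exact b2leaf36 _ _ _ _ _ _ _ 0 y 0 u (by omega) (by omega) (by omega) (by omega) (by omega) (by omega) (by omega)

end Pool.Agent.P.MP_2668aa_co
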