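import Pool.Agent.P.MP_2668aa_co.Ear
import Pool.Agent.P.MP_2668aa_co.Sums
import Pool.Agent.P.MP_2668aa_co.NumB2
import Pool.Agent.P.MP_2668aa_co.NumB1a0
import Pool.Agent.P.MP_2668aa_co.NumB1a1
import Pool.Agent.P.MP_2668aa_co.NumB1a2
import Pool.Agent.P.MP_2668aa_co.NumB1b
import Pool.Agent.P.MP_2668aa_co.NumB1c

/-! The upper bound, by induction along ears. -/

set_option linter.unusedSectionVars false

namespace Pool.Agent.P.MP_2668aa_co

open Finset

variable {V : Type*} [DecidableEq V] {G : SimpleGraph V} [DecidableRel G.Adj]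

section ear

variable {S S' : Finset V} {t : ℕ} {z : ℕ → V}

lemma GoodEar.zmem (h : GoodEar G S S' t z) {l : ℕ} (hl : l ≤ t + 1) : z l ∈ S := by
  by_cases h0 : l = 0
  · subst h0; exact h.sub h.h0
  by_cases h1 : l = t + 1
  · subst h1; exact h.sub h.h1
  exact (h.mem l (by omega) (by omega)).1

lemma GoodEar.dist_path (h : GoodEar G S S' t z) {i j : ℕ} (hij : i ≤ j) (hj : j ≤ t + 1) :
    dS G S (z i) (z j) + i ≤ j := by
  induction j, hij using Nat.le_induction with
  | base => rw [dS_self]; omega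
  | succ j hij ih =>
    have h1 := ih (by omega)
    have h2 := dS_step (z i) (h.adj j (by omega)) (h.zmem (by omega)) (h.zmem hj)
    omega

lemma GoodEar.dist_left (h : GoodEar G S S' t z) (hS : Conn G S) (hS' : Conn G S') {i : ℕ}
    (hi : i ≤ t + 1) {y : V} (hy : y ∈ S') : dS G S (z i) y ≤ i + dS G S' (z 0) y := by
  have h1 := dS_tri hS (h.zmem hi) (h.sub h.h0) y
  have h2 := h.dist_path (Nat.zero_le i) hi
  have h3 := dS_anti h.sub hS' h.h0 hy
  rw [dS_comm] at h2
  omega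

lemma GoodEar.dist_right (h : GoodEar G S S' t z) (hS : Conn G S) (hS' : Conn G S') {i : ℕ}
    (hi : i ≤ t + 1) {y : V} (hy : y ∈ S') :
    dS G S (z i) y + i ≤ t + 1 + dS G S' (z (t + 1)) y := by
  have h1 := dS_tri hS (h.zmem hi) (h.sub h.h1) y
  have h2 := h.dist_path hi le_rfl
  have h3 := dS_anti h.sub hS' h.h1 hy
  omega

lemma GoodEar.dist_cyd (h : GoodEar G S S' t z) (hS : Conn G S) (hS' : Conn G S') {i j : ℕ}
    (hi : i ≤ t + 1) (hj : j ≤ t + 1) :
    (dS G S (z i) (z j) : ℤ) ≤ cyd (t + 1 + dS G S' (z 0) (z (t + 1))) i j := by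
  wlog hij : i ≤ j generalizing i j
  · rw [dS_comm, cyd_comm]; exact this hj hi (by omega)
  have h1 := h.dist_path hij hj
  have h2 := dS_tri hS (h.zmem hi) (h.sub h.h1) (z j)
  have h3 := h.dist_left hS hS' hi h.h1
  have h4 := h.dist_path hj le_rfl
  rw [dS_comm] at h4
  unfold cyd
  rw [abs_of_nonpos (by omega)]
  omega

lemma GoodEar.WS_le (h : GoodEar G S S' t z) (hS' : Conn G S') :
    WS G S ≤ WS G S' + 2 * ∑ i ∈ range t, ∑ y ∈ S', (dS G S (z (i + 1)) y : ℤ)
      + ∑ i ∈ range t, ∑ j ∈ range t, (dS G S (z (i + 1)) (z (j + 1)) : ℤ) := by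
  unfold WS wS
  rw [h.sum_eq]
  simp only [h.sum_eq (fun y => (dS G S _ y : ℤ))]
  rw [sum_add_distrib, sum_add_distrib]
  have e1 : ∑ x ∈ S', ∑ y ∈ S', (dS G S x y : ℤ) ≤ ∑ x ∈ S', ∑ y ∈ S', (dS G S' x y : ℤ) :=
    sum_le_sum (fun x hx => sum_le_sum (fun y hy => by
      exact_mod_cast dS_anti h.sub hS' hx hy))
  have e2 : ∑ x ∈ S', ∑ i ∈ range t, (dS G S x (z (i + 1)) : ℤ) =
      ∑ i ∈ range t, ∑ y ∈ S', (dS G S (z (i + 1)) y : ℤ) := by
    rw [sum_comm]
    exact sum_congr rfl (fun i _ => sum_congr rfl (fun y _ => by rw [dS_comm]))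
  linarith

lemma GoodEar.Y_le (h : GoodEar G S S' t z) (hS : Conn G S) (hS' : Conn G S') :
    3 * ∑ i ∈ range t, ∑ j ∈ range t, (dS G S (z (i + 1)) (z (j + 1)) : ℤ)
      + 6 * cc (t - dS G S' (z 0) (z (t + 1)) - 1) ≤ (t : ℤ) ^ 3 - t := by
  set s := dS G S' (z 0) (z (t + 1)) with hs
  have h1 := WZ_eq (t + 1 + s) t
  rw [show 2 * t - (t + 1 + s) = t - s - 1 by omega] at h1
  have h2 : ∑ i ∈ range t, ∑ j ∈ range t, (dS G S (z (i + 1)) (z (j + 1)) : ℤ) ≤
      ∑ i ∈ range t, ∑ j ∈ range t, cyd (t + 1 + s) i j := by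
    apply sum_le_sum; intro i hi
    apply sum_le_sum; intro j hj
    rw [mem_range] at hi hj
    have := h.dist_cyd hS hS' (i := i + 1) (j := j + 1) (by omega) (by omega)
    unfold cyd at this ⊢
    rw [← hs] at this
    push_cast at this ⊢
    rwa [add_sub_add_right_eq_sub] at this
  linarith

lemma GoodEar.X_le (h : GoodEar G S S' t z) (hS : Conn G S) (hS' : Conn G S') {a b : ℕ}
    (hab : a + b = t) :
    2 * ∑ i ∈ range t, ∑ y ∈ S', (dS G S (z (i + 1)) y : ℤ) ≤
      (S'.card : ℤ) * (a * (a + 1) + b * (b + 1)) + 2 * a * wS G S' (z 0)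
        + 2 * b * wS G S' (z (t + 1)) := by
  conv_lhs => rw [← hab]
  apply sum_split
  · intro i hi
    unfold wS
    rw [mul_comm, ← nsmul_eq_mul, ← sum_const, ← sum_add_distrib]
    apply sum_le_sum; intro y hy
    have := h.dist_left hS hS' (i := i + 1) (by omega) hy
    omega
  · intro i hi1 hi2
    unfold wS
    rw [mul_comm, ← nsmul_eq_mul, ← sum_const, ← sum_add_distrib]
    apply sum_le_sum; intro y hy
    have := h.dist_right hS hS' (i := i + 1) (by omega) hy
    omega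

lemma GoodEar.X_le' (h : GoodEar G S S' t z) (hS : Conn G S) (hS' : Conn G S') {a b : ℕ}
    (hab : a + b = t) :
    2 * ∑ i ∈ range t, ∑ y ∈ S', (dS G S (z (i + 1)) y : ℤ)
      + 2 * D (t - dS G S' (z 0) (z (t + 1))) ≤
      ((S'.card : ℤ) - 1) * (a * (a + 1) + b * (b + 1))
        + 2 * a * (wS G S' (z 0) - dS G S' (z 0) (z (t + 1)))
        + 2 * b * wS G S' (z (t + 1)) + t * (t + 1) := by
  set q := z (t + 1) with hq
  set s := dS G S' (z 0) q with hs
  have hqS : q ∈ S' := h.h1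
  have hc : ((S'.erase q).card : ℤ) = S'.card - 1 := by
    rw [card_erase_of_mem hqS]
    have := card_pos.2 ⟨q, hqS⟩
    omega
  have e0 : ∑ i ∈ range t, ∑ y ∈ S', (dS G S (z (i + 1)) y : ℤ) =
      ∑ i ∈ range t, ∑ y ∈ S'.erase q, (dS G S (z (i + 1)) y : ℤ)
        + ∑ i ∈ range t, (dS G S (z (i + 1)) q : ℤ) := by
    rw [← sum_add_distrib]
    exact sum_congr rfl (fun i _ => (sum_erase_add _ _ hqS).symm)
  have e1 : 2 * ∑ i ∈ range t, ∑ y ∈ S'.erase q, (dS G S (z (i + 1)) y : ℤ) ≤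
      ((S'.card : ℤ) - 1) * (a * (a + 1) + b * (b + 1)) + 2 * a * (wS G S' (z 0) - s)
        + 2 * b * wS G S' q := by
    conv_lhs => rw [← hab]
    apply sum_split
    · intro i hi
      have : wS G S' (z 0) - s = ∑ y ∈ S'.erase q, (dS G S' (z 0) y : ℤ) := by
        unfold wS
        rw [← sum_erase_add _ _ hqS]; ring
      rw [this, ← hc, mul_comm, ← nsmul_eq_mul, ← sum_const, ← sum_add_distrib]
      apply sum_le_sum; intro y hy
      have := h.dist_left hS hS' (i := i + 1) (by omega) (mem_erase.1 hy).2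
      omega
    · intro i hi1 hi2
      have : wS G S' q = ∑ y ∈ S'.erase q, (dS G S' q y : ℤ) := by
        unfold wS
        rw [← sum_erase_add _ _ hqS, dS_self]; simp
      rw [this, ← hc, mul_comm, ← nsmul_eq_mul, ← sum_const, ← sum_add_distrib]
      apply sum_le_sum; intro y hy
      have := h.dist_right hS hS' (i := i + 1) (by omega) (mem_erase.1 hy).2
      rw [← hq] at this
      omega
  have e2 : ∑ i ∈ range t, (dS G S (z (i + 1)) q : ℤ) ≤
      ∑ j ∈ range t, min ((j : ℤ) + 1) ((t + 1 + s : ℕ) - (j + 1)) := by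
    rw [← sum_range_reflect]
    apply sum_le_sum; intro j hj
    rw [mem_range] at hj
    have h1 := h.dist_left hS hS' (i := t - 1 - j + 1) (by omega) hqS
    have h2 := h.dist_path (i := t - 1 - j + 1) (j := t + 1) (by omega) le_rfl
    rw [← hq] at h2
    rw [← hs] at h1
    omega
  have e3 := R_eq (t + 1 + s) t
  rw [show 2 * t + 1 - (t + 1 + s) = t - s by omega] at e3
  linarith

lemma GoodEar.WS_one (h : GoodEar G S S' 1 z) (hS' : Conn G S') :
    WS G S ≤ WS G S' + 2 * wS G S (z 1) := by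
  have h1 := h.WS_le hS'
  have h2 := h.sum_eq (fun y => (dS G S (z 1) y : ℤ))
  simp only [range_one, sum_singleton, zero_add, dS_self] at h1 h2
  unfold wS
  rw [h2]
  simpa using h1

end ear

/-- The bound for the vertex set `S`. -/
def Bd (G : SimpleGraph V) [DecidableRel G.Adj] (S : Finset V) : Prop :=
  ∀ v ∈ S, ∀ k m : ℕ, (nb G S v).card = k + 2 → S.card = m + k → WS G S ≤ T2 k m

section cases

variable {S S' : Finset V} {t : ℕ} {z : ℕ → V} {v : V} {k m : ℕ}

lemma caseB1 (hS : BSet G S) (hS' : BSet G S') (h : GoodEar G S S' t z) (ih : Bd G S')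
    (ht : 2 ≤ t) (hv : z 0 = v) (hk : (nb G S v).card = k + 2) (hm : S.card = m + k)
    (hk1 : 1 ≤ k) : WS G S ≤ T2 k m := by
  have hvS : v ∈ S' := hv ▸ h.h0
  have hsum : ∑ i ∈ range t, (if G.Adj v (z (i + 1)) then (1 : ℤ) else 0) = 1 := by
    rw [sum_eq_single 0]
    · rw [if_pos]
      rw [← hv]; exact h.adj 0 (by omega)
    · intro i hi hi0
      rw [mem_range] at hi
      rw [if_neg]
      intro hadj
      rcases h.only ht (i + 1) (by omega) (by omega) v hvS hadj.symm with ⟨h1, _⟩ | ⟨_, h2⟩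
      · omega
      · exact h.ne (hv.trans h2)
    · intro h0
      exact absurd (mem_range.2 (by omega)) h0
  have h1 := h.nb_card v
  rw [hsum, hk] at h1
  obtain ⟨kp, rfl⟩ : ∃ kp, k = kp + 1 := ⟨k - 1, by omega⟩
  have hk' : (nb G S' v).card = kp + 2 := by omega
  have h2 := far_nb (G := G) hvS v
  obtain ⟨mp, hm'⟩ : ∃ mp, S'.card = mp + kp := ⟨S'.card - kp, by omega⟩
  have h3 := three_le_m hvS hk' hm'
  have h4 := h.card_eq
  obtain rfl : m = mp + t - 1 := by omega
  have hW := ih v hvS kp mp hk' hm'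
  have hq := h.h1
  have hs1 : 1 ≤ dS G S' (z 0) (z (t + 1)) := dS_pos hS'.2.1 h.h0 hq h.ne
  have hs2 := two_dist_le hS' hvS hk' hm' hq
  have hs3 : dS G S' (z (t + 1)) v = dS G S' (z 0) (z (t + 1)) := by rw [dS_comm, hv]
  rw [hs3] at hs2
  have hwv := Pv hS' hvS hk' hm'
  have key : ∀ (a b : ℕ) (bq : ℤ), a + b = t → wS G S' (z (t + 1)) ≤ bq →
      B1ok kp mp t (dS G S' (z 0) (z (t + 1))) (kp + 1) (mp + t - 1)
        (t - dS G S' (z 0) (z (t + 1))) (t - dS G S' (z 0) (z (t + 1)) - 1) a b bq →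
      WS G S ≤ T2 (kp + 1) (mp + t - 1) := by
    intro a b bq hab hbq hB
    have e1 := h.WS_le hS'.2.1
    have e2 := h.Y_le hS.2.1 hS'.2.1
    have e3 := h.X_le' hS.2.1 hS'.2.1 hab
    rw [hm'] at e3
    have e4 : (a : ℤ) * wS G S' (z 0) ≤ a * (D mp + kp) :=
      mul_le_mul_of_nonneg_left (by rw [hv]; exact hwv) (by positivity)
    have e5 : (b : ℤ) * wS G S' (z (t + 1)) ≤ b * bq :=
      mul_le_mul_of_nonneg_left hbq (by positivity)
    unfold B1ok at hB
    push_cast at e3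
    linarith
  set s := dS G S' (z 0) (z (t + 1)) with hs
  have hP0 := P0 hS' hq
  rw [hm'] at hP0
  rcases (by omega : kp = 0 ∨ kp = 1 ∨ kp = 2 ∨ 3 ≤ kp) with hkp | hkp | hkp | hkp
  · rcases (by omega : s + 1 ≤ t ∨ t ≤ s) with hc | hc
    · exact key _ _ _ (by omega) hP0 (B1_a0_ii kp mp t s hkp h3 ht hs1 hs2 hc)
    · exact key _ _ _ (by omega) hP0 (B1_a0_i kp mp t s hkp h3 ht hs1 hs2 hc)
  · rcases (by omega : s + 1 ≤ t ∨ t ≤ s) with hc | hc
    · exact key _ _ _ (by omega) hP0 (B1_a1_ii kp mp t s hkp h3 ht hs1 hs2 hc)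
    · exact key _ _ _ (by omega) hP0 (B1_a1_i kp mp t s hkp h3 ht hs1 hs2 hc)
  · rcases (by omega : s + 1 ≤ t ∨ t ≤ s) with hc | hc
    · exact key _ _ _ (by omega) hP0 (B1_a2_ii kp mp t s hkp h3 ht hs1 hs2 hc)
    · exact key _ _ _ (by omega) hP0 (B1_a2_i kp mp t s hkp h3 ht hs1 hs2 hc)
  · obtain ⟨u, hu⟩ : ∃ u, kp = u + 3 := ⟨kp - 3, by omega⟩
    have hu' : (kp : ℤ) = u + 3 := by omega
    rcases (by omega : s = 1 ∨ 2 ≤ s) with hs' | hs'
    · have hP := P2 hS' hvS hk' hm' hq (by omega)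
      refine key _ _ _ (by omega) ?_ (B1_b_ii kp u mp t s hu h3 ht hs' hs2 (by omega))
      rw [D_add_two]; linarith
    · have hP := P1 hS' hvS hk' hm' (by omega) hq
      rw [hs3, hu', add_sub_cancel_right] at hP
      rcases (by omega : s + 1 ≤ t ∨ t ≤ s) with hc | hc
      · exact key _ _ _ (by omega) hP (B1_c_ii kp u mp t s hu h3 ht hs' hs2 hc)
      · exact key _ _ _ (by omega) hP (B1_c_i kp u mp t s hu h3 ht hs' hs2 hc)

lemma caseB2 (hS : BSet G S) (hS' : BSet G S') (h : GoodEar G S S' t z) (ih : Bd G S')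
    (ht : 2 ≤ t) (hvS : v ∈ S') (hv0 : z 0 ≠ v) (hv1 : z (t + 1) ≠ v)
    (hle : dS G S' (z 0) v ≤ dS G S' (z (t + 1)) v)
    (hk : (nb G S v).card = k + 2) (hm : S.card = m + k) (hk1 : 1 ≤ k) : WS G S ≤ T2 k m := by
  have hsum : ∑ i ∈ range t, (if G.Adj v (z (i + 1)) then (1 : ℤ) else 0) = 0 := by
    apply sum_eq_zero
    intro i hi
    rw [mem_range] at hi
    rw [if_neg]
    intro hadj
    rcases h.only ht (i + 1) (by omega) (by omega) v hvS hadj.symm with ⟨_, h1⟩ | ⟨_, h2⟩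
    · exact hv0 h1.symm
    · exact hv1 h2.symm
  have h1 := h.nb_card v
  rw [hsum, hk] at h1
  have hk' : (nb G S' v).card = k + 2 := by omega
  have h2 := far_nb (G := G) hvS v
  obtain ⟨mp, hm'⟩ : ∃ mp, S'.card = mp + k := ⟨S'.card - k, by omega⟩
  have h3 := three_le_m hvS hk' hm'
  have h4 := h.card_eq
  obtain rfl : m = mp + t := by omega
  have hW := ih v hvS k mp hk' hm'
  have hp := h.h0
  have hq := h.h1
  have hd := dist_pair_le hS' hvS hk' hm' hp hq h.ne
  have hdq := two_dist_le hS' hvS hk' hm' hq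
  have hdp1 := dS_pos hS'.2.1 hp hvS hv0
  have hs := dS_tri hS'.2.1 hp hvS (z (t + 1))
  rw [dS_comm S' v] at hs
  have key : ∀ (bp bq : ℤ), wS G S' (z 0) ≤ bp → wS G S' (z (t + 1)) ≤ bq →
      B2ok k mp t (mp + t) (t - mp) ((t + 1) / 2) (t / 2) bp bq →
      WS G S ≤ T2 k (mp + t) := by
    intro bp bq hbp hbq hB
    have e1 := h.WS_le hS'.2.1
    have e2 := h.Y_le hS.2.1 hS'.2.1
    have e3 := h.X_le hS.2.1 hS'.2.1 (a := (t + 1) / 2) (b := t / 2) (by omega)
    rw [hm'] at e3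
    have e4 : (((t + 1) / 2 : ℕ) : ℤ) * wS G S' (z 0) ≤ ((t + 1) / 2 : ℕ) * bp :=
      mul_le_mul_of_nonneg_left hbp (by positivity)
    have e5 : ((t / 2 : ℕ) : ℤ) * wS G S' (z (t + 1)) ≤ (t / 2 : ℕ) * bq :=
      mul_le_mul_of_nonneg_left hbq (by positivity)
    have e6 : cc (t - mp) ≤ cc (t - dS G S' (z 0) (z (t + 1)) - 1) := cc_mono (by omega)
    unfold B2ok at hB
    rw [Nat.cast_add] at e3
    linarith
  by_cases hk2 : k ≤ 2
  · have a1 := P0 hS' hp
    have a2 := P0 hS' hq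
    rw [hm'] at a1 a2
    exact key _ _ a1 a2 (B2_small k mp t hk1 hk2 h3 ht)
  obtain ⟨u, rfl⟩ : ∃ u, k = u + 3 := ⟨k - 3, by omega⟩
  have a1 := P1 hS' hvS hk' hm' hk1 hp
  have a2 := P1 hS' hvS hk' hm' hk1 hq
  have hu : ((u + 3 : ℕ) : ℤ) - 3 = u := by omega
  rw [hu] at a1 a2
  rcases (by omega : mp = 3 ∨ mp = 4 ∨ 5 ≤ mp) with hmp | hmp | hmp
  · subst hmp
    have b1 := P2 hS' hvS hk' hm' hp (by omega)
    have b2 := P2 hS' hvS hk' hm' hq (by omega)
    have : D 3 = 2 := by simp [D]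
    push_cast at b1 b2
    exact key _ _ (by linarith) (by linarith) (B2_three u t ht)
  · subst hmp
    have b1 := P2 hS' hvS hk' hm' hp (by omega)
    have : D 4 = 4 := by simp [D]
    have : D (4 + 3) = 12 := by simp [D]
    have b2 : (u : ℤ) * (dS G S' (z (t + 1)) v + 1) ≤ u * 3 :=
      mul_le_mul_of_nonneg_left (by omega) (by positivity)
    push_cast at b1
    exact key _ _ (by linarith) (by linarith) (B2_four u t ht)
  · have b1 : (u : ℤ) * (dS G S' (z 0) v + 1) ≤ u * (hf (mp - 1) + 1) :=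
      mul_le_mul_of_nonneg_left (by unfold hf; omega) (by positivity)
    have b2 : (u : ℤ) * (dS G S' (z (t + 1)) v + 1) ≤ u * (hf mp + 1) :=
      mul_le_mul_of_nonneg_left (by unfold hf; omega) (by positivity)
    exact key _ _ (by linarith) (by linarith) (B2_big u mp t hmp ht)

/-- A neighbour of `v` far from all non-neighbours. -/
def Bad (G : SimpleGraph V) [DecidableRel G.Adj] (S : Finset V) (v x : V) : Prop :=
  x ∈ S ∧ G.Adj v x ∧ ∀ y ∈ S, y ∉ insert v (nb G S v) → 2 < dS G S x y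

lemma caseA (hS : BSet G S) (hS' : BSet G S') (h : GoodEar G S S' 1 z) (ih : Bd G S')
    (hvS : v ∈ S') (hk : (nb G S v).card = k + 2) (hm : S.card = m + k) (hk1 : 1 ≤ k) :
    WS G S ≤ T2 k m ∨ (k = 2 ∧ m = 5 ∧ z 1 ∉ S' ∧ Bad G S v (z 1)) := by
  have h1 := h.nb_card v
  simp only [range_one, sum_singleton, zero_add] at h1
  have h4 := h.card_eq
  have hW := h.WS_one hS'.2.1
  have hz := h.mem 1 le_rfl le_rfl
  have hv := h.sub hvS
  have hP0 := P0 hS hz.1
  rw [hm] at hP0
  by_cases hadj : G.Adj v (z 1)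
  · rw [if_pos hadj, hk] at h1
    obtain ⟨kp, rfl⟩ : ∃ kp, k = kp + 1 := ⟨k - 1, by omega⟩
    have hI := ih v hvS kp m (by omega) (by omega)
    have hd : dS G S (z 1) v = 1 := dS_adj hadj.symm hz.1 hv
    by_cases h0 : kp = 0
    · subst h0
      have := A1_one m
      left
      simp only [zero_add] at hP0 ⊢
      linarith
    by_cases h5 : kp = 1 ∧ m = 5
    · obtain ⟨rfl, rfl⟩ := h5
      by_cases hf : far G S (z 1) 2 ≤ 1
      · have b1 := P2_aux hS hz.1 (by omega) hf
        have b2 := A1_special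
        have b3 : D (1 + 1) = 1 := by simp [D]
        rw [hm] at b1
        left
        push_cast at b1
        simp only [Nat.reduceAdd] at b3 ⊢
        linarith
      · right
        refine ⟨rfl, rfl, hz.2, hz.1, hadj, ?_⟩
        have hsub : S.filter (fun y => 2 < dS G S (z 1) y) ⊆ S \ insert v (nb G S v) := by
          intro y hy
          obtain ⟨hy1, hy2⟩ := mem_filter.1 hy
          refine mem_sdiff.2 ⟨hy1, fun hy3 => ?_⟩
          have := (closed_nb_dist hv (z 1) hy3).1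
          omega
        have hcard : (S \ insert v (nb G S v)).card = 2 := by
          rw [card_sdiff_of_subset (closed_nb_subset hv), closed_nb_card]
          omega
        have hEq := eq_of_subset_of_card_le hsub (by unfold far at hf; omega)
        intro y hy1 hy2
        have : y ∈ S \ insert v (nb G S v) := mem_sdiff.2 ⟨hy1, hy2⟩
        rw [← hEq] at this
        exact (mem_filter.1 this).2
    · have b1 := P2 hS hv hk hm hz.1 hd
      have b2 := A1_big kp m (by omega) h5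
      left
      linarith
  · rw [if_neg hadj, hk] at h1
    have hk' : (nb G S' v).card = k + 2 := by omega
    have h2 := far_nb (G := G) hvS v
    obtain ⟨mp, rfl⟩ : ∃ mp, m = mp + 1 := ⟨m - 1, by omega⟩
    have hm' : S'.card = mp + k := by omega
    have h3 := three_le_m hvS hk' hm'
    have hI := ih v hvS k mp hk' hm'
    left
    by_cases hk3 : k ≤ 3
    · have := A2_small k mp hk1 hk3 h3
      linarith
    · obtain ⟨u, rfl⟩ : ∃ u, k = u + 3 := ⟨k - 3, by omega⟩
      have a1 := P1 hS hv hk hm hk1 hz.1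
      have a2 := two_dist_le hS hv hk hm hz.1
      have hu : ((u + 3 : ℕ) : ℤ) - 3 = u := by omega
      rw [hu] at a1
      have b1 : (u : ℤ) * (dS G S (z 1) v + 1) ≤ u * (hf (mp + 1) + 1) :=
        mul_le_mul_of_nonneg_left (by unfold hf; omega) (by positivity)
      have := A2_big u mp h3
      linarith

lemma step (hS : BSet G S) (ih : ∀ T, T ⊂ S → BSet G T → Bd G T) {S0 : Finset V}
    (h0 : BSet G S0) (hsub : S0 ⊆ S) (hne : S0 ≠ S) (hv : v ∈ S0)
    (hk : (nb G S v).card = k + 2) (hm : S.card = m + k) (hk1 : 1 ≤ k) :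
    WS G S ≤ T2 k m ∨ (k = 2 ∧ m = 5 ∧ ∃ x, x ∉ S0 ∧ Bad G S v x) := by
  obtain ⟨S', t, z, h1, hS', h⟩ := exists_goodEar hS h0 hsub hne
  have hvS := h1 hv
  have hI : Bd G S' := ih S' (by
    refine Finset.ssubset_iff_subset_ne.2 ⟨h.sub, fun he => ?_⟩
    have := h.card_eq
    have := h.one_le
    rw [he] at *
    omega) hS'
  by_cases ht : t = 1
  · subst ht
    rcases caseA hS hS' h hI hvS hk hm hk1 with h2 | ⟨a, b, c, d⟩
    · exact Or.inl h2
    · exact Or.inr ⟨a, b, z 1, fun hz => c (h1 hz), d⟩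
  have ht2 : 2 ≤ t := by have := h.one_le; omega
  left
  by_cases c0 : z 0 = v
  · exact caseB1 hS hS' h hI ht2 c0 hk hm hk1
  by_cases c1 : z (t + 1) = v
  · exact caseB1 hS hS' h.rev hI ht2 (by simpa using c1) hk hm hk1
  rcases le_total (dS G S' (z 0) v) (dS G S' (z (t + 1)) v) with hle | hle
  · exact caseB2 hS hS' h hI ht2 hvS c0 c1 hle hk hm hk1
  · exact caseB2 hS hS' h.rev hI ht2 hvS (by simpa using c1) (by simpa using c0)
      (by simpa using hle) hk hm hk1

end cases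

lemma bset_of_clique {A : Finset V} (h2 : 2 ≤ A.card)
    (h : ∀ x ∈ A, ∀ y ∈ A, x = y ∨ G.Adj x y) : BSet G A := by
  have key : ∀ B, B ⊆ A → Conn G B := by
    intro B hB x hx y hy
    rcases h x (hB hx) y (hB hy) with rfl | hxy
    · exact SimpleGraph.Reachable.refl _
    · exact reach_adj hxy hx hy
  exact ⟨h2, key A (subset_refl _), fun x => key _ (erase_subset _ _)⟩

theorem upper (S : Finset V) : BSet G S → Bd G S := by
  induction S using Finset.strongInduction with
  | H S ih =>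
  intro hS v hv k m hk hm
  by_cases hk0 : k = 0
  · rw [T2_zero m hk0]
    have : WS G S ≤ ∑ _x ∈ S, D S.card := sum_le_sum (fun x hx => P0 hS hx)
    rw [sum_const, nsmul_eq_mul, hm, hk0] at this
    simpa using this
  have hk1 : 1 ≤ k := by omega
  have h3 := three_le_m hv hk hm
  obtain ⟨u, hu⟩ : (nb G S v).Nonempty := card_pos.1 (by omega)
  obtain ⟨huS, hvu⟩ := mem_filter.1 hu
  have hB0 : BSet G {v, u} := bset_of_clique (by rw [card_pair hvu.ne])
    (by
      intro x hx y hy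
      simp only [mem_insert, mem_singleton] at hx hy
      rcases hx with rfl | rfl <;> rcases hy with rfl | rfl <;>
        simp [hvu, hvu.symm])
  rcases step hS ih hB0 (insert_subset hv (singleton_subset_iff.2 huS))
    (fun he => by have := card_pair hvu.ne; rw [he] at this; omega) (mem_insert_self _ _)
    hk hm hk1 with h | ⟨rfl, rfl, x, -, hxS, hvx, hx⟩
  · exact h
  have hcard : (S \ insert v (nb G S v)).card = 2 := by
    rw [card_sdiff_of_subset (closed_nb_subset hv), closed_nb_card]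
    omega
  obtain ⟨r, hr⟩ : (S \ insert v (nb G S v)).Nonempty := card_pos.1 (by omega)
  obtain ⟨hrS, hr⟩ := mem_sdiff.1 hr
  have hrv : r ≠ v := fun he => hr (he ▸ mem_insert_self _ _)
  have hrx : r ≠ x := fun he => hr (mem_insert_of_mem (mem_filter.2 ⟨hrS, he ▸ hvx⟩))
  obtain ⟨w⟩ := hS.2.2 v x (mem_erase.2 ⟨hvx.ne.symm, hxS⟩) r (mem_erase.2 ⟨hrv, hrS⟩)
  obtain ⟨x', hx', y, hy, hyx, hxy⟩ := exists_cross (S' := {x}) w (mem_singleton_self _)
    (by simpa using hrx)
  obtain rfl : x = x' := (mem_singleton.1 hx').symm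
  obtain ⟨hyv, hyS⟩ := mem_erase.1 hy
  have hdxy := dS_adj hxy hxS hyS
  have hvy : G.Adj v y := by
    by_contra hcon
    have := hx y hyS (by
      intro hmem
      rcases mem_insert.1 hmem with h | h
      · exact hyv h
      · exact hcon (mem_filter.1 h).2)
    omega
  have hB1 : BSet G {v, x, y} := bset_of_clique
    (le_trans (by rw [card_pair hvx.ne]) (card_le_card (s := {v, x})
      (by intro a ha; simp only [mem_insert, mem_singleton] at ha ⊢; tauto)))
    (by
      intro a ha b hb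
      simp only [mem_insert, mem_singleton] at ha hb
      rcases ha with rfl | rfl | rfl <;> rcases hb with rfl | rfl | rfl <;>
        simp [hvx, hvx.symm, hvy, hvy.symm, hxy, hxy.symm])
  rcases step hS ih hB1
    (insert_subset hv (insert_subset hxS (singleton_subset_iff.2 hyS)))
    (fun he => by have := card_le_three (a := v) (b := x) (c := y); rw [he] at this; omega)
    (mem_insert_self _ _) hk hm hk1 with h | ⟨-, -, x2, hx2n, hx2S, hvx2, hx2⟩
  · exact h
  exfalso
  simp only [mem_insert, mem_singleton, not_or] at hx2n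
  have hsub : ({x2, x, y} : Finset V) ⊆ nb G S v := by
    intro a ha
    simp only [mem_insert, mem_singleton] at ha
    rcases ha with rfl | rfl | rfl
    · exact mem_filter.2 ⟨hx2S, hvx2⟩
    · exact mem_filter.2 ⟨hxS, hvx⟩
    · exact mem_filter.2 ⟨hyS, hvy⟩
  have hc3 : ({x2, x, y} : Finset V).card = 3 := by
    rw [card_insert_of_notMem (by simp [hx2n.2.1, hx2n.2.2]), card_pair hxy.ne]
  have hc1 : (nb G S v \ {x2, x, y}).card = 1 := by
    rw [card_sdiff_of_subset hsub]; omega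
  obtain ⟨u0, hu0⟩ := card_eq_one.1 hc1
  have hu0m : u0 ∈ nb G S v \ {x2, x, y} := by rw [hu0]; exact mem_singleton_self _
  have hu0n := (mem_sdiff.1 hu0m).1
  have hvu0 : v ≠ u0 := (mem_filter.1 hu0n).2.ne
  have hru0 : r ≠ u0 := fun he => hr (mem_insert_of_mem (he ▸ hu0n))
  obtain ⟨w'⟩ := hS.2.2 u0 v (mem_erase.2 ⟨hvu0, hv⟩) r (mem_erase.2 ⟨hru0, hrS⟩)
  obtain ⟨a, ha, b, hb, hbn, hab⟩ := exists_cross (S' := insert v {x2, x, y}) w'
    (mem_insert_self _ _)
    (fun hmem => hr (insert_subset_insert v hsub hmem))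
  obtain ⟨hbu, hbS⟩ := mem_erase.1 hb
  have hbN : b ∉ insert v (nb G S v) := by
    intro hmem
    rcases mem_insert.1 hmem with h | h
    · exact hbn (h ▸ mem_insert_self _ _)
    · have : b ∈ nb G S v \ {x2, x, y} :=
        mem_sdiff.2 ⟨h, fun h' => hbn (mem_insert_of_mem h')⟩
      rw [hu0] at this
      exact hbu (mem_singleton.1 this)
  have q1 := hx b hbS hbN
  have q2 := hx2 b hbS hbN
  simp only [mem_insert, mem_singleton] at ha
  rcases ha with rfl | rfl | rfl | rfl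
  · exact hbN (mem_insert_of_mem (mem_filter.2 ⟨hbS, hab⟩))
  · have := dS_adj hab hx2S hbS
    omega
  · have := dS_adj hab hxS hbS
    omega
  · have := dS_step x hab hyS hbS
    omega

end Pool.Agent.P.MP_2668aa_co
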